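import Mathlib
import Pool.Agent.Helper832.AutC.TwoGen

/-!
Class-preserving automorphisms of finite p-groups: general lemmas.
-/

set_option autoImplicit false

open scoped commutatorElement

namespace Pool.Agent.Y36.AC

open Pool.Agent.Helper832.AutC

section Gen

variable {G : Type} [Group G]

theorem comm_mem (a b : G) : ⁅a, b⁆ ∈ commutator G :=
  Subgroup.commutator_mem_commutator (Subgroup.mem_top _) (Subgroup.mem_top _)

theorem conj_mem_comm (g : G) {c : G} (hc : c ∈ commutator G) : g * c * g⁻¹ ∈ commutator G :=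
  Subgroup.Normal.conj_mem inferInstance c hc g

/-- a nontrivial normal subgroup of a finite p-group contains a central element of order p -/
theorem exists_central {p : ℕ} [hp : Fact p.Prime] [Finite G] (hG : IsPGroup p G)
    (N : Subgroup G) [hN : N.Normal] (hne : N ≠ ⊥) :
    ∃ n ∈ N, n ≠ 1 ∧ n ^ p = 1 ∧ ∀ g : G, n * g = g * n := by
  classical
  have hG' : IsPGroup p (ConjAct G) := hG.of_equiv ConjAct.toConjAct
  have hcard : p ∣ Nat.card N := by
    rcases (hG.to_subgroup N).card_eq_or_dvd with h | h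
    · exact absurd (Subgroup.card_eq_one.mp h) hne
    · exact h
  have h1 : (1 : N) ∈ MulAction.fixedPoints (ConjAct G) N := by
    intro g
    apply Subtype.ext
    show (ConjAct.ofConjAct g) * 1 * (ConjAct.ofConjAct g)⁻¹ = 1
    group
  obtain ⟨b, hb, hb1⟩ := hG'.exists_fixed_point_of_prime_dvd_card_of_fixed_point N hcard h1
  have hbc : ∀ g : G, g * (b : G) * g⁻¹ = b := by
    intro g
    have h2 := hb (ConjAct.toConjAct g)
    exact congrArg Subtype.val h2
  have hb1' : (b : G) ≠ 1 := fun h => hb1 (Subtype.ext h.symm)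
  have hd : p ∣ orderOf (b : G) := hG.dvd_orderOf hb1'
  have hbf : 0 < orderOf (b : G) := orderOf_pos _
  refine ⟨(b : G) ^ (orderOf (b : G) / p), pow_mem b.2 _, ?_, ?_, ?_⟩
  · intro h
    have h3 := Nat.le_of_dvd (Nat.div_pos (Nat.le_of_dvd hbf hd) hp.out.pos)
      (orderOf_dvd_iff_pow_eq_one.mpr h)
    exact absurd h3 (not_le.mpr (Nat.div_lt_self hbf hp.out.one_lt))
  · rw [← pow_mul, Nat.div_mul_cancel hd, pow_orderOf_eq_one]
  · intro g
    have h4 : Commute (b : G) g := by
      have h5 := hbc g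
      show (b : G) * g = g * b
      calc (b : G) * g = (g * (b : G) * g⁻¹) * g := by rw [h5]
        _ = g * b := by group
    exact (h4.pow_left _).eq

theorem comm_le_frattini {p : ℕ} [hp : Fact p.Prime] [Finite G] (hG : IsPGroup p G) :
    commutator G ≤ frattini G := by
  rw [commutator_def, Subgroup.commutator_le]
  intro a _ b _
  exact (frattini_facts hG).1 a b

theorem normal_zpowers {n : G} (hn : ∀ g : G, n * g = g * n) : (Subgroup.zpowers n).Normal := by
  refine ⟨fun m hm g => ?_⟩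
  obtain ⟨k, rfl⟩ := hm
  have h : Commute (n ^ k) g := Commute.zpow_left (hn g) k
  have h1 : g * n ^ k * g⁻¹ = n ^ k := by rw [← h.eq]; group
  show g * n ^ k * g⁻¹ ∈ _
  rw [h1]
  exact ⟨k, rfl⟩

theorem zpowers_two {n : G} (h2 : n ^ 2 = 1) {g : G} (hg : g ∈ Subgroup.zpowers n) :
    g = 1 ∨ g = n := by
  obtain ⟨k, rfl⟩ := hg
  rcases Int.even_or_odd' k with ⟨m, rfl | rfl⟩
  · left
    show n ^ (2 * m) = 1
    rw [zpow_mul]
    have : n ^ (2 : ℤ) = 1 := by exact_mod_cast h2
    rw [this, one_zpow]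
  · right
    show n ^ (2 * m + 1) = n
    rw [zpow_add, zpow_mul]
    have : n ^ (2 : ℤ) = 1 := by exact_mod_cast h2
    rw [this, one_zpow, one_mul, zpow_one]

/-- the derived subgroup of a two-generator group is the normal closure of one commutator -/
theorem comm_le_of_gen {x y : G} (hgen : Subgroup.closure {x, y} = ⊤) (N : Subgroup G)
    [hN : N.Normal] (h : ⁅x, y⁆ ∈ N) : commutator G ≤ N := by
  rw [commutator_def, Subgroup.commutator_le]
  let π := QuotientGroup.mk' N
  have hπ : ∀ g : G, π g = 1 ↔ g ∈ N := fun g => QuotientGroup.eq_one_iff g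
  have hxy : π x * π y = π y * π x := by
    rw [← commutatorElement_eq_one_iff_mul_comm, ← map_commutatorElement, hπ]
    exact h
  have hg2 : Subgroup.closure ({π x, π y} : Set (G ⧸ N)) = ⊤ := by
    have e1 : ({π x, π y} : Set _) = π '' {x, y} := by rw [Set.image_pair]
    rw [e1, ← MonoidHom.map_closure, hgen,
      Subgroup.map_top_of_surjective _ (QuotientGroup.mk'_surjective N)]
  have hcen : ∀ q : G ⧸ N, q * π x = π x * q ∧ q * π y = π y * q := by
    have h1 : (⊤ : Subgroup (G ⧸ N)) ≤ Subgroup.centralizer {π x, π y} := by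
      rw [← hg2, Subgroup.closure_le]
      rintro _ (rfl | rfl)
      · rw [SetLike.mem_coe, Subgroup.mem_centralizer_iff]
        rintro _ (rfl | rfl)
        · rfl
        · exact hxy.symm
      · rw [SetLike.mem_coe, Subgroup.mem_centralizer_iff]
        rintro _ (rfl | rfl)
        · exact hxy
        · rfl
    intro q
    have h2 := Subgroup.mem_centralizer_iff.mp (h1 (Subgroup.mem_top q))
    exact ⟨(h2 _ (Or.inl rfl)).symm, (h2 _ (Or.inr rfl)).symm⟩
  have hcen2 : (⊤ : Subgroup (G ⧸ N)) ≤ Subgroup.center (G ⧸ N) := by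
    rw [← hg2, Subgroup.closure_le]
    rintro _ (rfl | rfl)
    · rw [SetLike.mem_coe, Subgroup.mem_center_iff]
      exact fun q => (hcen q).1
    · rw [SetLike.mem_coe, Subgroup.mem_center_iff]
      exact fun q => (hcen q).2
  intro g _ k _
  rw [← hπ, map_commutatorElement, commutatorElement_eq_one_iff_mul_comm]
  exact ((Subgroup.mem_center_iff.mp (hcen2 (Subgroup.mem_top (π g)))) (π k)).symm

theorem gen_swap {x y : G} (hgen : Subgroup.closure {x, y} = ⊤) :
    Subgroup.closure {y, x} = ⊤ := by rw [Set.pair_comm]; exact hgen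

theorem gen_mul {x y : G} (hgen : Subgroup.closure {x, y} = ⊤) (k : ℤ) :
    Subgroup.closure {x, y * x ^ k} = ⊤ := by
  rw [eq_top_iff, ← hgen, Subgroup.closure_le]
  have h1 : x ∈ Subgroup.closure ({x, y * x ^ k} : Set G) := Subgroup.subset_closure (Or.inl rfl)
  have h2 : y * x ^ k ∈ Subgroup.closure ({x, y * x ^ k} : Set G) :=
    Subgroup.subset_closure (Or.inr rfl)
  rintro q (rfl | rfl)
  · exact h1
  · have h4 := mul_mem h2 (inv_mem (zpow_mem h1 k))
    rwa [mul_inv_cancel_right] at h4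

theorem comm_mul_right_zpow (x y : G) (k : ℤ) : ⁅x, y * x ^ k⁆ = ⁅x, y⁆ := by
  rw [commutatorElement_def, commutatorElement_def]
  have h : Commute x (x ^ k) := Commute.zpow_right (Commute.refl x) k
  have h1 : x * (y * x ^ k) * x⁻¹ = x * y * x⁻¹ * x ^ k := by
    calc x * (y * x ^ k) * x⁻¹ = x * y * (x⁻¹ * (x * x ^ k) * x⁻¹) := by group
      _ = x * y * (x⁻¹ * (x ^ k * x) * x⁻¹) := by rw [h.eq]
      _ = _ := by group
  rw [h1]; group

/-- centre lemma for two generators -/
theorem central_of_gen {x y : G} (hgen : Subgroup.closure {x, y} = ⊤) {c : G}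
    (h1 : x * c = c * x) (h2 : y * c = c * y) : ∀ g : G, c * g = g * c := by
  have h3 : (⊤ : Subgroup G) ≤ Subgroup.centralizer {c} := by
    rw [← hgen, Subgroup.closure_le]
    rintro _ (rfl | rfl)
    · rw [SetLike.mem_coe, Subgroup.mem_centralizer_iff]
      rintro _ rfl; exact h1.symm
    · rw [SetLike.mem_coe, Subgroup.mem_centralizer_iff]
      rintro _ rfl; exact h2.symm
  intro g
  exact Subgroup.mem_centralizer_iff.mp (h3 (Subgroup.mem_top g)) c rfl

/-- a set stable under conjugation by two generators of a finite group is stable under all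
conjugations -/
theorem conj_stable [Finite G] {x y : G} (hgen : Subgroup.closure {x, y} = ⊤) (S : Set G)
    (hx : ∀ s ∈ S, x * s * x⁻¹ ∈ S) (hy : ∀ s ∈ S, y * s * y⁻¹ ∈ S) (g : G) :
    ∀ s ∈ S, g * s * g⁻¹ ∈ S := by
  have hpow : ∀ a : G, (∀ s ∈ S, a * s * a⁻¹ ∈ S) → ∀ k : ℕ, ∀ s ∈ S, a ^ k * s * (a ^ k)⁻¹ ∈ S := by
    intro a ha k
    induction k with
    | zero => intro s hs; simpa using hs
    | succ k ih =>
      intro s hs
      have h1 : a ^ (k + 1) * s * (a ^ (k + 1))⁻¹ = a * (a ^ k * s * (a ^ k)⁻¹) * a⁻¹ := by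
        rw [pow_succ']; group
      rw [h1]
      exact ha _ (ih s hs)
  have hinv : ∀ a : G, (∀ s ∈ S, a * s * a⁻¹ ∈ S) → ∀ s ∈ S, a⁻¹ * s * a⁻¹⁻¹ ∈ S := by
    intro a ha
    obtain ⟨k, hk⟩ : ∃ k : ℕ, a ^ k = a⁻¹ := by
      have : a⁻¹ ∈ Submonoid.powers a := by
        rw [mem_powers_iff_mem_zpowers]; exact inv_mem (Subgroup.mem_zpowers a)
      exact this
    rw [← hk]
    exact hpow a ha k
  have hg : g ∈ Subgroup.closure ({x, y} : Set G) := by rw [hgen]; exact Subgroup.mem_top g
  induction hg using Subgroup.closure_induction with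
  | mem a ha =>
    rcases ha with rfl | rfl
    · exact hx
    · exact hy
  | one => intro s hs; simpa using hs
  | mul a b _ _ ha hb =>
    intro s hs
    have h1 : a * b * s * (a * b)⁻¹ = a * (b * s * b⁻¹) * a⁻¹ := by group
    rw [h1]
    exact ha _ (hb s hs)
  | inv a _ ha => exact hinv a ha

/-- counting the conjugates of an element centralising the derived subgroup -/
theorem card_le_of_pow [Finite G] {x v : G} (hgen : Subgroup.closure {x, v} = ⊤)
    (hv : ∀ c ∈ commutator G, c * v = v * c) {m : ℕ} (hm : 0 < m) (hx : x ^ m * v = v * x ^ m)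
    (hC : ∀ c ∈ commutator G, ∃ g : G, g * v * g⁻¹ = c * v) :
    Nat.card (commutator G) ≤ m := by
  classical
  let K : Subgroup G := Subgroup.centralizer {v}
  have hK : ∀ h : G, h ∈ K ↔ h * v = v * h := by
    intro h
    rw [Subgroup.mem_centralizer_iff]
    constructor
    · intro h1; exact (h1 v rfl).symm
    · rintro h1 _ rfl; exact h1.symm
  have hcK : commutator G ≤ K := fun c hc => (hK c).mpr (hv c hc)
  have hKn : K.Normal := by
    refine ⟨fun k hk g => ?_⟩
    have h1 : g * k * g⁻¹ = ⁅g, k⁆ * k := by rw [commutatorElement_def]; group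
    rw [h1]
    exact mul_mem (hcK (comm_mem g k)) hk
  have hsup : Subgroup.zpowers x ⊔ K = ⊤ := by
    rw [eq_top_iff, ← hgen, Subgroup.closure_le]
    rintro _ (rfl | rfl)
    · exact (le_sup_left : _ ≤ Subgroup.zpowers _ ⊔ K) (Subgroup.mem_zpowers _)
    · exact (le_sup_right : _ ≤ Subgroup.zpowers _ ⊔ K) ((hK _).mpr rfl)
  let f : Fin m → commutator G := fun i => ⟨⁅x ^ (i : ℕ), v⁆, comm_mem _ _⟩
  have hf : Function.Surjective f := by
    rintro ⟨c, hc⟩
    obtain ⟨g, hg⟩ := hC c hc
    have hg2 : g ∈ Subgroup.zpowers x ⊔ K := by rw [hsup]; exact Subgroup.mem_top g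
    rw [Subgroup.mem_sup_of_normal_right] at hg2
    obtain ⟨_, ⟨i, rfl⟩, k, hk, hgk⟩ := hg2
    have hk' := (hK k).mp hk
    have h1 : x ^ i * v * (x ^ i)⁻¹ = c * v := by
      rw [← hg, ← hgk]
      have h2 : k * v * k⁻¹ = v := by rw [hk']; group
      calc x ^ i * v * (x ^ i)⁻¹ = x ^ i * (k * v * k⁻¹) * (x ^ i)⁻¹ := by rw [h2]
        _ = _ := by group
    have hm0 : (0 : ℤ) < m := by exact_mod_cast hm
    have h3 := Int.emod_nonneg i hm0.ne'
    have h4 := Int.emod_lt_of_pos i hm0
    refine ⟨⟨(i % m).toNat, by omega⟩, ?_⟩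
    apply Subtype.ext
    show ⁅x ^ ((i % m).toNat), v⁆ = c
    have h5 : x ^ ((i % m).toNat) = x ^ (i % m) := by
      rw [← zpow_natCast, Int.toNat_of_nonneg h3]
    rw [h5]
    have h6 : Commute (x ^ (m * (i / m) : ℤ)) v := by
      rw [zpow_mul, zpow_natCast]
      exact Commute.zpow_left hx _
    have h7 : x ^ i = x ^ (i % m) * x ^ (m * (i / m) : ℤ) := by
      rw [← zpow_add, Int.emod_add_mul_ediv]
    rw [h7] at h1
    have h8 : x ^ (m * (i / m) : ℤ) * v * (x ^ (m * (i / m) : ℤ))⁻¹ = v := by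
      rw [h6.eq]; group
    have h9 : x ^ (i % m) * v * (x ^ (i % m))⁻¹ = c * v := by
      rw [← h1]
      calc x ^ (i % m) * v * (x ^ (i % m))⁻¹
          = x ^ (i % m) * (x ^ (m * (i / m) : ℤ) * v * (x ^ (m * (i / m) : ℤ))⁻¹)
            * (x ^ (i % m))⁻¹ := by rw [h8]
        _ = _ := by group
    rw [commutatorElement_def, h9]; group
  have h := Nat.card_le_card_of_surjective f hf
  rwa [Nat.card_eq_fintype_card (α := Fin m), Fintype.card_fin] at h

end Gen

end Pool.Agent.Y36.AC
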