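import Mathlib
import Pool.Agent.Y36.AC.Base

/-!
Class-preserving automorphisms of finite p-groups: the property that every choice of images
`x ↦ x c` with `c` in the derived subgroup is realised, and its inheritance by quotients.
-/

set_option autoImplicit false

open scoped commutatorElement

namespace Pool.Agent.Y36.AC

open Pool.Agent.Helper832.AutC

/-- every choice `x i ↦ x i * c i` with `c i` in the derived subgroup is realised -/
def Full {G : Type} [Group G] {d : ℕ} (x : Fin d → G) : Prop :=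
  ∀ c : Fin d → G, (∀ i, c i ∈ commutator G) → ∃ α ∈ AutC G, ∀ i, α (x i) = x i * c i

/-- every generating `d`-tuple is full -/
def FullD (G : Type) [Group G] (d : ℕ) : Prop :=
  ∀ x : Fin d → G, Subgroup.closure (Set.range x) = ⊤ → Full x

theorem inv_mul_mem_comm {G : Type} [Group G] {x y : G} (h : IsConj x y) :
    x⁻¹ * y ∈ commutator G := by
  obtain ⟨g, hg⟩ := isConj_iff.mp h
  have h1 : x⁻¹ * y = ⁅x⁻¹, g⁆ := by rw [← hg, commutatorElement_def]; group
  rw [h1]
  exact comm_mem _ _

/-- the equation of the problem is equivalent to fullness of a generating tuple -/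
theorem card_eq_iff_full {G : Type} [Group G] [Finite G] {d : ℕ} (x : Fin d → G)
    (hx : Subgroup.closure (Set.range x) = ⊤) :
    Nat.card (AutC G) = Nat.card (commutator G) ^ d ↔ Full x := by
  classical
  let Φ : AutC G → (Fin d → commutator G) :=
    fun α i => ⟨(x i)⁻¹ * α.1 (x i), inv_mul_mem_comm (α.2 (x i))⟩
  have hinj : Function.Injective Φ := by
    intro α β h
    apply Subtype.ext
    have h1 : (α.1 : G →* G) = (β.1 : G →* G) := by
      refine MonoidHom.eq_of_eqOn_dense hx ?_
      rintro _ ⟨i, rfl⟩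
      have h2 := congrArg Subtype.val (congrFun h i)
      exact mul_left_cancel h2
    exact MulEquiv.ext (fun g => DFunLike.congr_fun h1 g)
  have hcard : Nat.card (Fin d → commutator G) = Nat.card (commutator G) ^ d := by
    rw [Nat.card_fun, Nat.card_eq_fintype_card (α := Fin d), Fintype.card_fin]
  constructor
  · intro h c hc
    have h1 : Nat.card (Fin d → commutator G) ≤ Nat.card (AutC G) := by
      rw [hcard]; exact h.ge
    have hbij : Function.Bijective Φ := hinj.bijective_of_nat_card_le h1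
    obtain ⟨α, hα⟩ := hbij.2 (fun i => ⟨c i, hc i⟩)
    refine ⟨α.1, α.2, fun i => ?_⟩
    have h2 : (x i)⁻¹ * α.1 (x i) = c i := congrArg Subtype.val (congrFun hα i)
    rw [← h2]; group
  · intro h
    have hbij : Function.Bijective Φ := by
      refine ⟨hinj, fun c => ?_⟩
      obtain ⟨α, hα, hα'⟩ := h (fun i => (c i).1) (fun i => (c i).2)
      refine ⟨⟨α, hα⟩, funext (fun i => Subtype.ext ?_)⟩
      show (x i)⁻¹ * α (x i) = (c i).1
      rw [hα']; group
    rw [← hcard]
    exact Nat.card_eq_of_bijective Φ hbij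

theorem fullD_iff {G : Type} [Group G] [Finite G] {d : ℕ} (x : Fin d → G)
    (hx : Subgroup.closure (Set.range x) = ⊤) : FullD G d ↔ Full x := by
  constructor
  · intro h; exact h x hx
  · intro h y hy
    exact (card_eq_iff_full y hy).mp ((card_eq_iff_full x hx).mpr h)

/-- fullness passes to quotients by subgroups of the Frattini subgroup -/
theorem fullD_quot {G : Type} [Group G] [Finite G] {d : ℕ} (h : FullD G d) (N : Subgroup G)
    [N.Normal] (hN : N ≤ frattini G) : FullD (G ⧸ N) d := by
  intro y hy c hc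
  choose x hx using fun i => QuotientGroup.mk'_surjective N (y i)
  have hgen : Subgroup.closure (Set.range x) = ⊤ := by
    apply frattini_nongenerating
    rw [eq_top_iff]
    intro g _
    have h1 : QuotientGroup.mk' N g ∈ Subgroup.closure (Set.range y) := by
      rw [hy]; exact Subgroup.mem_top _
    have h2 : Set.range y = QuotientGroup.mk' N '' Set.range x := by
      rw [← Set.range_comp]
      congr 1
      funext i
      exact (hx i).symm
    rw [h2, ← MonoidHom.map_closure] at h1
    obtain ⟨k, hk, hkg⟩ := h1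
    have h3 : k⁻¹ * g ∈ N := QuotientGroup.eq.mp hkg
    have h4 : g = k * (k⁻¹ * g) := by group
    rw [h4]
    exact mul_mem ((le_sup_left : _ ≤ Subgroup.closure (Set.range x) ⊔ frattini G) hk)
      ((le_sup_right : _ ≤ Subgroup.closure (Set.range x) ⊔ frattini G) (hN h3))
  have hc' : ∀ i, ∃ e ∈ commutator G, QuotientGroup.mk' N e = c i := by
    intro i
    have h1 := hc i
    rw [← map_comm (QuotientGroup.mk' N) (QuotientGroup.mk'_surjective N)] at h1
    obtain ⟨e, he, he'⟩ := h1
    exact ⟨e, he, he'⟩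
  choose e he he' using hc'
  obtain ⟨α, hα, hαx⟩ := h x hgen e he
  have hle : ∀ β ∈ AutC G, ∀ n ∈ N, β n ∈ N := by
    intro β hβ n hn
    obtain ⟨c, hc⟩ := isConj_iff.mp (hβ n)
    rw [← hc]
    exact Subgroup.Normal.conj_mem inferInstance n hn c
  have hmap : N.map α.toMonoidHom = N := by
    ext n
    constructor
    · rintro ⟨m, hm, rfl⟩
      exact hle α hα m hm
    · intro hn
      refine ⟨α⁻¹ n, hle α⁻¹ ((AutC G).inv_mem hα) n hn, ?_⟩
      exact MulAut.apply_inv_self G α n
  let β : (G ⧸ N) ≃* (G ⧸ N) := QuotientGroup.congr N N α hmap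
  refine ⟨β, ?_, ?_⟩
  · intro q
    obtain ⟨g, rfl⟩ := QuotientGroup.mk_surjective q
    obtain ⟨c, hc⟩ := isConj_iff.mp (hα g)
    refine isConj_iff.mpr ⟨(c : G ⧸ N), ?_⟩
    show ((c * g * c⁻¹ : G) : G ⧸ N) = ((α g : G) : G ⧸ N)
    rw [hc]
  · intro i
    rw [← hx i, ← he' i, ← map_mul, ← hαx]
    rfl

/-- conjugacy classes of members of generating tuples are full cosets -/
theorem conj_of_fullD {G : Type} [Group G] {d : ℕ} (h : FullD G d) (x : Fin d → G)
    (hx : Subgroup.closure (Set.range x) = ⊤) (i : Fin d) (c : G) (hc : c ∈ commutator G) :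
    ∃ g : G, g * x i * g⁻¹ = c * x i := by
  obtain ⟨α, hα, hαx⟩ := h x hx (fun j => (x i)⁻¹ * c * x i) (fun j => by
    have h1 := conj_mem_comm (x i)⁻¹ hc
    rwa [inv_inv] at h1)
  obtain ⟨g, hg⟩ := isConj_iff.mp (hα (x i))
  refine ⟨g, ?_⟩
  rw [hg, hαx]; group

theorem card_comm_quot {G : Type} [Group G] [Finite G] (N : Subgroup G) [N.Normal]
    (hN : N ≤ commutator G) :
    Nat.card (commutator G) = Nat.card (commutator (G ⧸ N)) * Nat.card N := by
  have h1 : (commutator (G ⧸ N)).comap (QuotientGroup.mk' N) = commutator G := by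
    rw [← map_comm (QuotientGroup.mk' N) (QuotientGroup.mk'_surjective N), Subgroup.comap_map_eq,
      QuotientGroup.ker_mk', sup_eq_left.mpr hN]
  have h2 : (commutator (G ⧸ N)).index = (commutator G).index := by
    rw [← h1]
    exact (Subgroup.index_comap_of_surjective _ (QuotientGroup.mk'_surjective N)).symm
  have h3 := Subgroup.card_mul_index (commutator G)
  have h4 := Subgroup.card_mul_index (commutator (G ⧸ N))
  have h5 := Subgroup.card_eq_card_quotient_mul_card_subgroup N
  rw [h2] at h4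
  have h6 : 0 < (commutator G).index := Nat.pos_of_ne_zero Subgroup.index_ne_zero_of_finite
  apply Nat.eq_of_mul_eq_mul_right h6
  rw [h3, h5, ← h4]
  ring

theorem mem_comm_quot {G : Type} [Group G] (N : Subgroup G) [N.Normal]
    (hN : N ≤ commutator G) (c : G) : ((c : G ⧸ N) ∈ commutator (G ⧸ N)) ↔ c ∈ commutator G := by
  have h1 : (commutator (G ⧸ N)).comap (QuotientGroup.mk' N) = commutator G := by
    rw [← map_comm (QuotientGroup.mk' N) (QuotientGroup.mk'_surjective N), Subgroup.comap_map_eq,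
      QuotientGroup.ker_mk', sup_eq_left.mpr hN]
  rw [← h1]
  rfl

theorem card_quot_lt {G : Type} [Group G] [Finite G] (N : Subgroup G) [N.Normal]
    (hN : N ≠ ⊥) : Nat.card (G ⧸ N) < Nat.card G := by
  have h5 := Subgroup.card_eq_card_quotient_mul_card_subgroup N
  have h6 : 1 < Nat.card N := by
    rw [Subgroup.one_lt_card_iff_ne_bot]
    exact hN
  have h7 : 0 < Nat.card (G ⧸ N) := Nat.card_pos
  rw [h5]
  nlinarith

theorem range_pair {G : Type} (x y : G) : Set.range ![x, y] = {x, y} := by
  ext q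
  constructor
  · rintro ⟨i, rfl⟩
    fin_cases i
    · exact Or.inl rfl
    · exact Or.inr rfl
  · rintro (h | h)
    · exact ⟨0, h.symm⟩
    · exact ⟨1, h.symm⟩

/-- fullness for generating pairs -/
theorem full_pair {G : Type} [Group G] (h : FullD G 2) {x y : G}
    (hgen : Subgroup.closure {x, y} = ⊤) {c e : G} (hc : c ∈ commutator G)
    (he : e ∈ commutator G) : ∃ α ∈ AutC G, α x = x * c ∧ α y = y * e := by
  obtain ⟨α, hα, h1⟩ := h ![x, y] (by rw [range_pair]; exact hgen) ![c, e] (by
    intro i; fin_cases i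
    · exact hc
    · exact he)
  exact ⟨α, hα, h1 0, h1 1⟩

theorem conj_pair {G : Type} [Group G] (h : FullD G 2) {x y : G}
    (hgen : Subgroup.closure {x, y} = ⊤) {c : G} (hc : c ∈ commutator G) :
    ∃ g : G, g * y * g⁻¹ = c * y :=
  conj_of_fullD h ![x, y] (by rw [range_pair]; exact hgen) 1 c hc

/-- lifting generating pairs -/
theorem gen_lift {G : Type} [Group G] [Finite G] (N : Subgroup G) [N.Normal]
    (hN : N ≤ frattini G) {x y : G}
    (h : Subgroup.closure {(x : G ⧸ N), (y : G ⧸ N)} = ⊤) : Subgroup.closure {x, y} = ⊤ := by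
  apply frattini_nongenerating
  rw [eq_top_iff]
  intro g _
  have h1 : QuotientGroup.mk' N g ∈ Subgroup.closure {(x : G ⧸ N), (y : G ⧸ N)} := by
    rw [h]; exact Subgroup.mem_top _
  have h2 : ({(x : G ⧸ N), (y : G ⧸ N)} : Set (G ⧸ N)) = QuotientGroup.mk' N '' {x, y} := by
    rw [Set.image_pair]; rfl
  rw [h2, ← MonoidHom.map_closure] at h1
  obtain ⟨k, hk, hkg⟩ := h1
  have h3 : k⁻¹ * g ∈ N := QuotientGroup.eq.mp hkg
  have h4 : g = k * (k⁻¹ * g) := by group
  rw [h4]
  exact mul_mem ((le_sup_left : _ ≤ Subgroup.closure {x, y} ⊔ frattini G) hk)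
    ((le_sup_right : _ ≤ Subgroup.closure {x, y} ⊔ frattini G) (hN h3))

theorem gen_quot2 {G : Type} [Group G] (N : Subgroup G) [N.Normal] {x y : G}
    (h : Subgroup.closure {x, y} = ⊤) : Subgroup.closure {(x : G ⧸ N), (y : G ⧸ N)} = ⊤ := by
  have h2 : ({(x : G ⧸ N), (y : G ⧸ N)} : Set (G ⧸ N)) = QuotientGroup.mk' N '' {x, y} := by
    rw [Set.image_pair]; rfl
  rw [h2, ← MonoidHom.map_closure, h,
    Subgroup.map_top_of_surjective _ (QuotientGroup.mk'_surjective N)]

/-- normal closure of the commutator in a cyclic derived subgroup -/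
theorem comm_eq_zpowers {G : Type} [Group G] [Finite G] {x y : G}
    (hgen : Subgroup.closure {x, y} = ⊤) (hc : IsCyclic (commutator G)) :
    commutator G = Subgroup.zpowers ⁅x, y⁆ := by
  apply le_antisymm
  · obtain ⟨⟨g, hg⟩, hgg⟩ := hc.exists_generator
    obtain ⟨k, hk⟩ := hgg ⟨⁅x, y⁆, comm_mem x y⟩
    have hk' : g ^ k = ⁅x, y⁆ := congrArg Subtype.val hk
    have hn : (Subgroup.zpowers ⁅x, y⁆).Normal := by
      refine ⟨fun m hm q => ?_⟩
      obtain ⟨l, rfl⟩ := hm
      obtain ⟨r, hr⟩ := hgg ⟨q * g * q⁻¹, conj_mem_comm q hg⟩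
      have hr' : g ^ r = q * g * q⁻¹ := congrArg Subtype.val hr
      refine ⟨l * r, ?_⟩
      show ⁅x, y⁆ ^ (l * r) = q * ⁅x, y⁆ ^ l * q⁻¹
      rw [← conj_zpow, ← hk', ← conj_zpow, ← hr', ← zpow_mul, ← zpow_mul, ← zpow_mul]
      congr 1; ring
    exact comm_le_of_gen hgen _ (Subgroup.mem_zpowers _)
  · rw [Subgroup.zpowers_le]
    exact comm_mem x y

end Pool.Agent.Y36.AC
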