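import Mathlib
import Pool.Agent.Y36.AC.Full

/-!
Class-preserving automorphisms of finite p-groups: with at least three generators, fullness forces
nilpotency class at most two.
-/

set_option autoImplicit false

open scoped commutatorElement

namespace Pool.Agent.Y36.AC

open Pool.Agent.Helper832.AutC

section Calc

variable {G : Type} [Group G]

variable (hC : ∀ c ∈ commutator G, ∀ g q : G, ⁅c, g⁆ * q = q * ⁅c, g⁆)

include hC

theorem br_mul {c c' : G} (_hc : c ∈ commutator G) (hc' : c' ∈ commutator G) (t : G) :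
    ⁅c * c', t⁆ = ⁅c, t⁆ * ⁅c', t⁆ := by
  have h1 : ⁅c * c', t⁆ = c * ⁅c', t⁆ * c⁻¹ * ⁅c, t⁆ := by
    simp only [commutatorElement_def]; group
  rw [h1, ← hC c' hc' t c, mul_inv_cancel_right, hC c' hc' t]

theorem br_inv {c : G} (hc : c ∈ commutator G) (t : G) : ⁅c⁻¹, t⁆ = ⁅c, t⁆⁻¹ := by
  have h1 := br_mul hC (inv_mem hc) hc t
  rw [inv_mul_cancel, commutatorElement_one_left] at h1
  exact eq_inv_of_mul_eq_one_left h1.symm

theorem br_conj {c : G} (hc : c ∈ commutator G) (h t : G) : ⁅h * c * h⁻¹, t⁆ = ⁅c, t⁆ := by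
  have h1 : h * c * h⁻¹ = ⁅c, h⁆⁻¹ * c := by simp only [commutatorElement_def]; group
  have h2 : ⁅c, h⁆ ∈ commutator G := comm_mem _ _
  rw [h1, br_mul hC (inv_mem h2) hc, br_inv hC h2]
  have h3 : ⁅⁅c, h⁆, t⁆ = 1 := by
    rw [commutatorElement_eq_one_iff_mul_comm]
    exact hC c hc h t
  rw [h3, inv_one, one_mul]

theorem br_right {c : G} (hc : c ∈ commutator G) (g h : G) : ⁅c, g * h⁆ = ⁅c, g⁆ * ⁅c, h⁆ := by
  have h1 : ⁅c, g * h⁆ = ⁅c, g⁆ * (g * ⁅c, h⁆ * g⁻¹) := by
    simp only [commutatorElement_def]; group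
  rw [h1, ← hC c hc h g, mul_inv_cancel_right]

theorem br_right_zpow {c : G} (hc : c ∈ commutator G) (g : G) (k : ℤ) :
    ⁅c, g ^ k⁆ = ⁅c, g⁆ ^ k := by
  let φ : G →* G := MonoidHom.mk' (fun g => ⁅c, g⁆) (fun a b => br_right hC hc a b)
  exact map_zpow φ g k

/-- the exponent of the moved generator -/
theorem exponent_exists {d : ℕ} (t : Fin d → G) (i k : Fin d) (g : G)
    (hg : g ∈ Subgroup.closure (Set.range t)) :
    ∃ a : ℤ, ∀ α ∈ AutC G, (∀ l, l ≠ k → α (t l) = t l) → ∀ c, α (t k) = t k * c →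
      ⁅g⁻¹ * α g, t i⁆ = ⁅c, t i⁆ ^ a := by
  classical
  induction hg using Subgroup.closure_induction with
  | mem g hg =>
    obtain ⟨l, rfl⟩ := hg
    by_cases hl : l = k
    · refine ⟨1, fun α hα h1 c hc => ?_⟩
      rw [hl, hc, inv_mul_cancel_left, zpow_one]
    · refine ⟨0, fun α hα h1 c hc => ?_⟩
      rw [h1 l hl, inv_mul_cancel, commutatorElement_one_left, zpow_zero]
  | one =>
    refine ⟨0, fun α hα h1 c hc => ?_⟩
    rw [map_one, inv_one, one_mul, commutatorElement_one_left, zpow_zero]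
  | mul g h _ _ ihg ihh =>
    obtain ⟨a, ha⟩ := ihg
    obtain ⟨b, hb⟩ := ihh
    refine ⟨a + b, fun α hα h1 c hc => ?_⟩
    have e1 : (g * h)⁻¹ * α (g * h) = (h⁻¹ * (g⁻¹ * α g) * h⁻¹⁻¹) * (h⁻¹ * α h) := by
      rw [map_mul]; group
    have m1 : g⁻¹ * α g ∈ commutator G := inv_mul_mem_comm (hα g)
    have m2 : h⁻¹ * α h ∈ commutator G := inv_mul_mem_comm (hα h)
    rw [e1, br_mul hC (conj_mem_comm _ m1) m2, br_conj hC m1, ha α hα h1 c hc, hb α hα h1 c hc,
      zpow_add]
  | inv g _ ihg =>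
    obtain ⟨a, ha⟩ := ihg
    refine ⟨-a, fun α hα h1 c hc => ?_⟩
    have e1 : g⁻¹⁻¹ * α g⁻¹ = g * (g⁻¹ * α g)⁻¹ * g⁻¹ := by
      rw [map_inv]; group
    have m1 : g⁻¹ * α g ∈ commutator G := inv_mul_mem_comm (hα g)
    rw [e1, br_conj hC (inv_mem m1), br_inv hC m1, ha α hα h1 c hc, zpow_neg]

/-- with three distinct indices, one generator centralises `γ₂` modulo another one -/
theorem claim3 {d : ℕ} (hfull : FullD G d) (t : Fin d → G)
    (ht : Subgroup.closure (Set.range t) = ⊤) {i j k : Fin d} (hik : i ≠ k)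
    (hjk : j ≠ k) : ∃ b : ℤ, ∀ c ∈ commutator G, ⁅c, t j * t i ^ b⁆ = 1 := by
  classical
  obtain ⟨g, hg⟩ := conj_of_fullD hfull t ht i ⁅t k, t j⁆ (comm_mem _ _)
  have hgi : ⁅g, t i⁆ = ⁅t k, t j⁆ := by
    rw [commutatorElement_def g, hg]; group
  obtain ⟨a, ha⟩ := exponent_exists hC t i k g (by rw [ht]; exact Subgroup.mem_top g)
  refine ⟨-a, fun c hc => ?_⟩
  obtain ⟨α, hα, hαt⟩ := hfull t ht (Function.update (fun _ => 1) k c) (by
    intro l
    by_cases hl : l = k
    · rw [hl, Function.update_self]; exact hc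
    · rw [Function.update_of_ne hl]; exact one_mem _)
  have hαk : α (t k) = t k * c := by rw [hαt, Function.update_self]
  have hαl : ∀ l, l ≠ k → α (t l) = t l := by
    intro l hl
    rw [hαt, Function.update_of_ne hl, mul_one]
  have h1 := ha α hα hαl c hαk
  have m1 : g⁻¹ * α g ∈ commutator G := inv_mul_mem_comm (hα g)
  have h2 : α ⁅g, t i⁆ = ⁅g⁻¹ * α g, t i⁆ * ⁅g, t i⁆ := by
    rw [map_commutatorElement, hαl i hik]
    have e1 : ⁅α g, t i⁆ = g * ⁅g⁻¹ * α g, t i⁆ * g⁻¹ * ⁅g, t i⁆ := by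
      simp only [commutatorElement_def]; group
    rw [e1, ← hC _ m1 (t i) g, mul_inv_cancel_right]
  have h3 : α ⁅t k, t j⁆ = ⁅c, t j⁆ * ⁅t k, t j⁆ := by
    rw [map_commutatorElement, hαl j hjk, hαk]
    have e1 : ⁅t k * c, t j⁆ = t k * ⁅c, t j⁆ * (t k)⁻¹ * ⁅t k, t j⁆ := by
      simp only [commutatorElement_def]; group
    rw [e1, ← hC _ hc (t j) (t k), mul_inv_cancel_right]
  rw [hgi, h3] at h2
  have h4 : ⁅c, t j⁆ = ⁅g⁻¹ * α g, t i⁆ := mul_right_cancel h2
  rw [br_right hC hc, br_right_zpow hC hc, h4, h1, zpow_neg, mul_inv_cancel]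

end Calc

theorem gen_update {G : Type} [Group G] {d : ℕ} (t : Fin d → G)
    (ht : Subgroup.closure (Set.range t) = ⊤) {i j : Fin d} (hij : i ≠ j) (b : ℤ) :
    Subgroup.closure (Set.range (Function.update t j (t j * t i ^ b))) = ⊤ := by
  classical
  rw [eq_top_iff, ← ht, Subgroup.closure_le]
  have h1 : ∀ l, l ≠ j →
      t l ∈ Subgroup.closure (Set.range (Function.update t j (t j * t i ^ b))) := by
    intro l hl
    apply Subgroup.subset_closure
    exact ⟨l, by rw [Function.update_of_ne hl]⟩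
  have h2 : t j * t i ^ b ∈ Subgroup.closure (Set.range (Function.update t j (t j * t i ^ b))) := by
    apply Subgroup.subset_closure
    exact ⟨j, by rw [Function.update_self]⟩
  rintro _ ⟨l, rfl⟩
  by_cases hl : l = j
  · rw [hl]
    have h3 := mul_mem h2 (inv_mem (zpow_mem (h1 i hij) b))
    rwa [mul_inv_cancel_right] at h3
  · exact h1 l hl

/-- class at most three: fullness with at least three generators forces class at most two -/
theorem class3_step {G : Type} [Group G] {d : ℕ} (hd : 3 ≤ d)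
    (hC : ∀ c ∈ commutator G, ∀ g q : G, ⁅c, g⁆ * q = q * ⁅c, g⁆) (hfull : FullD G d)
    (t : Fin d → G) (ht : Subgroup.closure (Set.range t) = ⊤) :
    commutator G ≤ Subgroup.center G := by
  classical
  let T : Subgroup G := Subgroup.centralizer (commutator G : Set G)
  have hT : ∀ g : G, g ∈ T ↔ ∀ c ∈ commutator G, ⁅c, g⁆ = 1 := by
    intro g
    rw [Subgroup.mem_centralizer_iff]
    constructor
    · intro h c hc
      rw [commutatorElement_eq_one_iff_mul_comm]
      exact h c hc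
    · intro h c hc
      exact commutatorElement_eq_one_iff_mul_comm.mp (h c hc)
  by_cases hall : ∀ i, t i ∈ T
  · have h1 : (⊤ : Subgroup G) ≤ T := by
      rw [← ht, Subgroup.closure_le]
      rintro _ ⟨i, rfl⟩
      exact hall i
    intro c hc
    rw [Subgroup.mem_center_iff]
    intro g
    have h2 := (hT g).mp (h1 (Subgroup.mem_top g)) c hc
    exact (commutatorElement_eq_one_iff_mul_comm.mp h2).symm
  · exfalso
    push Not at hall
    obtain ⟨i, hi⟩ := hall
    have hcard : ∀ s : Finset (Fin d), s.card ≤ 2 → ∃ l, l ∉ s := by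
      intro s hs
      by_contra hcon
      push Not at hcon
      have h1 : s = Finset.univ := Finset.eq_univ_iff_forall.mpr hcon
      rw [h1, Finset.card_univ, Fintype.card_fin] at hs
      omega
    obtain ⟨j, hj⟩ := hcard {i} (by simp)
    obtain ⟨k, hk⟩ := hcard {i, j} (Finset.card_le_two)
    simp only [Finset.mem_singleton] at hj
    simp only [Finset.mem_insert, Finset.mem_singleton, not_or] at hk
    obtain ⟨b, hb⟩ := claim3 hC hfull t ht (i := i) (j := j) (k := k) (Ne.symm hk.1)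
      (Ne.symm hk.2)
    have hbT : t j * t i ^ b ∈ T := (hT _).mpr hb
    let t' := Function.update t j (t j * t i ^ b)
    have ht' : Subgroup.closure (Set.range t') = ⊤ := gen_update t ht (Ne.symm hj) b
    obtain ⟨b', hb'⟩ := claim3 hC hfull t' ht' (i := j) (j := i) (k := k) (Ne.symm hk.2)
      (Ne.symm hk.1)
    have h1 : t' i * t' j ^ b' ∈ T := (hT _).mpr hb'
    have h2 : t' j ∈ T := by
      show Function.update t j (t j * t i ^ b) j ∈ T
      rw [Function.update_self]; exact hbT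
    have h3 : t' i ∈ T := by
      have h4 := mul_mem h1 (inv_mem (zpow_mem h2 b'))
      rwa [mul_inv_cancel_right] at h4
    have h5 : t' i = t i := Function.update_of_ne (Ne.symm hj) _ _
    rw [h5] at h3
    exact hi h3

theorem ge3_aux {p : ℕ} [hp : Fact p.Prime] {d : ℕ} (hd : 3 ≤ d) : ∀ N : ℕ, ∀ (G : Type)
    [Group G] [Finite G], Nat.card G = N → IsPGroup p G → ∀ t : Fin d → G,
    Subgroup.closure (Set.range t) = ⊤ → FullD G d → commutator G ≤ Subgroup.center G := by
  intro N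
  induction N using Nat.strong_induction_on with
  | _ N ih =>
  intro G _ _ hN hG t ht hfull
  by_cases hne : ⁅commutator G, (⊤ : Subgroup G)⁆ = ⊥
  · rw [Subgroup.commutator_eq_bot_iff_le_centralizer] at hne
    rw [Subgroup.coe_top, Subgroup.centralizer_univ] at hne
    exact hne
  obtain ⟨n, hnc, hn1, hnp, hn⟩ := exists_central hG ⁅commutator G, (⊤ : Subgroup G)⁆ hne
  haveI := normal_zpowers hn
  let K := Subgroup.zpowers n
  have hKle : K ≤ commutator G := by
    rw [Subgroup.zpowers_le]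
    exact Subgroup.commutator_le_left _ _ hnc
  have hKne : K ≠ ⊥ := by rw [Ne, Subgroup.zpowers_eq_bot]; exact hn1
  have h1 := ih (Nat.card (G ⧸ K)) (hN ▸ card_quot_lt K hKne) (G ⧸ K) rfl (hG.to_quotient K)
    (fun i => (t i : G ⧸ K)) (by
      have e1 : Set.range (fun i => (t i : G ⧸ K)) = QuotientGroup.mk' K '' Set.range t := by
        rw [← Set.range_comp]; rfl
      rw [e1, ← MonoidHom.map_closure, ht,
        Subgroup.map_top_of_surjective _ (QuotientGroup.mk'_surjective K)])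
    (fullD_quot hfull K (hKle.trans (comm_le_frattini hG)))
  refine class3_step hd ?_ hfull t ht
  intro c hc g q
  have h2 := h1 ((mem_comm_quot K hKle c).mpr hc)
  have h3 : ((⁅c, g⁆ : G) : G ⧸ K) = 1 := by
    have h4 : ⁅(c : G ⧸ K), (g : G ⧸ K)⁆ = 1 :=
      commutatorElement_eq_one_iff_mul_comm.mpr ((mem_cen.mp h2) (g : G ⧸ K))
    exact h4
  obtain ⟨m, hm⟩ := (QuotientGroup.eq_one_iff _).mp h3
  have hm' : n ^ m = ⁅c, g⁆ := hm
  rw [← hm']
  exact Commute.zpow_left (hn q) m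

end Pool.Agent.Y36.AC
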