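import Mathlib
import Pool.Agent.Y36.AC.Full

/-!
Class-preserving automorphisms of finite p-groups: the exchange property of generating tuples, and
the sufficiency of the class condition for groups of class at most two.
-/

set_option autoImplicit false

open scoped commutatorElement

namespace Pool.Agent.Y36.AC

open Pool.Agent.Helper832.AutC

/-- an element outside the Frattini subgroup is a member of a generating tuple of the same length -/
theorem exchange {p : ℕ} [hp : Fact p.Prime] {G : Type} [Group G] [Finite G] (hG : IsPGroup p G)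
    {d : ℕ} (t : Fin d → G) (ht : Subgroup.closure (Set.range t) = ⊤) (x : G)
    (hx : x ∉ frattini G) : ∃ j, Subgroup.closure (Set.range (Function.update t j x)) = ⊤ := by
  classical
  obtain ⟨hF1, hF2⟩ := frattini_facts hG
  let V := G ⧸ frattini G
  letI : CommGroup V :=
    { (inferInstance : Group (G ⧸ frattini G)) with
      mul_comm := by
        intro a b
        obtain ⟨a, rfl⟩ := QuotientGroup.mk'_surjective (frattini G) a
        obtain ⟨b, rfl⟩ := QuotientGroup.mk'_surjective (frattini G) b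
        rw [← commutatorElement_eq_one_iff_mul_comm, ← map_commutatorElement]
        exact (QuotientGroup.eq_one_iff _).mpr (hF1 a b) }
  let π : G →* V := QuotientGroup.mk' (frattini G)
  have hπs : Function.Surjective π := QuotientGroup.mk'_surjective (frattini G)
  have hexp : ∀ v : V, v ^ p = 1 := by
    intro v
    obtain ⟨a, rfl⟩ := hπs v
    rw [← map_pow]
    exact (QuotientGroup.eq_one_iff _).mpr (hF2 a)
  have hgen : Subgroup.closure (Set.range (fun i => π (t i))) = ⊤ := by
    have e1 : Set.range (fun i => π (t i)) = π '' Set.range t := Set.range_comp π t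
    rw [e1, ← MonoidHom.map_closure, ht, Subgroup.map_top_of_surjective _ hπs]
  obtain ⟨a, ha⟩ := exists_exp (fun i => π (t i)) (π x) (by rw [hgen]; exact Subgroup.mem_top _)
  have hj : ∃ j, ¬ (p : ℤ) ∣ a j := by
    by_contra hcon
    push Not at hcon
    apply hx
    apply (QuotientGroup.eq_one_iff _).mp
    show π x = 1
    rw [ha]
    refine Finset.prod_eq_one (fun i _ => ?_)
    obtain ⟨m, hm⟩ := hcon i
    rw [hm, zpow_mul, zpow_natCast, hexp, one_zpow]
  obtain ⟨j, hj⟩ := hj
  refine ⟨j, ?_⟩
  let K := Subgroup.closure (Set.range (Function.update t j x)) ⊔ frattini G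
  have hKl : Subgroup.closure (Set.range (Function.update t j x)) ≤ K := le_sup_left
  have hti : ∀ i, i ≠ j → t i ∈ K := by
    intro i hi
    apply hKl
    apply Subgroup.subset_closure
    exact ⟨i, by rw [Function.update_of_ne hi]⟩
  have hxK : x ∈ K := by
    apply hKl
    apply Subgroup.subset_closure
    exact ⟨j, by rw [Function.update_self]⟩
  have hπK : ∀ g : G, π g ∈ K.map π → g ∈ K := by
    intro g hg
    obtain ⟨k, hk, hkg⟩ := hg
    have h1 : k⁻¹ * g ∈ frattini G := QuotientGroup.eq.mp hkg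
    have h2 := mul_mem hk ((le_sup_right : frattini G ≤ K) h1)
    rwa [mul_inv_cancel_left] at h2
  have htj : t j ^ a j ∈ K := by
    apply hπK
    have h1 : π x = π (t j) ^ a j * ∏ i ∈ Finset.univ.erase j, π (t i) ^ a i := by
      rw [ha, ← Finset.mul_prod_erase Finset.univ (fun i => π (t i) ^ a i) (Finset.mem_univ j)]
    have h2 : π (t j ^ a j) = π x * (∏ i ∈ Finset.univ.erase j, π (t i) ^ a i)⁻¹ := by
      rw [h1, mul_inv_cancel_right, map_zpow]
    rw [h2]
    refine mul_mem ⟨x, hxK, rfl⟩ (inv_mem (Subgroup.prod_mem _ (fun i hi => ?_)))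
    exact zpow_mem (show π (t i) ∈ K.map π from ⟨t i, hti i (Finset.ne_of_mem_erase hi), rfl⟩) _
  have htj' : t j ∈ K := mem_of_zpow_mem hG K (t j) (a j) hj htj
  apply frattini_nongenerating
  rw [eq_top_iff, ← ht, Subgroup.closure_le]
  rintro _ ⟨i, rfl⟩
  by_cases hi : i = j
  · rw [hi]; exact htj'
  · exact hti i hi

/-- the class condition outside the Frattini subgroup -/
theorem conj_of_notMem {p : ℕ} [hp : Fact p.Prime] {G : Type} [Group G] [Finite G]
    (hG : IsPGroup p G) {d : ℕ} (hfull : FullD G d) (t : Fin d → G)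
    (ht : Subgroup.closure (Set.range t) = ⊤) (x : G) (hx : x ∉ frattini G) (c : G)
    (hc : c ∈ commutator G) : ∃ g : G, g * x * g⁻¹ = c * x := by
  classical
  obtain ⟨j, hj⟩ := exchange hG t ht x hx
  have h := conj_of_fullD hfull _ hj j c hc
  rwa [Function.update_self] at h

/-- minimal tuples: no member lies in the span of the others and the Frattini subgroup -/
theorem notMem_span {G : Type} [Group G] [Finite G] (t : Fin (Group.rank G) → G)
    (ht : Subgroup.closure (Set.range t) = ⊤) (k : Fin (Group.rank G)) :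
    t k ∉ Subgroup.closure (t '' {k}ᶜ) ⊔ frattini G := by
  classical
  intro h
  have h1 : Subgroup.closure (t '' {k}ᶜ) = ⊤ := by
    apply frattini_nongenerating
    rw [eq_top_iff, ← ht, Subgroup.closure_le]
    rintro _ ⟨i, rfl⟩
    by_cases hi : i = k
    · rw [hi]; exact h
    · exact (le_sup_left : _ ≤ Subgroup.closure (t '' {k}ᶜ) ⊔ frattini G)
        (Subgroup.subset_closure ⟨i, hi, rfl⟩)
  let S : Finset G := (Finset.univ.erase k).image t
  have hS : Subgroup.closure (S : Set G) = ⊤ := by
    rw [← h1]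
    congr 1
    ext g
    simp only [S, Finset.coe_image, Finset.coe_erase, Finset.coe_univ, Set.mem_image,
      Set.mem_diff, Set.mem_univ, true_and, Set.mem_compl_iff, Set.mem_singleton_iff]
  have h2 := Group.rank_le hS
  have h3 : S.card ≤ (Finset.univ.erase k).card := Finset.card_image_le
  rw [Finset.card_erase_of_mem (Finset.mem_univ k), Finset.card_univ, Fintype.card_fin] at h3
  have h4 := k.2
  omega

/-- a product of powers of a minimal tuple with a unit exponent is outside the Frattini subgroup -/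
theorem wd_notMem {p : ℕ} [hp : Fact p.Prime] {G : Type} [Group G] [Finite G]
    (hG : IsPGroup p G) (t : Fin (Group.rank G) → G)
    (ht : Subgroup.closure (Set.range t) = ⊤) (b : Fin (Group.rank G) → ℤ)
    (k : Fin (Group.rank G)) (hk : ¬ (p : ℤ) ∣ b k) : wd t b ∉ frattini G := by
  classical
  intro hmem
  obtain ⟨hF1, hF2⟩ := frattini_facts hG
  let V := G ⧸ frattini G
  letI : CommGroup V :=
    { (inferInstance : Group (G ⧸ frattini G)) with
      mul_comm := by
        intro a b
        obtain ⟨a, rfl⟩ := QuotientGroup.mk'_surjective (frattini G) a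
        obtain ⟨b, rfl⟩ := QuotientGroup.mk'_surjective (frattini G) b
        rw [← commutatorElement_eq_one_iff_mul_comm, ← map_commutatorElement]
        exact (QuotientGroup.eq_one_iff _).mpr (hF1 a b) }
  let π : G →* V := QuotientGroup.mk' (frattini G)
  have h1 : π (wd t b) = 1 := (QuotientGroup.eq_one_iff _).mpr hmem
  rw [hom_wd, ← Finset.mul_prod_erase Finset.univ (fun i => π (t i) ^ b i) (Finset.mem_univ k)]
    at h1
  apply notMem_span t ht k
  let K := Subgroup.closure (t '' {k}ᶜ) ⊔ frattini G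
  have hπK : ∀ g : G, π g ∈ K.map π → g ∈ K := by
    intro g hg
    obtain ⟨k, hk, hkg⟩ := hg
    have h1 : k⁻¹ * g ∈ frattini G := QuotientGroup.eq.mp hkg
    have h2 := mul_mem hk ((le_sup_right : frattini G ≤ K) h1)
    rwa [mul_inv_cancel_left] at h2
  refine mem_of_zpow_mem hG K (t k) (b k) hk ?_
  apply hπK
  have h2 : π (t k ^ b k) = (∏ i ∈ Finset.univ.erase k, π (t i) ^ b i)⁻¹ := by
    rw [map_zpow]
    exact eq_inv_of_mul_eq_one_left h1
  rw [h2]
  refine inv_mem (Subgroup.prod_mem _ (fun i hi => ?_))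
  refine zpow_mem (show π (t i) ∈ K.map π from ⟨t i, ?_, rfl⟩) _
  exact (le_sup_left : _ ≤ K) (Subgroup.subset_closure ⟨i, Finset.ne_of_mem_erase hi, rfl⟩)

/-- extracting the largest power of `p` from a nonzero integer vector -/
theorem exists_pow_factor {p : ℕ} (hp : p.Prime) {ι : Type} (a : ι → ℤ)
    (ha : ∃ k, a k ≠ 0) : ∃ (s : ℕ) (b : ι → ℤ), (∀ i, a i = (p : ℤ) ^ s * b i) ∧
      ∃ k, ¬ (p : ℤ) ∣ b k := by
  classical
  obtain ⟨k, hk⟩ := ha
  have hex : ∃ s : ℕ, ¬ ∀ i, (p : ℤ) ^ (s + 1) ∣ a i := by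
    refine ⟨(a k).natAbs, fun h => ?_⟩
    have h1 := h k
    have h2 : (p ^ ((a k).natAbs + 1) : ℕ) ∣ (a k).natAbs := by
      have h3 := Int.natAbs_dvd_natAbs.mpr h1
      rwa [Int.natAbs_pow, Int.natAbs_natCast] at h3
    have h3 := Nat.le_of_dvd (Int.natAbs_pos.mpr hk) h2
    have h4 : (a k).natAbs + 1 < p ^ ((a k).natAbs + 1) := Nat.lt_pow_self hp.one_lt
    omega
  let s := Nat.find hex
  have hs : ¬ ∀ i, (p : ℤ) ^ (s + 1) ∣ a i := Nat.find_spec hex
  have hs' : ∀ i, (p : ℤ) ^ s ∣ a i := by
    by_cases h0 : s = 0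
    · intro i
      rw [h0, pow_zero]
      exact one_dvd _
    · have h1 := Nat.find_min hex (m := s - 1) (by
        show s - 1 < s
        omega)
      rw [not_not, Nat.sub_add_cancel (Nat.pos_of_ne_zero h0)] at h1
      exact h1
  choose b hb using hs'
  refine ⟨s, b, hb, ?_⟩
  by_contra hcon
  push Not at hcon
  apply hs
  intro i
  obtain ⟨m, hm⟩ := hcon i
  exact ⟨m, by rw [hb, hm]; ring⟩

/-- sufficiency of the class condition in class at most two -/
theorem class2_suf {p : ℕ} [hp : Fact p.Prime] {G : Type} [Group G] [Finite G]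
    (hG : IsPGroup p G) (h2 : ∀ a b c : G, ⁅⁅a, b⁆, c⁆ = 1)
    (hC : ∀ x : G, x ∉ frattini G → ∀ c ∈ commutator G, IsConj x (x * c))
    (t : Fin (Group.rank G) → G) (ht : Subgroup.closure (Set.range t) = ⊤) : Full t := by
  classical
  have hcrit : Crit h2 t := by
    intro a j g
    by_cases ha : ∀ k, a k = 0
    · refine ⟨1, ?_⟩
      rw [ha j, zpow_zero]
      symm
      refine Finset.prod_eq_one (fun i _ => ?_)
      rw [ha i, zpow_zero]
    · push Not at ha
      obtain ⟨s, b, hb, k, hk⟩ := exists_pow_factor hp.out a ha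
      have hw := wd_notMem hG t ht b k hk
      have h3 := hC _ hw (⁅t j, g⁆ ^ b j) (zpow_mem (comm_mem _ _) _)
      obtain ⟨h, hh⟩ := (isConj_iff_two h2 _ _).mp h3
      have h4 : ⁅t j, g⁆ ^ b j = ⁅wd t b, h⁆ := mul_left_cancel hh
      have h5 : (pr h2 (t j) g) ^ b j = pr h2 (wd t b) h := by
        apply Subtype.ext
        exact h4
      refine ⟨h, ?_⟩
      rw [pr_wd] at h5
      rw [hb j, mul_comm, zpow_mul, h5, ← Finset.prod_zpow]
      refine Finset.prod_congr rfl (fun i _ => ?_)
      rw [hb i, ← zpow_mul, mul_comm]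
  have hsurj := surjP_of_crit h2 t ht hcrit
  intro c hc
  obtain ⟨α, hα, h⟩ := hsurj (fun i => t i * c i) (fun i => by
    apply hC _ _ _ (hc i)
    intro hmem
    exact notMem_span t ht i ((le_sup_right : _ ≤ Subgroup.closure (t '' {i}ᶜ) ⊔ frattini G) hmem))
  exact ⟨α, hα, h⟩

end Pool.Agent.Y36.AC
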