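import Mathlib
import Pool.Agent.Y36.AC.Full

/-!
Class-preserving automorphisms of finite p-groups, two generators, `p` odd: the derived subgroup
is cyclic.
-/

set_option autoImplicit false

open scoped commutatorElement

namespace Pool.Agent.Y36.AC

open Pool.Agent.Helper832.AutC

/-- choosing the generators so that the second one commutes with the commutator -/
theorem pair_comm {p : ℕ} [hp : Fact p.Prime] {G : Type} [Group G] {x y n : G}
    (hgen : Subgroup.closure {x, y} = ⊤) (hn : ∀ g : G, n * g = g * n) (hnp : n ^ p = 1)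
    {a b : ℤ} (hx : x * ⁅x, y⁆ * x⁻¹ = n ^ a * ⁅x, y⁆) (hy : y * ⁅x, y⁆ * y⁻¹ = n ^ b * ⁅x, y⁆) :
    ∃ x' y' : G, Subgroup.closure {x', y'} = ⊤ ∧ y' * ⁅x', y'⁆ = ⁅x', y'⁆ * y' ∧
      (∃ a : ℤ, x' * ⁅x', y'⁆ * x'⁻¹ = n ^ a * ⁅x', y'⁆) ∧
      (⁅x', y'⁆ = ⁅x, y⁆ ∨ ⁅x', y'⁆ = ⁅x, y⁆⁻¹) := by
  have hnk : ∀ (k : ℤ) (q : G), n ^ k * q = q * n ^ k := fun k q => Commute.zpow_left (hn q) k
  by_cases hpa : (p : ℤ) ∣ a
  · obtain ⟨r, rfl⟩ := hpa
    have h1 : n ^ ((p : ℤ) * r) = 1 := by rw [zpow_mul, zpow_natCast, hnp, one_zpow]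
    rw [h1, one_mul] at hx
    have e1 : ⁅y, x⁆ = ⁅x, y⁆⁻¹ := (commutatorElement_inv x y).symm
    refine ⟨y, x, gen_swap hgen, ?_, ⟨-b, ?_⟩, Or.inr e1⟩
    · rw [e1]
      have h2 : Commute x ⁅x, y⁆ := by
        show x * ⁅x, y⁆ = ⁅x, y⁆ * x
        calc x * ⁅x, y⁆ = (x * ⁅x, y⁆ * x⁻¹) * x := by group
          _ = _ := by rw [hx]
      exact h2.inv_right
    · rw [e1]
      have h2 : y * ⁅x, y⁆⁻¹ * y⁻¹ = (y * ⁅x, y⁆ * y⁻¹)⁻¹ := by
        generalize ⁅x, y⁆ = z
        group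
      rw [h2, hy, mul_inv_rev, ← zpow_neg, ← hnk]
  · have hc : IsCoprime a (p : ℤ) := by
      rw [isCoprime_comm]
      exact (Prime.coprime_iff_not_dvd (Nat.prime_iff_prime_int.mp hp.out)).mpr hpa
    obtain ⟨r, s, hrs⟩ := hc
    -- `i * a ≡ b` with `i = r * b`
    refine ⟨x, y * x ^ (-(r * b)), gen_mul hgen _, ?_, ⟨a, ?_⟩, Or.inl (comm_mul_right_zpow x y _)⟩
    · rw [comm_mul_right_zpow]
      have hxk : ∀ k : ℤ, x ^ k * ⁅x, y⁆ * (x ^ k)⁻¹ = n ^ (k * a) * ⁅x, y⁆ := by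
        intro k
        induction k using Int.induction_on with
        | zero => simp
        | succ k ih =>
          have h1 : x ^ ((k : ℤ) + 1) * ⁅x, y⁆ * (x ^ ((k : ℤ) + 1))⁻¹
              = x * (x ^ (k : ℤ) * ⁅x, y⁆ * (x ^ (k : ℤ))⁻¹) * x⁻¹ := by
            rw [add_comm, zpow_add, zpow_one]; group
          rw [h1, ih]
          calc x * (n ^ ((k : ℤ) * a) * ⁅x, y⁆) * x⁻¹
              = (x * n ^ ((k : ℤ) * a)) * ⁅x, y⁆ * x⁻¹ := by group
            _ = n ^ ((k : ℤ) * a) * (x * ⁅x, y⁆ * x⁻¹) := by rw [← hnk]; group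
            _ = _ := by rw [hx, ← mul_assoc, ← zpow_add]; congr 2; ring
        | pred k ih =>
          have h1 : x ^ (-(k : ℤ) - 1) * ⁅x, y⁆ * (x ^ (-(k : ℤ) - 1))⁻¹
              = x⁻¹ * (x ^ (-(k : ℤ)) * ⁅x, y⁆ * (x ^ (-(k : ℤ)))⁻¹) * x := by
            rw [sub_eq_neg_add, zpow_add, zpow_neg x 1, zpow_one]; group
          have h2 : x⁻¹ * ⁅x, y⁆ * x = n ^ (-a) * ⁅x, y⁆ := by
            calc x⁻¹ * ⁅x, y⁆ * x = x⁻¹ * (n ^ (-a) * (n ^ a * ⁅x, y⁆)) * x := by group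
              _ = x⁻¹ * (n ^ (-a) * (x * ⁅x, y⁆ * x⁻¹)) * x := by rw [hx]
              _ = (x⁻¹ * n ^ (-a)) * (x * ⁅x, y⁆) := by group
              _ = n ^ (-a) * x⁻¹ * (x * ⁅x, y⁆) := by rw [← hnk]
              _ = _ := by group
          rw [h1, ih]
          calc x⁻¹ * (n ^ (-(k : ℤ) * a) * ⁅x, y⁆) * x
              = (x⁻¹ * n ^ (-(k : ℤ) * a)) * ⁅x, y⁆ * x := by group
            _ = n ^ (-(k : ℤ) * a) * (x⁻¹ * ⁅x, y⁆ * x) := by rw [← hnk]; group
            _ = _ := by rw [h2, ← mul_assoc, ← zpow_add]; congr 2; ring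
      have h3 : (y * x ^ (-(r * b))) * ⁅x, y⁆ * (y * x ^ (-(r * b)))⁻¹ = ⁅x, y⁆ := by
        calc (y * x ^ (-(r * b))) * ⁅x, y⁆ * (y * x ^ (-(r * b)))⁻¹
            = y * (x ^ (-(r * b)) * ⁅x, y⁆ * (x ^ (-(r * b)))⁻¹) * y⁻¹ := by group
          _ = y * (n ^ (-(r * b) * a) * ⁅x, y⁆) * y⁻¹ := by rw [hxk]
          _ = (y * n ^ (-(r * b) * a)) * ⁅x, y⁆ * y⁻¹ := by group
          _ = n ^ (-(r * b) * a) * (y * ⁅x, y⁆ * y⁻¹) := by rw [← hnk]; group
          _ = n ^ (-(r * b) * a + b) * ⁅x, y⁆ := by rw [hy, ← mul_assoc, ← zpow_add]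
          _ = ⁅x, y⁆ := by
            have h4 : -(r * b) * a + b = (p : ℤ) * (s * b) := by linear_combination (-b) * hrs
            rw [h4, zpow_mul, zpow_natCast, hnp, one_zpow, one_mul]
      calc (y * x ^ (-(r * b))) * ⁅x, y⁆
          = ((y * x ^ (-(r * b))) * ⁅x, y⁆ * (y * x ^ (-(r * b)))⁻¹) * (y * x ^ (-(r * b))) := by
            group
        _ = _ := by rw [h3]
    · rw [comm_mul_right_zpow]; exact hx

/-- a group of order at most `p` inside a `p`-group is cyclic -/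
theorem cyclic_of_card_le {p : ℕ} [hp : Fact p.Prime] {H : Type} [Group H] [Finite H]
    (hH : IsPGroup p H) (h : Nat.card H ≤ p) : IsCyclic H := by
  obtain ⟨k, hk⟩ := IsPGroup.iff_card.mp hH
  have h1 : k ≤ 1 := by
    by_contra hcon
    push Not at hcon
    have h2 : p ^ 2 ≤ p ^ k := Nat.pow_le_pow_right hp.out.pos hcon
    have h3 := hp.out.two_le
    rw [hk] at h
    nlinarith
  interval_cases k
  · have h2 : Nat.card H = 1 := by simpa using hk
    have := (Nat.card_eq_one_iff_unique.mp h2).1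
    exact isCyclic_of_subsingleton
  · have h2 : Nat.card H = p := by simpa using hk
    exact isCyclic_of_prime_card h2

theorem isCyclic_zpowers' {G : Type} [Group G] {H : Subgroup G} {z : G}
    (h : H = Subgroup.zpowers z) : IsCyclic H := by
  rw [h]; infer_instance

/-- in a finite `p`-group a normal subgroup `⟨z⟩` with `z ^ p = 1` is central -/
theorem central_of_normal {p : ℕ} [hp : Fact p.Prime] {G : Type} [Group G] [Finite G]
    (hG : IsPGroup p G) {z : G} (hz : z ^ p = 1) (hn : (Subgroup.zpowers z).Normal) :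
    ∀ g : G, z * g = g * z := by
  by_cases h1 : z = 1
  · intro g; rw [h1, one_mul, mul_one]
  haveI := hn
  obtain ⟨n, hnN, hn1, -, hnc⟩ := exists_central hG (Subgroup.zpowers z) (by
    rw [Ne, Subgroup.zpowers_eq_bot]; exact h1)
  obtain ⟨k, rfl⟩ := hnN
  have hk : ¬ (p : ℤ) ∣ k := by
    rintro ⟨m, rfl⟩
    apply hn1
    show z ^ ((p : ℤ) * m) = 1
    rw [zpow_mul, zpow_natCast, hz, one_zpow]
  have h2 : z ∈ Subgroup.center G := mem_of_zpow_mem hG _ z k hk (mem_cen.mpr hnc)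
  exact mem_cen.mp h2

theorem odd_aux {p : ℕ} [hp : Fact p.Prime] (hp2 : p ≠ 2) : ∀ N : ℕ, ∀ (G : Type) [Group G]
    [Finite G], Nat.card G = N → IsPGroup p G → ∀ x y : G, Subgroup.closure {x, y} = ⊤ →
    FullD G 2 → IsCyclic (commutator G) := by
  intro N
  induction N using Nat.strong_induction_on with
  | _ N ih =>
  intro G _ _ hN hG x y hgen hfull
  by_contra hcyc
  have hne : commutator G ≠ ⊥ := by
    intro h
    apply hcyc
    rw [h]; infer_instance
  -- every nontrivial normal subgroup of the derived subgroup has cyclic quotient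
  have key : ∀ K : Subgroup G, K.Normal → K ≤ commutator G → K ≠ ⊥ →
      ∀ c ∈ commutator G, ∃ i : ℤ, (⁅x, y⁆ ^ i)⁻¹ * c ∈ K := by
    intro K hK hKle hKne c hc
    haveI := hK
    have hKF : K ≤ frattini G := hKle.trans (comm_le_frattini hG)
    have h1 := ih (Nat.card (G ⧸ K)) (hN ▸ card_quot_lt K hKne) (G ⧸ K) rfl (hG.to_quotient K)
      (x : G ⧸ K) (y : G ⧸ K) (gen_quot2 K hgen) (fullD_quot hfull K hKF)
    have h2 := comm_eq_zpowers (gen_quot2 K hgen) h1
    have h3 : (c : G ⧸ K) ∈ commutator (G ⧸ K) := (mem_comm_quot K hKle c).mpr hc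
    rw [h2] at h3
    obtain ⟨i, hi⟩ := h3
    refine ⟨i, ?_⟩
    apply QuotientGroup.eq.mp
    exact hi
  obtain ⟨n, hnc, hn1, hnp, hn⟩ := exists_central hG (commutator G) hne
  have hnk : ∀ (k : ℤ) (q : G), n ^ k * q = q * n ^ k := fun k q => Commute.zpow_left (hn q) k
  set z := ⁅x, y⁆ with hz
  have hzc : z ∈ commutator G := comm_mem x y
  -- elements of the derived subgroup
  have hform : ∀ c ∈ commutator G, ∃ i j : ℤ, c = z ^ i * n ^ j := by
    intro c hc
    obtain ⟨i, hi⟩ := key (Subgroup.zpowers n) (normal_zpowers hn)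
      (by rw [Subgroup.zpowers_le]; exact hnc) (by rw [Ne, Subgroup.zpowers_eq_bot]; exact hn1) c hc
    obtain ⟨j, hj⟩ := hi
    refine ⟨i, j, ?_⟩
    have hj' : n ^ j = (z ^ i)⁻¹ * c := hj
    rw [hj']; group
  -- `z ^ p = 1`
  have hzp : z ^ p = 1 := by
    by_contra hzp
    apply hcyc
    have hKn : (Subgroup.zpowers (z ^ p)).Normal := by
      refine ⟨fun m hm g => ?_⟩
      obtain ⟨l, rfl⟩ := hm
      obtain ⟨i, j, hij⟩ := hform (g * z * g⁻¹) (conj_mem_comm g hzc)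
      refine ⟨i * l, ?_⟩
      show (z ^ p) ^ (i * l) = g * (z ^ p) ^ l * g⁻¹
      have h1 : g * z ^ p * g⁻¹ = (z ^ i) ^ p := by
        rw [← conj_pow, hij, (show Commute (z ^ i) (n ^ j) from (hnk j (z ^ i)).symm).mul_pow,
          ← zpow_natCast (n ^ j), ← zpow_mul, mul_comm, zpow_mul, zpow_natCast, hnp, one_zpow,
          mul_one]
      rw [← conj_zpow, h1, ← zpow_natCast, ← zpow_natCast, ← zpow_mul, ← zpow_mul, ← zpow_mul]
      congr 1; ring
    have h1 : commutator G = Subgroup.zpowers z := by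
      apply le_antisymm
      · intro c hc
        obtain ⟨i, hi⟩ := key _ hKn (by rw [Subgroup.zpowers_le]; exact pow_mem hzc p)
          (by rw [Ne, Subgroup.zpowers_eq_bot]; exact hzp) c hc
        obtain ⟨j, hj⟩ := hi
        have hj' : (z ^ p) ^ j = (z ^ i)⁻¹ * c := hj
        have h2 : c = z ^ i * (z ^ p) ^ j := by rw [hj']; group
        rw [h2]
        exact mul_mem (zpow_mem (Subgroup.mem_zpowers z) _)
          (zpow_mem (pow_mem (Subgroup.mem_zpowers z) _) _)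
      · rw [Subgroup.zpowers_le]; exact hzc
    exact isCyclic_zpowers' h1
  -- `z` is central modulo `n`
  have hact : ∀ g : G, ∃ a : ℤ, g * z * g⁻¹ = n ^ a * z := by
    intro g
    haveI hKn := normal_zpowers hn
    let K := Subgroup.zpowers n
    have hKle : K ≤ commutator G := by rw [Subgroup.zpowers_le]; exact hnc
    have h1 : (Subgroup.zpowers (z : G ⧸ K)).Normal := by
      refine ⟨fun m hm q => ?_⟩
      obtain ⟨l, rfl⟩ := hm
      obtain ⟨q, rfl⟩ := QuotientGroup.mk_surjective q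
      obtain ⟨i, j, hij⟩ := hform (q * z * q⁻¹) (conj_mem_comm q hzc)
      refine ⟨i * l, ?_⟩
      show (z : G ⧸ K) ^ (i * l) = (q : G ⧸ K) * (z : G ⧸ K) ^ l * (q : G ⧸ K)⁻¹
      have h2 : (q : G ⧸ K) * (z : G ⧸ K) * (q : G ⧸ K)⁻¹ = (z : G ⧸ K) ^ i := by
        have h3 : ((q * z * q⁻¹ : G) : G ⧸ K) = ((z ^ i * n ^ j : G) : G ⧸ K) := by rw [hij]
        have h4 : ((n ^ j : G) : G ⧸ K) = 1 :=
          (QuotientGroup.eq_one_iff _).mpr (zpow_mem (Subgroup.mem_zpowers n) j)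
        rw [QuotientGroup.mk_mul _ (z ^ i), h4, mul_one] at h3
        exact h3
      rw [← conj_zpow, h2, ← zpow_mul]
    have h2 := central_of_normal (hG.to_quotient K) (z := (z : G ⧸ K)) (by
      have h3 : ((z ^ p : G) : G ⧸ K) = 1 := by rw [hzp]; rfl
      exact h3) h1 (g : G ⧸ K)
    have h3 : ((z * g : G) : G ⧸ K) = ((g * z : G) : G ⧸ K) := h2
    obtain ⟨a, ha⟩ := QuotientGroup.eq.mp h3
    refine ⟨a, ?_⟩
    have ha' : n ^ a = (z * g)⁻¹ * (g * z) := ha
    have h4 : g * z * g⁻¹ = z * g * n ^ a * g⁻¹ := by rw [ha']; group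
    rw [h4, mul_assoc (z * g), hnk]
    calc z * g * (g⁻¹ * n ^ a) = z * n ^ a := by group
      _ = _ := (hnk a z).symm
  obtain ⟨a, ha⟩ := hact x
  obtain ⟨b, hb⟩ := hact y
  obtain ⟨x', y', hgen', hy', ⟨a', ha'⟩, hz'⟩ := pair_comm hgen hn hnp ha hb
  set z' := ⁅x', y'⁆ with hz'def
  have hz'p : z' ^ p = 1 := by
    rcases hz' with h | h
    · rw [h, hzp]
    · rw [h, inv_pow, hzp, inv_one]
  -- `x' ^ p` commutes with `y'`
  have hxyx : x' * y' * x'⁻¹ = z' * y' := by rw [hz'def, commutatorElement_def]; group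
  have hpow : ∀ m : ℕ, x' ^ m * y' * (x' ^ m)⁻¹ = n ^ (a' * (m.choose 2 : ℤ)) * z' ^ m * y' := by
    have hxz : ∀ m : ℕ, x' * z' ^ m * x'⁻¹ = n ^ (a' * (m : ℤ)) * z' ^ m := by
      intro m
      rw [← conj_pow, ha', (show Commute (n ^ a') z' from hnk a' z').mul_pow, ← zpow_natCast (n ^ a'),
        ← zpow_mul]
    intro m
    induction m with
    | zero => simp
    | succ m ihm =>
      have h1 : x' ^ (m + 1) * y' * (x' ^ (m + 1))⁻¹ = x' * (x' ^ m * y' * (x' ^ m)⁻¹) * x'⁻¹ := by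
        rw [pow_succ']; group
      have h2 : (m + 1).choose 2 = m + m.choose 2 := by
        rw [Nat.choose_succ_succ' m 1, Nat.choose_one_right]
      rw [h1, ihm, h2]
      calc x' * (n ^ (a' * (m.choose 2 : ℤ)) * z' ^ m * y') * x'⁻¹
          = (x' * n ^ (a' * (m.choose 2 : ℤ))) * z' ^ m * y' * x'⁻¹ := by group
        _ = n ^ (a' * (m.choose 2 : ℤ)) * ((x' * z' ^ m * x'⁻¹) * (x' * y' * x'⁻¹)) := by
          rw [← hnk]; group
        _ = n ^ (a' * (m.choose 2 : ℤ)) * (n ^ (a' * (m : ℤ)) * z' ^ m * (z' * y')) := by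
          rw [hxz, hxyx]
        _ = n ^ (a' * ((m + m.choose 2 : ℕ) : ℤ)) * z' ^ (m + 1) * y' := by
          rw [pow_succ]
          have h3 : a' * ((m + m.choose 2 : ℕ) : ℤ) = a' * (m.choose 2 : ℤ) + a' * (m : ℤ) := by
            push_cast; ring
          rw [h3, zpow_add]
          simp only [mul_assoc]
  have hcomm : x' ^ p * y' = y' * x' ^ p := by
    have h1 := hpow p
    have h2 : n ^ (a' * (p.choose 2 : ℤ)) = 1 := by
      obtain ⟨t, ht⟩ := dvd_choose_two hp.out hp2 (dvd_refl p)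
      rw [ht]
      have h3 : a' * ((p * t : ℕ) : ℤ) = (p : ℤ) * (a' * t) := by push_cast; ring
      rw [h3, zpow_mul, zpow_natCast, hnp, one_zpow]
    rw [h2, hz'p, one_mul, one_mul] at h1
    calc x' ^ p * y' = (x' ^ p * y' * (x' ^ p)⁻¹) * x' ^ p := by group
      _ = _ := by rw [h1]
  have hcard := card_le_of_pow hgen' (v := y') (by
    intro c hc
    obtain ⟨i, j, rfl⟩ := hform c hc
    have h1 : Commute z y' := by
      rcases hz' with h | h
      · have h0 : Commute z' y' := hy'.symm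
        rwa [h] at h0
      · have h2 : Commute z' y' := hy'.symm
        rw [h] at h2
        have h3 := h2.inv_left
        rwa [inv_inv] at h3
    exact ((h1.zpow_left i).mul_left (hnk j y')).eq) hp.out.pos hcomm
    (fun c hc => conj_pair hfull hgen' hc)
  exact hcyc (cyclic_of_card_le (hG.to_subgroup _) hcard)

end Pool.Agent.Y36.AC
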