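import Mathlib
import Pool.Agent.Y36.AC.Odd

/-!
Class-preserving automorphisms of finite 2-groups, two generators: the inductive step when the
derived subgroup becomes cyclic modulo a central subgroup of order two.
-/

set_option autoImplicit false

open scoped commutatorElement

namespace Pool.Agent.Y36.AC

open Pool.Agent.Helper832.AutC

/-- `γ₂` cyclic and `[γ₂, G]` inside the fourth powers -/
def L1 (G : Type) [Group G] : Prop :=
  IsCyclic (commutator G) ∧ ∀ c ∈ commutator G, ∀ g : G, ∃ b ∈ commutator G, ⁅c, g⁆ = b ^ 4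

/-- `γ₂` is a four-group -/
def L2 (G : Type) [Group G] : Prop :=
  Nat.card (commutator G) = 4 ∧ ∀ c ∈ commutator G, c ^ 2 = 1

/-- `γ₂` is elementary abelian of order eight and the class is at most three -/
def L3 (G : Type) [Group G] : Prop :=
  Nat.card (commutator G) = 8 ∧ (∀ c ∈ commutator G, c ^ 2 = 1) ∧
    ∀ c ∈ commutator G, ∀ g h : G, ⁅⁅c, g⁆, h⁆ = 1

/-- the list -/
def LL (G : Type) [Group G] : Prop := L1 G ∨ L2 G ∨ L3 G

theorem eq_one_of_zpow_odd {G : Type} [Group G] (hG : IsPGroup 2 G) {a : G} {k : ℤ}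
    (hk : ¬ (2 : ℤ) ∣ k) (h : a ^ k = 1) : a = 1 := by
  have h1 := mem_of_zpow_mem hG ⊥ a k (by exact_mod_cast hk) (by rw [h]; exact one_mem _)
  exact Subgroup.mem_bot.mp h1

theorem zpow_four_mod {G : Type} [Group G] {z : G} (h4 : z ^ 4 = 1) (i : ℤ) :
    z ^ (4 * i) = 1 := by
  rw [zpow_mul]
  have : z ^ (4 : ℤ) = 1 := by exact_mod_cast h4
  rw [this, one_zpow]

section A

variable {G : Type} [Group G] [Finite G]

/-- final step of case (a): `z ^ 4 = 1` and `g z g⁻¹ ∈ n ^ ℤ z` -/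
theorem case_a_final (hfull : FullD G 2) {x y n : G}
    (hgen : Subgroup.closure {x, y} = ⊤) (hn : ∀ g : G, n * g = g * n) (hn2 : n ^ 2 = 1)
    (hform : ∀ c ∈ commutator G, ∃ i j : ℤ, c = ⁅x, y⁆ ^ i * n ^ j)
    (h4 : ⁅x, y⁆ ^ 4 = 1) (hact : ∀ g : G, ∃ j : ℤ, g * ⁅x, y⁆ * g⁻¹ = n ^ j * ⁅x, y⁆) :
    Nat.card (commutator G) ≤ 4 ∧
      (n = ⁅x, y⁆ ^ 2 → (∃ g : G, ⁅x, y⁆ * g ≠ g * ⁅x, y⁆) → Nat.card (commutator G) ≤ 2) := by
  have hnk : ∀ (k : ℤ) (q : G), n ^ k * q = q * n ^ k := fun k q => Commute.zpow_left (hn q) k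
  obtain ⟨a, ha⟩ := hact x
  obtain ⟨b, hb⟩ := hact y
  obtain ⟨x', y', hgen', hy', ⟨a', ha'⟩, hz'⟩ := pair_comm (p := 2) hgen hn hn2 ha hb
  generalize hz : ⁅x, y⁆ = z at *
  set z' := ⁅x', y'⁆ with hz'def
  have hxyx : x' * y' * x'⁻¹ = z' * y' := by rw [hz'def, commutatorElement_def]; group
  have hz'4 : z' ^ 4 = 1 := by
    rcases hz' with h | h
    · rw [h, h4]
    · rw [h, inv_pow, h4, inv_one]
  have hcm : ∀ c ∈ commutator G, c * y' = y' * c := by
    intro c hc
    obtain ⟨i, j, rfl⟩ := hform c hc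
    have h1 : Commute z y' := by
      rcases hz' with h | h
      · have h0 : Commute z' y' := hy'.symm
        rwa [h] at h0
      · have h2 : Commute z' y' := hy'.symm
        rw [h] at h2
        have h3 := h2.inv_left
        rwa [inv_inv] at h3
    exact ((h1.zpow_left i).mul_left (hnk j y')).eq
  have hx2 : x' ^ 2 * y' * (x' ^ 2)⁻¹ = (n ^ a' * z' ^ 2) * y' := by
    calc x' ^ 2 * y' * (x' ^ 2)⁻¹ = x' * (x' * y' * x'⁻¹) * x'⁻¹ := by rw [pow_two]; group
      _ = x' * (z' * y') * x'⁻¹ := by rw [hxyx]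
      _ = (x' * z' * x'⁻¹) * (x' * y' * x'⁻¹) := by group
      _ = _ := by rw [ha', hxyx, pow_two]; simp only [mul_assoc]
  have hn2a : n ^ (a' * 2) = 1 := by
    rw [mul_comm, zpow_mul]
    have : n ^ (2 : ℤ) = 1 := by exact_mod_cast hn2
    rw [this, one_zpow]
  constructor
  · refine card_le_of_pow hgen' (v := y') hcm (by norm_num) ?_
      (fun c hc => conj_pair hfull hgen' hc)
    have hxz2 : x' * z' ^ 2 * x'⁻¹ = z' ^ 2 := by
      rw [← conj_pow, ha', (show Commute (n ^ a') z' from hnk a' z').mul_pow,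
        ← zpow_natCast (n ^ a'), ← zpow_mul]
      have : n ^ (a' * ((2 : ℕ) : ℤ)) = 1 := hn2a
      rw [this, one_mul]
    have hs : x' ^ 2 * (n ^ a' * z' ^ 2) * (x' ^ 2)⁻¹ = n ^ a' * z' ^ 2 := by
      calc x' ^ 2 * (n ^ a' * z' ^ 2) * (x' ^ 2)⁻¹
          = (x' ^ 2 * n ^ a') * z' ^ 2 * (x' ^ 2)⁻¹ := by group
        _ = n ^ a' * (x' * (x' * z' ^ 2 * x'⁻¹) * x'⁻¹) := by rw [← hnk, pow_two x']; group
        _ = _ := by rw [hxz2, hxz2]
    have h1 : x' ^ 4 * y' * (x' ^ 4)⁻¹ = y' := by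
      calc x' ^ 4 * y' * (x' ^ 4)⁻¹ = x' ^ 2 * (x' ^ 2 * y' * (x' ^ 2)⁻¹) * (x' ^ 2)⁻¹ := by
            rw [show x' ^ 4 = x' ^ 2 * x' ^ 2 by rw [← pow_add]]
            simp only [mul_inv_rev, mul_assoc]
        _ = x' ^ 2 * ((n ^ a' * z' ^ 2) * y') * (x' ^ 2)⁻¹ := by rw [hx2]
        _ = (x' ^ 2 * (n ^ a' * z' ^ 2) * (x' ^ 2)⁻¹) * (x' ^ 2 * y' * (x' ^ 2)⁻¹) := by group
        _ = ((n ^ a' * z' ^ 2) * (n ^ a' * z' ^ 2)) * y' := by rw [hs, hx2]; simp only [mul_assoc]
        _ = (n ^ (a' * 2) * z' ^ 4) * y' := by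
          congr 1
          calc n ^ a' * z' ^ 2 * (n ^ a' * z' ^ 2) = n ^ a' * (z' ^ 2 * n ^ a') * z' ^ 2 := by group
            _ = n ^ a' * (n ^ a' * z' ^ 2) * z' ^ 2 := by rw [← hnk a' (z' ^ 2)]
            _ = (n ^ a' * n ^ a') * (z' ^ 2 * z' ^ 2) := by simp only [mul_assoc]
            _ = _ := by rw [← zpow_add, ← pow_add, mul_two]
        _ = y' := by rw [hn2a, hz'4, one_mul, one_mul]
    calc x' ^ 4 * y' = (x' ^ 4 * y' * (x' ^ 4)⁻¹) * x' ^ 4 := by group
      _ = _ := by rw [h1]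
  · rintro hnz ⟨g, hg⟩
    refine card_le_of_pow hgen' (v := y') hcm (by norm_num) ?_
      (fun c hc => conj_pair hfull hgen' hc)
    -- `n ^ a' = n`
    have hna : n ^ a' = n := by
      rcases zpowers_two hn2 (⟨a', rfl⟩ : n ^ a' ∈ Subgroup.zpowers n) with h | h
      · exfalso
        rw [h, one_mul] at ha'
        have h1 : x' * z' = z' * x' := by
          calc x' * z' = (x' * z' * x'⁻¹) * x' := by group
            _ = _ := by rw [ha']
        have h2 := central_of_gen hgen' h1 hy'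
        apply hg
        rcases hz' with h3 | h3
        · rw [← h3]; exact h2 g
        · have h4 : Commute z⁻¹ g := by rw [← h3]; exact h2 g
          have h5 := h4.inv_left
          rw [inv_inv] at h5
          exact h5.eq
      · exact h
    have hz2 : z' ^ 2 = n := by
      rcases hz' with h3 | h3
      · rw [h3, hnz]
      · rw [h3, inv_pow, ← hnz]
        rw [inv_eq_iff_mul_eq_one, ← pow_two, hn2]
    have h1 : x' ^ 2 * y' * (x' ^ 2)⁻¹ = y' := by
      rw [hx2, hna, hz2, ← pow_two, hn2, one_mul]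
    calc x' ^ 2 * y' = (x' ^ 2 * y' * (x' ^ 2)⁻¹) * x' ^ 2 := by group
      _ = _ := by rw [h1]

theorem L1_of_central {x y : G} (hcz : commutator G = Subgroup.zpowers ⁅x, y⁆)
    (h : ∀ g : G, ⁅x, y⁆ * g = g * ⁅x, y⁆) : L1 G := by
  refine ⟨isCyclic_zpowers' hcz, fun c hc g => ⟨1, one_mem _, ?_⟩⟩
  rw [one_pow, commutatorElement_eq_one_iff_mul_comm]
  rw [hcz] at hc
  obtain ⟨i, rfl⟩ := hc
  exact (Commute.zpow_left (h g) i).eq

theorem case_a (hG : IsPGroup 2 G) (hfull : FullD G 2) {x y n : G}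
    (hgen : Subgroup.closure {x, y} = ⊤) (hn : ∀ g : G, n * g = g * n) (hn2 : n ^ 2 = 1)
    (hn1 : n ≠ 1) (hnc : n ∈ commutator G) (K : Subgroup G) [hK : K.Normal]
    (hKn : K = Subgroup.zpowers n) (h : L1 (G ⧸ K))
    (hind : ∀ (M : Subgroup G) [M.Normal], M ≤ commutator G → M ≠ ⊥ → LL (G ⧸ M)) : LL G := by
  classical
  by_contra hLL
  have hnk : ∀ (k : ℤ) (q : G), n ^ k * q = q * n ^ k := fun k q => Commute.zpow_left (hn q) k
  have hKle : K ≤ commutator G := by rw [hKn, Subgroup.zpowers_le]; exact hnc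
  obtain ⟨hcyc, h4⟩ := h
  have hcz := comm_eq_zpowers (gen_quot2 K hgen) hcyc
  have hzdef : (⁅(x : G ⧸ K), (y : G ⧸ K)⁆) = ((⁅x, y⁆ : G) : G ⧸ K) := rfl
  rw [hzdef] at hcz
  have hzc : ⁅x, y⁆ ∈ commutator G := comm_mem x y
  generalize hz : ⁅x, y⁆ = z at *
  have hform : ∀ c ∈ commutator G, ∃ i j : ℤ, c = z ^ i * n ^ j := by
    intro c hc
    have h3 : (c : G ⧸ K) ∈ commutator (G ⧸ K) := (mem_comm_quot K hKle c).mpr hc
    rw [hcz] at h3
    obtain ⟨i, hi⟩ := h3
    have hi' : ((z ^ i : G) : G ⧸ K) = (c : G ⧸ K) := hi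
    have h5 := QuotientGroup.eq.mp hi'
    rw [hKn] at h5
    obtain ⟨j, hj⟩ := h5
    refine ⟨i, j, ?_⟩
    have hj' : n ^ j = (z ^ i)⁻¹ * c := hj
    rw [hj']; group
  have hn4 : ∀ j : ℤ, (n ^ j) ^ 4 = 1 := by
    intro j
    rw [← zpow_natCast, ← zpow_mul, mul_comm, zpow_mul]
    have : n ^ ((4 : ℕ) : ℤ) = 1 := by
      rw [zpow_natCast, show 4 = 2 * 2 by norm_num, pow_mul, hn2, one_pow]
    rw [this, one_zpow]
  have hact : ∀ g : G, ∃ t j : ℤ, g * z * g⁻¹ = z ^ (1 + 4 * t) * n ^ j := by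
    intro g
    obtain ⟨b, hb, hbz⟩ := h4 (z : G ⧸ K) ((mem_comm_quot K hKle z).mpr hzc) (g : G ⧸ K)
    obtain ⟨b, rfl⟩ := QuotientGroup.mk_surjective b
    rw [mem_comm_quot K hKle] at hb
    obtain ⟨i, j, rfl⟩ := hform b hb
    have h5 : ((⁅z, g⁆ : G) : G ⧸ K) = (((z ^ i * n ^ j) ^ 4 : G) : G ⧸ K) := hbz
    have h6 := QuotientGroup.eq.mp h5.symm
    rw [hKn] at h6
    obtain ⟨l, hl⟩ := h6
    have hl' : n ^ l = ((z ^ i * n ^ j) ^ 4)⁻¹ * ⁅z, g⁆ := hl
    have h7 : (z ^ i * n ^ j) ^ 4 = z ^ (4 * i) := by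
      rw [(show Commute (z ^ i) (n ^ j) from (hnk j (z ^ i)).symm).mul_pow, hn4, mul_one,
        ← zpow_natCast, ← zpow_mul]
      congr 1; push_cast; ring
    rw [h7] at hl'
    have h8 : ⁅z, g⁆ = z ^ (4 * i) * n ^ l := by rw [hl']; group
    refine ⟨-i, -l, ?_⟩
    have h9 : g * z * g⁻¹ = ⁅z, g⁆⁻¹ * z := by rw [commutatorElement_def]; group
    rw [h9, h8, mul_inv_rev, ← zpow_neg, ← zpow_neg, mul_assoc, ← zpow_add_one, hnk]
    congr 2; ring
  by_cases hnz : n ∈ Subgroup.zpowers z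
  · -- `γ₂` cyclic
    have hcz' : commutator G = Subgroup.zpowers z := by
      apply le_antisymm
      · intro c hc
        obtain ⟨i, j, rfl⟩ := hform c hc
        exact mul_mem (zpow_mem (Subgroup.mem_zpowers z) _) (zpow_mem hnz _)
      · rw [Subgroup.zpowers_le]; exact hzc
    have hnormal : (Subgroup.zpowers z).Normal := by rw [← hcz']; infer_instance
    have hcent : ¬ ∀ g : G, z * g = g * z := by
      intro hc
      apply hLL
      left
      exact L1_of_central (x := x) (y := y) (by rw [hz]; exact hcz') (by rw [hz]; exact hc)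
    obtain ⟨k, hk⟩ := hnz
    have hk' : z ^ k = n := hk
    have hk4 : ¬ (4 : ℤ) ∣ k := by
      rintro ⟨s, rfl⟩
      apply hLL
      left
      refine ⟨isCyclic_zpowers' hcz', fun c hc g => ?_⟩
      obtain ⟨t, j, htj⟩ := hact g
      have hc' := hc
      rw [hcz'] at hc'
      obtain ⟨i, rfl⟩ := hc'
      refine ⟨z ^ (-(i * (t + s * j))), zpow_mem hzc _, ?_⟩
      have h1 : g * z * g⁻¹ = z ^ (1 + 4 * (t + s * j)) := by
        rw [htj, ← hk', ← zpow_mul, ← zpow_add]; congr 1; ring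
      have h2 : ⁅z ^ i, g⁆ = z ^ i * (g * z * g⁻¹) ^ (-i) := by
        rw [conj_zpow, commutatorElement_def, zpow_neg]; group
      show ⁅z ^ i, g⁆ = _
      rw [h2, h1, ← zpow_mul, ← zpow_add, ← zpow_natCast, ← zpow_mul]
      congr 1; push_cast; ring
    have hk2 : (2 : ℤ) ∣ k := by
      by_contra hodd
      apply hcent
      have h1 : (z ^ 2) ^ k = 1 := by
        rw [← zpow_natCast, ← zpow_mul, mul_comm, zpow_mul, hk']
        exact_mod_cast hn2
      have h2 : z ^ 2 = 1 := eq_one_of_zpow_odd hG hodd h1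
      exact central_of_normal hG h2 hnormal
    obtain ⟨s, rfl⟩ := hk2
    have hs : ¬ (2 : ℤ) ∣ s := by
      rintro ⟨r, rfl⟩
      exact hk4 ⟨r, by ring⟩
    have hz4 : z ^ 4 = 1 := by
      have h1 : (z ^ 4) ^ s = 1 := by
        rw [← zpow_natCast, ← zpow_mul]
        have : ((4 : ℕ) : ℤ) * s = (2 * s) * 2 := by push_cast; ring
        rw [this, zpow_mul, hk']
        exact_mod_cast hn2
      exact eq_one_of_zpow_odd hG hs h1
    have hnz2 : n = z ^ 2 := by
      obtain ⟨r, rfl | rfl⟩ := Int.even_or_odd' s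
      · exact absurd ⟨r, rfl⟩ hs
      · rw [← hk']
        have : (2 * (2 * r + 1) : ℤ) = 2 + 4 * r := by ring
        rw [this, zpow_add, zpow_four_mod hz4, mul_one]
        norm_cast
    have hact' : ∀ g : G, ∃ j : ℤ, g * z * g⁻¹ = n ^ j * z := by
      intro g
      obtain ⟨t, j, h1⟩ := hact g
      refine ⟨j, ?_⟩
      rw [h1, zpow_add, zpow_four_mod hz4, mul_one, zpow_one, hnk]
    have h5 := (case_a_final hfull hgen hn hn2 (by rw [hz]; exact hform) (by rw [hz]; exact hz4)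
      (by rw [hz]; exact hact')).2 (by rw [hz]; exact hnz2) (by
        rw [hz]; push Not at hcent; exact hcent)
    have h6 : z ^ Nat.card (commutator G) = 1 := by
      have h7 : (⟨z, hzc⟩ : commutator G) ^ Nat.card (commutator G) = 1 := pow_card_eq_one'
      exact congrArg Subtype.val h7
    have h7 : 0 < Nat.card (commutator G) := Nat.card_pos
    have h8 : z ^ 2 = 1 := by
      have h9 : Nat.card (commutator G) = 1 ∨ Nat.card (commutator G) = 2 := by omega
      rcases h9 with h9 | h9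
      · rw [h9, pow_one] at h6
        rw [h6, one_pow]
      · rwa [h9] at h6
    exact hn1 (by rw [hnz2, h8])
  · -- `n ∉ ⟨z⟩`
    have hlt : ∀ m : ℕ, Nat.card (commutator G) ≤ m → orderOf z < m := by
      intro m hm
      by_contra hcon
      push Not at hcon
      apply hnz
      have h1 : Subgroup.zpowers z = commutator G :=
        Subgroup.eq_of_le_of_card_ge (by rw [Subgroup.zpowers_le]; exact hzc)
          (by rw [Nat.card_zpowers]; omega)
      rw [h1]; exact hnc
    by_cases hz2 : z ^ 2 = 1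
    · apply hLL
      right; left
      have hz1 : z ≠ 1 := by
        intro h1
        have h2 := comm_le_of_gen hgen ⊥ (by rw [hz, h1]; exact one_mem _)
        exact hn1 (Subgroup.mem_bot.mp (h2 hnc))
      have hzz : ∀ i : ℤ, z ^ i = 1 ∨ z ^ i = z := fun i => zpowers_two hz2 ⟨i, rfl⟩
      have hnn : ∀ i : ℤ, n ^ i = 1 ∨ n ^ i = n := fun i => zpowers_two hn2 ⟨i, rfl⟩
      have hexp : ∀ c ∈ commutator G, c ^ 2 = 1 := by
        intro c hc
        obtain ⟨i, j, rfl⟩ := hform c hc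
        rw [(show Commute (z ^ i) (n ^ j) from (hnk j (z ^ i)).symm).mul_pow]
        rcases hzz i with h | h <;> rcases hnn j with h' | h' <;> rw [h, h'] <;>
          simp [hz2, hn2]
      refine ⟨?_, hexp⟩
      have h1 : Nat.card (commutator G) ≤ 4 := by
        let f : Fin 2 × Fin 2 → commutator G := fun q =>
          ⟨z ^ (q.1 : ℕ) * n ^ (q.2 : ℕ), mul_mem (pow_mem hzc _) (pow_mem hnc _)⟩
        have hf : Function.Surjective f := by
          rintro ⟨c, hc⟩
          obtain ⟨i, j, rfl⟩ := hform c hc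
          rcases hzz i with h | h <;> rcases hnn j with h' | h'
          · exact ⟨(0, 0), Subtype.ext (by simp [f, h, h'])⟩
          · exact ⟨(0, 1), Subtype.ext (by simp [f, h, h'])⟩
          · exact ⟨(1, 0), Subtype.ext (by simp [f, h, h'])⟩
          · exact ⟨(1, 1), Subtype.ext (by simp [f, h, h'])⟩
        have h2 := Nat.card_le_card_of_surjective f hf
        simpa using h2
      have h2 : orderOf z = 2 := orderOf_eq_prime hz2 hz1
      have h3 : 2 < Nat.card (commutator G) := by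
        by_contra hcon
        push Not at hcon
        have := hlt 2 hcon
        omega
      have h4 : 2 ∣ Nat.card (commutator G) := by
        rcases (hG.to_subgroup (commutator G)).card_eq_or_dvd with h5 | h5
        · omega
        · exact h5
      omega
    · by_cases hz4 : z ^ 4 = 1
      · have hact' : ∀ g : G, ∃ j : ℤ, g * z * g⁻¹ = n ^ j * z := by
          intro g
          obtain ⟨t, j, h1⟩ := hact g
          refine ⟨j, ?_⟩
          rw [h1, zpow_add, zpow_four_mod hz4, mul_one, zpow_one, hnk]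
        have h5 := (case_a_final hfull hgen hn hn2 (by rw [hz]; exact hform)
          (by rw [hz]; exact hz4) (by rw [hz]; exact hact')).1
        have h6 : orderOf z = 2 ^ 2 := orderOf_eq_prime_pow (p := 2) (n := 1)
          (by rw [pow_one]; exact hz2) (by norm_num; exact hz4)
        have := hlt 4 h5
        omega
      · have hMn : (Subgroup.zpowers (z ^ 4)).Normal := by
          refine ⟨fun m hm g => ?_⟩
          obtain ⟨l, rfl⟩ := hm
          obtain ⟨t, j, hij⟩ := hact g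
          refine ⟨(1 + 4 * t) * l, ?_⟩
          show (z ^ 4) ^ ((1 + 4 * t) * l) = g * (z ^ 4) ^ l * g⁻¹
          have h1 : g * z ^ 4 * g⁻¹ = (z ^ (1 + 4 * t)) ^ 4 := by
            rw [← conj_pow, hij,
              (show Commute (z ^ (1 + 4 * t)) (n ^ j) from (hnk j _).symm).mul_pow, hn4, mul_one]
          rw [← conj_zpow, h1, ← zpow_natCast, ← zpow_natCast, ← zpow_mul, ← zpow_mul, ← zpow_mul]
          congr 1; ring
        haveI := hMn
        have hMle : Subgroup.zpowers (z ^ 4) ≤ commutator G := by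
          rw [Subgroup.zpowers_le]; exact pow_mem hzc _
        have h5 := hind (Subgroup.zpowers (z ^ 4)) hMle
          (by rw [Ne, Subgroup.zpowers_eq_bot]; exact hz4)
        have hsq : (∀ c ∈ commutator (G ⧸ Subgroup.zpowers (z ^ 4)), c ^ 2 = 1) → False := by
          intro h6
          have h7 := h6 (z : G ⧸ Subgroup.zpowers (z ^ 4)) ((mem_comm_quot _ hMle z).mpr hzc)
          have h8 : ((z ^ 2 : G) : G ⧸ Subgroup.zpowers (z ^ 4)) = 1 := h7
          obtain ⟨i, hi⟩ := (QuotientGroup.eq_one_iff _).mp h8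
          have hi' : (z ^ 4) ^ i = z ^ 2 := hi
          apply hz2
          have h9 : (z ^ 2) ^ (2 * i - 1) = 1 := by
            rw [zpow_sub_one, zpow_mul, ← zpow_natCast, ← zpow_mul, ← zpow_mul]
            have h10 : z ^ (((2 : ℕ) : ℤ) * (2 * i)) = z ^ 2 := by
              rw [← hi', ← zpow_natCast, ← zpow_mul]; congr 1; push_cast; ring
            rw [h10]
            simp
          exact eq_one_of_zpow_odd hG (by omega) h9
        rcases h5 with h5 | h5 | h5
        · apply hnz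
          have h6 := comm_eq_zpowers (gen_quot2 (Subgroup.zpowers (z ^ 4)) hgen) h5.1
          have h7 : (n : G ⧸ Subgroup.zpowers (z ^ 4)) ∈ commutator (G ⧸ Subgroup.zpowers (z ^ 4)) :=
            (mem_comm_quot _ hMle n).mpr hnc
          rw [h6] at h7
          obtain ⟨i, hi⟩ := h7
          have hi' : ((⁅x, y⁆ ^ i : G) : G ⧸ Subgroup.zpowers (z ^ 4)) = (n : G ⧸ _) := hi
          rw [hz] at hi'
          obtain ⟨j, hj⟩ := QuotientGroup.eq.mp hi'
          have hj' : (z ^ 4) ^ j = (z ^ i)⁻¹ * n := hj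
          have h8 : n = z ^ i * (z ^ 4) ^ j := by rw [hj']; group
          rw [h8]
          exact mul_mem (zpow_mem (Subgroup.mem_zpowers z) _)
            (zpow_mem (pow_mem (Subgroup.mem_zpowers z) _) _)
        · exact hsq h5.2
        · exact hsq h5.2.1

end A

end Pool.Agent.Y36.AC
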