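import Mathlib
import Pool.Agent.Y36.AC.TwoA

/-!
Class-preserving automorphisms of finite 2-groups, two generators: the inductive step when the
derived subgroup becomes a four-group modulo a central subgroup of order two.
-/

set_option autoImplicit false

open scoped commutatorElement

namespace Pool.Agent.Y36.AC

open Pool.Agent.Helper832.AutC

section B

variable {G : Type} [Group G]

/-- if conjugation only multiplies `u` by powers of a central element, then the derived subgroup
centralises `u` -/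
theorem comm_fix {n u : G} (hn : ∀ g : G, n * g = g * n)
    (h : ∀ g : G, ∃ i : ℤ, g * u * g⁻¹ = n ^ i * u) : ∀ c ∈ commutator G, c * u = u * c := by
  have hnk : ∀ (k : ℤ) (q : G), n ^ k * q = q * n ^ k := fun k q => Commute.zpow_left (hn q) k
  have h1 : commutator G ≤ Subgroup.centralizer {u} := by
    rw [commutator_def, Subgroup.commutator_le]
    intro a _ b _
    rw [Subgroup.mem_centralizer_iff]
    intro q hq
    rw [Set.mem_singleton_iff.mp hq]
    obtain ⟨i, hi⟩ := h a
    obtain ⟨j, hj⟩ := h b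
    have e1 : (a * b) * u * (a * b)⁻¹ = n ^ (i + j) * u := by
      calc (a * b) * u * (a * b)⁻¹ = a * (b * u * b⁻¹) * a⁻¹ := by group
        _ = (a * n ^ j) * u * a⁻¹ := by rw [hj]; group
        _ = n ^ j * (a * u * a⁻¹) := by rw [← hnk]; group
        _ = _ := by rw [hi, ← mul_assoc, ← zpow_add, add_comm]
    have e2 : (b * a) * u * (b * a)⁻¹ = n ^ (i + j) * u := by
      calc (b * a) * u * (b * a)⁻¹ = b * (a * u * a⁻¹) * b⁻¹ := by group
        _ = (b * n ^ i) * u * b⁻¹ := by rw [hi]; group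
        _ = n ^ i * (b * u * b⁻¹) := by rw [← hnk]; group
        _ = _ := by rw [hj, ← mul_assoc, ← zpow_add]
    have e3 : u = (b * a)⁻¹ * (n ^ (i + j) * u) * (b * a) := by rw [← e2]; group
    have e4 : ⁅a, b⁆ * u * ⁅a, b⁆⁻¹ = u := by
      have e5 : ⁅a, b⁆ = (a * b) * (b * a)⁻¹ := by rw [commutatorElement_def]; group
      have e6 : (b * a)⁻¹ * u * (b * a) = (n ^ (i + j))⁻¹ * u := by
        have e7 : (b * a)⁻¹ * (n ^ (i + j) * u) * (b * a)
            = n ^ (i + j) * ((b * a)⁻¹ * u * (b * a)) := by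
          calc (b * a)⁻¹ * (n ^ (i + j) * u) * (b * a)
              = ((b * a)⁻¹ * n ^ (i + j)) * u * (b * a) := by group
            _ = _ := by rw [← hnk]; group
        rw [e7] at e3
        rw [eq_inv_mul_iff_mul_eq]
        exact e3.symm
      calc ⁅a, b⁆ * u * ⁅a, b⁆⁻¹ = (a * b) * ((b * a)⁻¹ * u * (b * a)) * (a * b)⁻¹ := by
            rw [e5]; group
        _ = (a * b) * ((n ^ (i + j))⁻¹ * u) * (a * b)⁻¹ := by rw [e6]
        _ = (a * b * n ^ (-(i + j))) * u * (a * b)⁻¹ := by rw [← zpow_neg]; simp only [mul_assoc]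
        _ = n ^ (-(i + j)) * ((a * b) * u * (a * b)⁻¹) := by
          rw [← hnk]; simp only [mul_assoc]
        _ = _ := by rw [e1, zpow_neg]; group
    calc u * ⁅a, b⁆ = (⁅a, b⁆ * u * ⁅a, b⁆⁻¹) * ⁅a, b⁆ := by rw [e4]
      _ = _ := by group
  intro c hc
  exact (Subgroup.mem_centralizer_iff.mp (h1 hc) u rfl).symm

theorem b_final [Finite G] (hfull : FullD G 2) {x v s : G}
    (hgen : Subgroup.closure {x, v} = ⊤) (hv : ∀ c ∈ commutator G, c * v = v * c)
    (h1 : x * ⁅x, v⁆ * x⁻¹ * ⁅x, v⁆ = s) (hs : s * s = 1)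
    (hxs : x ^ 2 * s * (x ^ 2)⁻¹ = s) : Nat.card (commutator G) ≤ 4 := by
  refine card_le_of_pow hgen (v := v) hv (by norm_num) ?_ (fun c hc => conj_pair hfull hgen hc)
  have hxvx : x * v * x⁻¹ = ⁅x, v⁆ * v := by rw [commutatorElement_def]; group
  have h2 : x ^ 2 * v * (x ^ 2)⁻¹ = s * v := by
    calc x ^ 2 * v * (x ^ 2)⁻¹ = x * (x * v * x⁻¹) * x⁻¹ := by rw [pow_two]; group
      _ = x * (⁅x, v⁆ * v) * x⁻¹ := by rw [hxvx]
      _ = (x * ⁅x, v⁆ * x⁻¹) * (x * v * x⁻¹) := by generalize ⁅x, v⁆ = z; group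
      _ = (x * ⁅x, v⁆ * x⁻¹ * ⁅x, v⁆) * v := by rw [hxvx]; simp only [mul_assoc]
      _ = _ := by rw [h1]
  have h3 : x ^ 4 * v * (x ^ 4)⁻¹ = v := by
    calc x ^ 4 * v * (x ^ 4)⁻¹ = x ^ 2 * (x ^ 2 * v * (x ^ 2)⁻¹) * (x ^ 2)⁻¹ := by
          rw [show x ^ 4 = x ^ 2 * x ^ 2 by rw [← pow_add]]
          simp only [mul_inv_rev, mul_assoc]
      _ = x ^ 2 * (s * v) * (x ^ 2)⁻¹ := by rw [h2]
      _ = (x ^ 2 * s * (x ^ 2)⁻¹) * (x ^ 2 * v * (x ^ 2)⁻¹) := by group
      _ = (s * s) * v := by rw [hxs, h2]; simp only [mul_assoc]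
      _ = v := by rw [hs, one_mul]
  calc x ^ 4 * v = (x ^ 4 * v * (x ^ 4)⁻¹) * x ^ 4 := by group
    _ = _ := by rw [h3]

/-- four distinct elements of a subgroup of order four -/
theorem mem_four [Finite G] {H : Subgroup G} (h4 : Nat.card H = 4) {n z : G} (hn : n ∈ H)
    (hz : z ∈ H) (hn1 : n ≠ 1) (hz1 : z ≠ 1) (hzn : z ≠ n) (hn2 : n ^ 2 = 1) :
    ∀ c ∈ H, c = 1 ∨ c = z ∨ c = n ∨ c = n * z := by
  classical
  let S : Finset H := {1, ⟨z, hz⟩, ⟨n, hn⟩, ⟨n * z, mul_mem hn hz⟩}
  have hnz : n * z ≠ 1 := by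
    intro h
    apply hzn
    have h1 : z = n⁻¹ := (inv_eq_of_mul_eq_one_right h).symm
    rw [h1, inv_eq_iff_mul_eq_one, ← pow_two, hn2]
  have hS : S.card = 4 := by
    have a1 : (1 : H) ∉ ({⟨z, hz⟩, ⟨n, hn⟩, ⟨n * z, mul_mem hn hz⟩} : Finset H) := by
      simp only [Finset.mem_insert, Finset.mem_singleton, not_or]
      refine ⟨fun h => hz1 (congrArg Subtype.val h).symm, fun h => hn1 (congrArg Subtype.val h).symm,
        fun h => hnz (congrArg Subtype.val h).symm⟩
    have a2 : (⟨z, hz⟩ : H) ∉ ({⟨n, hn⟩, ⟨n * z, mul_mem hn hz⟩} : Finset H) := by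
      simp only [Finset.mem_insert, Finset.mem_singleton, not_or]
      refine ⟨fun h => hzn (congrArg Subtype.val h), fun h => ?_⟩
      have h1 : z = n * z := congrArg Subtype.val h
      exact hn1 (right_eq_mul.mp h1)
    have a3 : (⟨n, hn⟩ : H) ∉ ({⟨n * z, mul_mem hn hz⟩} : Finset H) := by
      simp only [Finset.mem_singleton]
      intro h
      have h1 : n = n * z := congrArg Subtype.val h
      exact hz1 (left_eq_mul.mp h1)
    rw [Finset.card_insert_of_notMem a1, Finset.card_insert_of_notMem a2,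
      Finset.card_insert_of_notMem a3, Finset.card_singleton]
  haveI : Fintype H := Fintype.ofFinite H
  have huniv : S = Finset.univ := by
    apply Finset.eq_univ_of_card
    rw [hS, ← Nat.card_eq_fintype_card, h4]
  intro c hc
  have h1 : (⟨c, hc⟩ : H) ∈ S := by rw [huniv]; exact Finset.mem_univ _
  simp only [S, Finset.mem_insert, Finset.mem_singleton] at h1
  rcases h1 with h | h | h | h
  · exact Or.inl (congrArg Subtype.val h)
  · exact Or.inr (Or.inl (congrArg Subtype.val h))
  · exact Or.inr (Or.inr (Or.inl (congrArg Subtype.val h)))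
  · exact Or.inr (Or.inr (Or.inr (congrArg Subtype.val h)))

theorem card_le_of_central [Finite G] {x y : G} (hgen : Subgroup.closure {x, y} = ⊤)
    (hc : ∀ g : G, ⁅x, y⁆ * g = g * ⁅x, y⁆) (h2 : ⁅x, y⁆ ^ 2 = 1) :
    Nat.card (commutator G) ≤ 2 := by
  haveI := normal_zpowers hc
  have h3 : commutator G ≤ Subgroup.zpowers ⁅x, y⁆ :=
    comm_le_of_gen hgen _ (Subgroup.mem_zpowers _)
  have h4 := Subgroup.card_le_of_le h3
  rw [Nat.card_zpowers] at h4
  have h5 : orderOf ⁅x, y⁆ ≤ 2 := orderOf_le_of_pow_eq_one (by norm_num) h2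
  omega

theorem v4_struct [Finite G] (hG : IsPGroup 2 G) {x y : G} (hgen : Subgroup.closure {x, y} = ⊤)
    (h : L2 G) : ∃ x' y' u : G, Subgroup.closure {x', y'} = ⊤ ∧
      y' * ⁅x', y'⁆ = ⁅x', y'⁆ * y' ∧ x' * ⁅x', y'⁆ * x'⁻¹ = u * ⁅x', y'⁆ ∧
      u ∈ commutator G ∧ u ≠ 1 ∧ (∀ g : G, u * g = g * u) ∧
      ∀ c ∈ commutator G, c = 1 ∨ c = ⁅x', y'⁆ ∨ c = u ∨ c = u * ⁅x', y'⁆ := by
  obtain ⟨hcard, hexp⟩ := h
  have hne : commutator G ≠ ⊥ := by
    intro h1
    rw [h1, Subgroup.card_bot] at hcard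
    omega
  obtain ⟨n, hnc, hn1, hn2, hn⟩ := exists_central hG (commutator G) hne
  have hzc : ⁅x, y⁆ ∈ commutator G := comm_mem x y
  have hz2 : ⁅x, y⁆ ^ 2 = 1 := hexp _ hzc
  have hz1 : ⁅x, y⁆ ≠ 1 := by
    intro h1
    have h2 := card_le_of_central hgen (by intro g; rw [h1, one_mul, mul_one]) hz2
    omega
  have hzn : ⁅x, y⁆ ≠ n := by
    intro h1
    have h2 := card_le_of_central hgen (by intro g; rw [h1]; exact hn g) hz2
    omega
  have hmem := mem_four hcard hnc hzc hn1 hz1 hzn hn2
  have hact : ∀ g : G, ∃ a : ℤ, g * ⁅x, y⁆ * g⁻¹ = n ^ a * ⁅x, y⁆ := by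
    intro g
    generalize ⁅x, y⁆ = z at *
    have h1 := hmem _ (conj_mem_comm g hzc)
    rcases h1 with h1 | h1 | h1 | h1
    · exfalso; apply hz1
      have h2 : z = g⁻¹ * (g * z * g⁻¹) * g := by group
      rw [h2, h1]; group
    · exact ⟨0, by rw [h1, zpow_zero, one_mul]⟩
    · exfalso; apply hzn
      have h2 : z = g⁻¹ * (g * z * g⁻¹) * g := by group
      rw [h2, h1, mul_assoc, hn g]; group
    · exact ⟨1, by rw [h1, zpow_one]⟩
  obtain ⟨a, ha⟩ := hact x
  obtain ⟨b, hb⟩ := hact y
  obtain ⟨x', y', hgen', hy', ⟨a', ha'⟩, hz'⟩ := pair_comm (p := 2) hgen hn hn2 ha hb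
  have hzz : ⁅x', y'⁆ = ⁅x, y⁆ := by
    rcases hz' with h | h
    · exact h
    · rw [h]
      rw [inv_eq_iff_mul_eq_one, ← pow_two, hz2]
  have hna : n ^ a' = n := by
    rcases zpowers_two hn2 (⟨a', rfl⟩ : n ^ a' ∈ Subgroup.zpowers n) with h1 | h1
    · exfalso
      rw [h1, one_mul] at ha'
      have h3 : x' * ⁅x', y'⁆ = ⁅x', y'⁆ * x' := by
        calc x' * ⁅x', y'⁆ = (x' * ⁅x', y'⁆ * x'⁻¹) * x' := by generalize ⁅x', y'⁆ = z; group
          _ = _ := by rw [ha']
      have h2 := card_le_of_central hgen' (central_of_gen hgen' h3 hy') (by rw [hzz]; exact hz2)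
      omega
    · exact h1
  refine ⟨x', y', n, hgen', hy', by rw [ha', hna], hnc, hn1, hn, ?_⟩
  rw [hzz]
  exact hmem

theorem case_b [Finite G] (hG : IsPGroup 2 G) (hfull : FullD G 2) {x₀ y₀ n : G}
    (hgen₀ : Subgroup.closure {x₀, y₀} = ⊤) (hn : ∀ g : G, n * g = g * n) (hn2 : n ^ 2 = 1)
    (hn1 : n ≠ 1) (hnc : n ∈ commutator G) (K : Subgroup G) [hK : K.Normal]
    (hKn : K = Subgroup.zpowers n) (h : L2 (G ⧸ K))
    (hind : ∀ (M : Subgroup G) [M.Normal], M ≤ commutator G → M ≠ ⊥ → LL (G ⧸ M)) : LL G := by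
  classical
  by_contra hLL
  have hnk : ∀ (k : ℤ) (q : G), n ^ k * q = q * n ^ k := fun k q => Commute.zpow_left (hn q) k
  have hKle : K ≤ commutator G := by rw [hKn, Subgroup.zpowers_le]; exact hnc
  have hKF : K ≤ frattini G := hKle.trans (comm_le_frattini hG)
  have hcard : Nat.card (commutator G) = 8 := by
    rw [card_comm_quot K hKle, h.1, hKn, Nat.card_zpowers, orderOf_eq_prime hn2 hn1]
  have hsq : ∀ c ∈ commutator G, c ^ 2 = 1 ∨ c ^ 2 = n := by
    intro c hc
    have h1 := h.2 (c : G ⧸ K) ((mem_comm_quot K hKle c).mpr hc)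
    have h2 : ((c ^ 2 : G) : G ⧸ K) = 1 := h1
    have h3 := (QuotientGroup.eq_one_iff _).mp h2
    rw [hKn] at h3
    exact zpowers_two hn2 h3
  obtain ⟨x, y, u₀, hgen, hyz, hxz, hu0c, hu01, hu0cen, hmem⟩ :=
    v4_struct (hG.to_quotient K) (gen_quot2 K hgen₀) h
  obtain ⟨x, rfl⟩ := QuotientGroup.mk_surjective x
  obtain ⟨y, rfl⟩ := QuotientGroup.mk_surjective y
  obtain ⟨u₀, rfl⟩ := QuotientGroup.mk_surjective u₀
  replace hgen := gen_lift K hKF hgen
  have hzc : ⁅x, y⁆ ∈ commutator G := comm_mem x y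
  have hzdef : (⁅(x : G ⧸ K), (y : G ⧸ K)⁆) = ((⁅x, y⁆ : G) : G ⧸ K) := rfl
  rw [hzdef] at hyz hxz hmem
  have hmk : ∀ a b : G, (a : G ⧸ K) = (b : G ⧸ K) → b = a ∨ b = n * a := by
    intro a b hab
    have h1 := QuotientGroup.eq.mp hab
    rw [hKn] at h1
    rcases zpowers_two hn2 h1 with h2 | h2
    · left
      have : b = a * (a⁻¹ * b) := by group
      rw [this, h2, mul_one]
    · right
      have : b = a * (a⁻¹ * b) := by group
      rw [this, h2, hn]
  -- the element `u`
  obtain ⟨u, hxzu, hu1, hun, hucon, huc, huu⟩ : ∃ u : G, x * ⁅x, y⁆ * x⁻¹ = u * ⁅x, y⁆ ∧ u ≠ 1 ∧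
      u ≠ n ∧ (∀ g : G, g * u * g⁻¹ = u ∨ g * u * g⁻¹ = n * u) ∧ u ∈ commutator G ∧
      (u : G ⧸ K) = (u₀ : G ⧸ K) := by
    have h1 : ((x * ⁅x, y⁆ * x⁻¹ : G) : G ⧸ K) = ((u₀ * ⁅x, y⁆ : G) : G ⧸ K) := hxz
    have h2 : ((x * ⁅x, y⁆ * x⁻¹ * ⁅x, y⁆⁻¹ : G) : G ⧸ K) = (u₀ : G ⧸ K) := by
      rw [QuotientGroup.mk_mul, h1, QuotientGroup.mk_mul, QuotientGroup.mk_inv,
        mul_inv_cancel_right]
    generalize hz : ⁅x, y⁆ = z at *
    refine ⟨x * z * x⁻¹ * z⁻¹, by group, ?_, ?_, ?_, ?_, h2⟩
    · intro h3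
      rw [h3] at h2
      exact hu01 h2.symm
    · intro h3
      rw [h3] at h2
      apply hu01
      rw [← h2]
      exact (QuotientGroup.eq_one_iff n).mpr (by rw [hKn]; exact Subgroup.mem_zpowers n)
    · intro g
      generalize x * z * x⁻¹ * z⁻¹ = u at *
      apply hmk
      have h3 := hu0cen (g : G ⧸ K)
      rw [← h2] at h3
      have h4 : ((u * g * g⁻¹ : G) : G ⧸ K) = ((g * u * g⁻¹ : G) : G ⧸ K) := by
        rw [QuotientGroup.mk_mul K (u * g), QuotientGroup.mk_mul K (g * u)]
        exact congrArg (· * ((g⁻¹ : G) : G ⧸ K)) h3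
      rwa [mul_inv_cancel_right] at h4
    · have : x * z * x⁻¹ * z⁻¹ = ⁅x, z⁆ := rfl
      rw [this]
      exact comm_mem _ _
  have hform : ∀ c ∈ commutator G, ∃ d : G, (d = 1 ∨ d = ⁅x, y⁆ ∨ d = u ∨ d = u * ⁅x, y⁆) ∧
      (c = d ∨ c = n * d) := by
    intro c hc
    rcases hmem (c : G ⧸ K) ((mem_comm_quot K hKle c).mpr hc) with h1 | h1 | h1 | h1
    · exact ⟨1, Or.inl rfl, hmk 1 c h1.symm⟩
    · exact ⟨⁅x, y⁆, Or.inr (Or.inl rfl), hmk _ c h1.symm⟩
    · exact ⟨u, Or.inr (Or.inr (Or.inl rfl)), hmk _ c (huu.trans h1.symm)⟩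
    · refine ⟨u * ⁅x, y⁆, Or.inr (Or.inr (Or.inr rfl)), hmk _ c ?_⟩
      rw [h1, QuotientGroup.mk_mul, huu]
  have hyz' : y * ⁅x, y⁆ * y⁻¹ = ⁅x, y⁆ ∨ y * ⁅x, y⁆ * y⁻¹ = n * ⁅x, y⁆ := by
    apply hmk
    generalize ⁅x, y⁆ = z at *
    have h4 : ((z * y * y⁻¹ : G) : G ⧸ K) = ((y * z * y⁻¹ : G) : G ⧸ K) := by
      rw [QuotientGroup.mk_mul K (z * y), QuotientGroup.mk_mul K (y * z)]
      exact congrArg (· * ((y⁻¹ : G) : G ⧸ K)) hyz.symm
    rwa [mul_inv_cancel_right] at h4
  clear hmem hxz hyz huu hu0cen hu01 hu0c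
  have hnn : n * n = 1 := by rw [← pow_two]; exact hn2
  have hufix : ∀ c ∈ commutator G, c * u = u * c := comm_fix hn (by
    intro g
    rcases hucon g with h1 | h1
    · exact ⟨0, by rw [h1, zpow_zero, one_mul]⟩
    · exact ⟨1, by rw [h1, zpow_one]⟩)
  have huz : ⁅x, y⁆ * u = u * ⁅x, y⁆ := hufix _ hzc
  have hz2c : ∀ g : G, ⁅x, y⁆ ^ 2 * g = g * ⁅x, y⁆ ^ 2 := by
    intro g
    rcases hsq _ hzc with h1 | h1
    · rw [h1, one_mul, mul_one]
    · rw [h1]; exact hn g
  have hxyyx : x * y = ⁅x, y⁆ * (y * x) := by rw [commutatorElement_def]; group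
  have hz4 : ⁅x, y⁆ ^ 2 * ⁅x, y⁆ ^ 2 = 1 := by
    rcases hsq _ hzc with h1 | h1
    · rw [h1, one_mul]
    · rw [h1]; exact hnn
  have key1 := fun v s (hv : Subgroup.closure {x, v} = ⊤) =>
    b_final hfull (x := x) (v := v) (s := s) hv
  have key2 := @comm_mul_right_zpow G _ x y 2
  generalize hz : ⁅x, y⁆ = z at *
  have hu2 : u * u = 1 := by
    have h1 : x * z ^ 2 * x⁻¹ = u ^ 2 * z ^ 2 := by
      rw [← conj_pow, hxzu, (show Commute u z from huz.symm).mul_pow]
    rw [← hz2c x, mul_inv_cancel_right] at h1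
    rw [← pow_two]
    exact (right_eq_mul.mp h1)
  -- `y` commutes with `u`
  have hyu : y * u * y⁻¹ = u := by
    rcases hucon y with h1 | h1
    · exact h1
    · exfalso
      have e1 : (x * y) * z * (x * y)⁻¹ = z * ((y * x) * z * (y * x)⁻¹) * z⁻¹ := by
        rw [hxyyx]; group
      have e2 : (y * x) * z * (y * x)⁻¹ = n * (u * (y * z * y⁻¹)) := by
        calc (y * x) * z * (y * x)⁻¹ = y * (x * z * x⁻¹) * y⁻¹ := by group
          _ = (y * u * y⁻¹) * (y * z * y⁻¹) := by rw [hxzu]; group
          _ = _ := by rw [h1]; simp only [mul_assoc]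
      have e3 : ∀ w, (w = z ∨ w = n * z) → z * (n * (u * w)) * z⁻¹ = n * (u * w) := by
        rintro w (rfl | rfl)
        · calc w * (n * (u * w)) * w⁻¹ = (w * n) * u := by group
            _ = n * (w * u) := by rw [← hn]; simp only [mul_assoc]
            _ = _ := by rw [huz]
        · calc z * (n * (u * (n * z))) * z⁻¹ = (z * n) * u * n := by group
            _ = n * (z * u) * n := by rw [← hn z]; simp only [mul_assoc]
            _ = n * (u * (z * n)) := by rw [huz]; simp only [mul_assoc]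
            _ = _ := by rw [← hn z]
      have e4 : (x * y) * z * (x * y)⁻¹ = x * (y * z * y⁻¹) * x⁻¹ := by group
      rw [e2, e3 _ hyz', e4] at e1
      rcases hyz' with h2 | h2
      · rw [h2, hxzu] at e1
        exact hn1 (right_eq_mul.mp e1)
      · rw [h2] at e1
        have e5 : x * (n * z) * x⁻¹ = n * (u * z) := by
          calc x * (n * z) * x⁻¹ = (x * n) * z * x⁻¹ := by group
            _ = n * (x * z * x⁻¹) := by rw [← hn]; group
            _ = _ := by rw [hxzu]
        rw [e5] at e1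
        have e6 : u * z = u * (n * z) := mul_left_cancel e1
        have e7 : z = n * z := mul_left_cancel e6
        exact hn1 (right_eq_mul.mp e7)
  -- the final contradiction given a good `v`
  have final : ∀ v : G, Subgroup.closure {x, v} = ⊤ → ⁅x, v⁆ = z → v * z = z * v →
      v * u = u * v → False := by
    intro v hgv hzv hvz hvu
    have h1 := key1 v (u * z ^ 2) hgv (by
      intro c hc
      obtain ⟨d, hd, hcd⟩ := hform c hc
      have h2 : d * v = v * d := by
        rcases hd with rfl | rfl | rfl | rfl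
        · rw [one_mul, mul_one]
        · exact hvz.symm
        · exact hvu.symm
        · rw [mul_assoc, ← hvz, ← mul_assoc, ← hvu, mul_assoc]
      rcases hcd with rfl | rfl
      · exact h2
      · rw [mul_assoc, h2, ← mul_assoc, hn, mul_assoc]) (by
      rw [hzv, hxzu, mul_assoc, pow_two]) (by
      calc u * z ^ 2 * (u * z ^ 2) = u * (z ^ 2 * u) * z ^ 2 := by simp only [mul_assoc]
        _ = (u * u) * (z ^ 2 * z ^ 2) := by rw [hz2c]; simp only [mul_assoc]
        _ = 1 := by rw [hu2, hz4, one_mul]) (by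
      have h2 : x ^ 2 * u * (x ^ 2)⁻¹ = u := by
        rcases hucon x with h3 | h3
        · calc x ^ 2 * u * (x ^ 2)⁻¹ = x * (x * u * x⁻¹) * x⁻¹ := by rw [pow_two]; group
            _ = _ := by rw [h3, h3]
        · calc x ^ 2 * u * (x ^ 2)⁻¹ = x * (x * u * x⁻¹) * x⁻¹ := by rw [pow_two]; group
            _ = x * (n * u) * x⁻¹ := by rw [h3]
            _ = (x * n) * u * x⁻¹ := by simp only [mul_assoc]
            _ = n * (x * u * x⁻¹) := by rw [← hn]; simp only [mul_assoc]
            _ = _ := by rw [h3, ← mul_assoc, hnn, one_mul]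
      calc x ^ 2 * (u * z ^ 2) * (x ^ 2)⁻¹ = x ^ 2 * u * (z ^ 2 * (x ^ 2)⁻¹) := by
            simp only [mul_assoc]
        _ = (x ^ 2 * u * (x ^ 2)⁻¹) * z ^ 2 := by rw [hz2c]; simp only [mul_assoc]
        _ = _ := by rw [h2])
    omega
  have hyu' : y * u = u * y := by
    calc y * u = (y * u * y⁻¹) * y := by group
      _ = _ := by rw [hyu]
  rcases hyz' with h1 | h1
  · exact final y hgen hz (by
      calc y * z = (y * z * y⁻¹) * y := by group
        _ = _ := by rw [h1]) hyu'
  · rcases hucon x with h2 | h2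
    · -- `u` is central
      have hxu : x * u = u * x := by
        calc x * u = (x * u * x⁻¹) * x := by group
          _ = _ := by rw [h2]
      have huC := central_of_gen hgen hxu hyu'
      rcases hsq z hzc with h3 | h3
      · -- `γ₂` elementary abelian
        apply hLL
        right; right
        refine ⟨hcard, ?_, ?_⟩
        · intro c hc
          obtain ⟨d, hd, hcd⟩ := hform c hc
          have h4 : d ^ 2 = 1 := by
            rcases hd with rfl | rfl | rfl | rfl
            · rw [one_pow]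
            · exact h3
            · rw [pow_two, hu2]
            · rw [(show Commute u z from huz.symm).mul_pow, h3, pow_two, hu2, one_mul]
          rcases hcd with rfl | rfl
          · exact h4
          · rw [(show Commute n d from hn d).mul_pow, h4, hn2, one_mul]
        · -- `[γ₂, G]` central
          intro c hc g k
          let Z := Subgroup.center G
          have hnZ : n ∈ Z := mem_cen.mpr hn
          have huZ : u ∈ Z := mem_cen.mpr huC
          have hzz : ∀ q : G, ⁅z, q⁆ ∈ Z := by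
            have h5 : (⊤ : Subgroup G) ≤ (Subgroup.centralizer {(QuotientGroup.mk' Z z)}).comap
                (QuotientGroup.mk' Z) := by
              rw [← hgen, Subgroup.closure_le]
              intro q hq
              rcases hq with hq | hq
              · rw [SetLike.mem_coe, Subgroup.mem_comap, Subgroup.mem_centralizer_iff, hq]
                intro r hr
                rw [Set.mem_singleton_iff.mp hr]
                symm
                calc QuotientGroup.mk' Z x * QuotientGroup.mk' Z z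
                    = QuotientGroup.mk' Z ((x * z * x⁻¹) * x) := by
                      rw [← map_mul]; congr 1; group
                  _ = QuotientGroup.mk' Z (u * (z * x)) := by rw [hxzu, mul_assoc]
                  _ = QuotientGroup.mk' Z u * QuotientGroup.mk' Z (z * x) := by rw [map_mul]
                  _ = QuotientGroup.mk' Z (z * x) := by
                    rw [(show QuotientGroup.mk' Z u = 1 from (QuotientGroup.eq_one_iff u).mpr huZ),
                      one_mul]
                  _ = _ := by rw [map_mul]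
              · rw [SetLike.mem_coe, Subgroup.mem_comap, Subgroup.mem_centralizer_iff,
                  Set.mem_singleton_iff.mp hq]
                intro r hr
                rw [Set.mem_singleton_iff.mp hr]
                symm
                calc QuotientGroup.mk' Z y * QuotientGroup.mk' Z z
                    = QuotientGroup.mk' Z ((y * z * y⁻¹) * y) := by
                      rw [← map_mul]; congr 1; group
                  _ = QuotientGroup.mk' Z (n * (z * y)) := by rw [h1, mul_assoc]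
                  _ = QuotientGroup.mk' Z n * QuotientGroup.mk' Z (z * y) := by rw [map_mul]
                  _ = QuotientGroup.mk' Z (z * y) := by
                    rw [(show QuotientGroup.mk' Z n = 1 from (QuotientGroup.eq_one_iff n).mpr hnZ),
                      one_mul]
                  _ = _ := by rw [map_mul]
            intro q
            have h6 := h5 (Subgroup.mem_top q)
            rw [Subgroup.mem_comap, Subgroup.mem_centralizer_iff] at h6
            have h7 := h6 _ rfl
            have h8 : QuotientGroup.mk' Z ⁅z, q⁆ = 1 := by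
              rw [map_commutatorElement, commutatorElement_eq_one_iff_mul_comm]
              exact h7
            exact (QuotientGroup.eq_one_iff _).mp h8
          have hcz : ∀ q : G, ⁅c, q⁆ ∈ Z := by
            intro q
            have h6 : QuotientGroup.mk' Z c = 1 ∨ QuotientGroup.mk' Z c = QuotientGroup.mk' Z z := by
              obtain ⟨d, hd, hcd⟩ := hform c hc
              have e1 : QuotientGroup.mk' Z n = 1 := (QuotientGroup.eq_one_iff n).mpr hnZ
              have e2 : QuotientGroup.mk' Z u = 1 := (QuotientGroup.eq_one_iff u).mpr huZ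
              have e3 : QuotientGroup.mk' Z c = QuotientGroup.mk' Z d := by
                rcases hcd with rfl | rfl
                · rfl
                · rw [map_mul, e1, one_mul]
              rw [e3]
              rcases hd with rfl | rfl | rfl | rfl
              · left; rw [map_one]
              · right; rfl
              · left; exact e2
              · right; rw [map_mul, e2, one_mul]
            have h8 : QuotientGroup.mk' Z ⁅c, q⁆ = 1 := by
              rw [map_commutatorElement]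
              rcases h6 with h6 | h6
              · rw [h6, commutatorElement_one_left]
              · rw [h6, ← map_commutatorElement]
                exact (QuotientGroup.eq_one_iff _).mpr (hzz q)
            exact (QuotientGroup.eq_one_iff _).mp h8
          rw [commutatorElement_eq_one_iff_mul_comm]
          exact mem_cen.mp (hcz g) k
      · -- `z ^ 2 = n`: quotient by `u`
        haveI := normal_zpowers huC
        let M := Subgroup.zpowers u
        have hMle : M ≤ commutator G := by rw [Subgroup.zpowers_le]; exact huc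
        have hu2' : u ^ 2 = 1 := by rw [pow_two, hu2]
        have hMcard : Nat.card (commutator (G ⧸ M)) = 4 := by
          have h4 := card_comm_quot M hMle
          rw [hcard, Nat.card_zpowers, orderOf_eq_prime hu2' hu1] at h4
          omega
        have hnM : n ∉ M := by
          intro h4
          rcases zpowers_two hu2' h4 with h5 | h5
          · exact hn1 h5
          · exact hun h5.symm
        rcases hind M hMle (by rw [Ne, Subgroup.zpowers_eq_bot]; exact hu1) with h4 | h4 | h4
        · obtain ⟨b, hb, hb4⟩ := h4.2 (z : G ⧸ M) ((mem_comm_quot M hMle z).mpr hzc) (y : G ⧸ M)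
          obtain ⟨b, rfl⟩ := QuotientGroup.mk_surjective b
          have hb' := (mem_comm_quot M hMle b).mp hb
          have h5 : ((⁅z, y⁆ : G) : G ⧸ M) = ((b ^ 4 : G) : G ⧸ M) := hb4
          have h6 : b ^ 4 = 1 := by
            have e : b ^ 4 = b ^ 2 * b ^ 2 := by rw [← pow_add]
            rcases hsq b hb' with h7 | h7
            · rw [e, h7, one_mul]
            · rw [e, h7]; exact hnn
          rw [h6] at h5
          apply hnM
          have h7 := (QuotientGroup.eq_one_iff _).mp h5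
          have h8 : ⁅z, y⁆⁻¹ = n := by
            have e : ⁅z, y⁆⁻¹ = (y * z * y⁻¹) * z⁻¹ := by rw [commutatorElement_def]; group
            rw [e, h1]; group
          rw [← h8]
          exact inv_mem h7
        · have h5 := h4.2 (z : G ⧸ M) ((mem_comm_quot M hMle z).mpr hzc)
          have h6 : ((z ^ 2 : G) : G ⧸ M) = 1 := h5
          rw [h3] at h6
          exact hnM ((QuotientGroup.eq_one_iff _).mp h6)
        · have := h4.1
          omega
    · -- replace `y` by `y x ^ 2`
      have hxn : ∀ c : G, x * (n * c) * x⁻¹ = n * (x * c * x⁻¹) := by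
        intro c
        calc x * (n * c) * x⁻¹ = (x * n) * c * x⁻¹ := by simp only [mul_assoc]
          _ = _ := by rw [← hn]; simp only [mul_assoc]
      have hyn : ∀ c : G, y * (n * c) * y⁻¹ = n * (y * c * y⁻¹) := by
        intro c
        calc y * (n * c) * y⁻¹ = (y * n) * c * y⁻¹ := by simp only [mul_assoc]
          _ = _ := by rw [← hn]; simp only [mul_assoc]
      have e1 : x * (u * z) * x⁻¹ = n * z := by
        calc x * (u * z) * x⁻¹ = (x * u * x⁻¹) * (x * z * x⁻¹) := by group
          _ = n * ((u * u) * z) := by rw [h2, hxzu]; simp only [mul_assoc]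
          _ = _ := by rw [hu2, one_mul]
      have e2 : (y * x ^ (2 : ℤ)) * z * (y * x ^ (2 : ℤ))⁻¹ = z := by
        calc (y * x ^ (2 : ℤ)) * z * (y * x ^ (2 : ℤ))⁻¹
            = y * (x * (x * z * x⁻¹) * x⁻¹) * y⁻¹ := by
              rw [zpow_two]; simp only [mul_inv_rev, mul_assoc]
          _ = y * (n * z) * y⁻¹ := by rw [hxzu, e1]
          _ = n * (n * z) := by rw [hyn, h1]
          _ = z := by rw [← mul_assoc, hnn, one_mul]
      have e3 : (y * x ^ (2 : ℤ)) * u * (y * x ^ (2 : ℤ))⁻¹ = u := by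
        calc (y * x ^ (2 : ℤ)) * u * (y * x ^ (2 : ℤ))⁻¹
            = y * (x * (x * u * x⁻¹) * x⁻¹) * y⁻¹ := by
              rw [zpow_two]; simp only [mul_inv_rev, mul_assoc]
          _ = y * (n * (n * u)) * y⁻¹ := by rw [h2, hxn, h2]
          _ = y * u * y⁻¹ := by rw [← mul_assoc n n, hnn, one_mul]
          _ = u := hyu
      refine final (y * x ^ (2 : ℤ)) (gen_mul hgen 2) key2 ?_ ?_
      · calc (y * x ^ (2 : ℤ)) * z
            = ((y * x ^ (2 : ℤ)) * z * (y * x ^ (2 : ℤ))⁻¹) * (y * x ^ (2 : ℤ)) := by group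
          _ = _ := by rw [e2]
      · calc (y * x ^ (2 : ℤ)) * u
            = ((y * x ^ (2 : ℤ)) * u * (y * x ^ (2 : ℤ))⁻¹) * (y * x ^ (2 : ℤ)) := by group
          _ = _ := by rw [e3]

end B

end Pool.Agent.Y36.AC
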