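import Mathlib
import Pool.Agent.Y36.AC.TwoB

/-!
Class-preserving automorphisms of finite 2-groups, two generators: the inductive step when the
derived subgroup becomes elementary abelian of order eight modulo a central subgroup of order two,
and the conclusion.
-/

set_option autoImplicit false

open scoped commutatorElement

namespace Pool.Agent.Y36.AC

open Pool.Agent.Helper832.AutC

section C

variable {G : Type} [Group G]

/-- the conjugacy class of `t` in the nondegenerate case -/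
theorem c_class [Finite G] {x y t u w n : G} (hgen : Subgroup.closure {x, y} = ⊤)
    (hn : ∀ g : G, n * g = g * n) (hnn : n * n = 1) (hn1 : n ≠ 1) (huu : u * u = 1)
    (hww : w * w = 1) (huw : u * w = w * u) (hxt : x * t * x⁻¹ = t * u)
    (hyt : y * t * y⁻¹ = t * w) (hxu : x * u * x⁻¹ = u) (hxw : x * w * x⁻¹ = n * w)
    (hyu : y * u * y⁻¹ = n * u) (hyw : y * w * y⁻¹ = w) (g : G) : g * t * g⁻¹ ≠ t * n := by
  intro hg
  have hS := conj_stable hgen ({t, t * u, t * w, t * (n * (u * w))} : Set G) (by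
    rintro s (rfl | rfl | rfl | rfl)
    · right; left; exact hxt
    · left
      calc x * (t * u) * x⁻¹ = (x * t * x⁻¹) * (x * u * x⁻¹) := by group
        _ = t * (u * u) := by rw [hxt, hxu, mul_assoc]
        _ = t := by rw [huu, mul_one]
    · right; right; right
      show x * (t * w) * x⁻¹ = t * (n * (u * w))
      calc x * (t * w) * x⁻¹ = (x * t * x⁻¹) * (x * w * x⁻¹) := by group
        _ = t * (u * n) * w := by rw [hxt, hxw]; simp only [mul_assoc]
        _ = t * (n * u) * w := by rw [hn]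
        _ = _ := by simp only [mul_assoc]
    · right; right; left
      calc x * (t * (n * (u * w))) * x⁻¹ = (x * t * x⁻¹) * (x * n) * (u * w) * x⁻¹ := by group
        _ = (x * t * x⁻¹) * (n * x) * (u * w) * x⁻¹ := by rw [hn]
        _ = (x * t * x⁻¹) * n * (x * u * x⁻¹) * (x * w * x⁻¹) := by group
        _ = t * u * n * u * (n * w) := by rw [hxt, hxu, hxw]
        _ = t * (u * n) * (u * n) * w := by simp only [mul_assoc]
        _ = t * (n * u) * (u * n) * w := by rw [hn]
        _ = t * n * (u * u) * n * w := by simp only [mul_assoc]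
        _ = t * (n * n) * w := by rw [huu]; simp only [mul_assoc, one_mul]
        _ = t * w := by rw [hnn, mul_one]) (by
    rintro s (rfl | rfl | rfl | rfl)
    · right; right; left; exact hyt
    · right; right; right
      show y * (t * u) * y⁻¹ = t * (n * (u * w))
      calc y * (t * u) * y⁻¹ = (y * t * y⁻¹) * (y * u * y⁻¹) := by group
        _ = t * (w * n) * u := by rw [hyt, hyu]; simp only [mul_assoc]
        _ = t * (n * w) * u := by rw [hn]
        _ = t * (n * (w * u)) := by simp only [mul_assoc]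
        _ = _ := by rw [huw]
    · left
      calc y * (t * w) * y⁻¹ = (y * t * y⁻¹) * (y * w * y⁻¹) := by group
        _ = t * (w * w) := by rw [hyt, hyw, mul_assoc]
        _ = t := by rw [hww, mul_one]
    · right; left
      show y * (t * (n * (u * w))) * y⁻¹ = t * u
      calc y * (t * (n * (u * w))) * y⁻¹ = (y * t * y⁻¹) * (y * n) * (u * w) * y⁻¹ := by group
        _ = (y * t * y⁻¹) * (n * y) * (u * w) * y⁻¹ := by rw [hn]
        _ = (y * t * y⁻¹) * n * (y * u * y⁻¹) * (y * w * y⁻¹) := by group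
        _ = t * w * n * (n * u) * w := by rw [hyt, hyu, hyw]
        _ = t * w * (n * n) * (u * w) := by simp only [mul_assoc]
        _ = t * (w * w) * u := by rw [hnn, huw]; simp only [mul_assoc, one_mul]
        _ = t * u := by rw [hww, mul_one]) g t (Or.inl rfl)
  rw [hg] at hS
  rcases hS with h | h | h | h
  · exact hn1 (mul_eq_left.mp h)
  · have h1 : n = u := mul_left_cancel h
    rw [← h1, ← hn y, mul_inv_cancel_right, hnn] at hyu
    exact hn1 hyu
  · have h1 : n = w := mul_left_cancel h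
    rw [← h1, ← hn x, mul_inv_cancel_right, hnn] at hxw
    exact hn1 hxw
  · have h0 : t * n = t * (n * (u * w)) := h
    have h1 : n = n * (u * w) := mul_left_cancel h0
    have h2 : u * w = 1 := left_eq_mul.mp h1
    have h3 : w = u := by
      have h4 : u * w = u * u := by rw [h2, huu]
      exact mul_left_cancel h4
    rw [h3, hxu] at hxw
    exact hn1 (right_eq_mul.mp hxw)

/-- the nondegenerate case is impossible -/
theorem c_nondeg [Finite G] (hfull : FullD G 2) {x y u w n δ : G}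
    (hgen : Subgroup.closure {x, y} = ⊤)
    (hn : ∀ g : G, n * g = g * n) (hnn : n * n = 1) (hn1 : n ≠ 1) (huu : u * u = 1)
    (hww : w * w = 1) (huw : u * w = w * u) (hzu : ⁅x, y⁆ * u = u * ⁅x, y⁆)
    (hzw : ⁅x, y⁆ * w = w * ⁅x, y⁆) (hwc : w ∈ commutator G)
    (hz2 : ⁅x, y⁆ ^ 2 = 1 ∨ ⁅x, y⁆ ^ 2 = n)
    (hxz : x * ⁅x, y⁆ * x⁻¹ = u * ⁅x, y⁆) (hyz : y * ⁅x, y⁆ * y⁻¹ = w * ⁅x, y⁆)
    (hxu : x * u * x⁻¹ = u) (hxw : x * w * x⁻¹ = n * w) (hyu : y * u * y⁻¹ = n * u)
    (hδ : δ = 1 ∨ δ = n) (hyw : y * w * y⁻¹ = δ * w) : False := by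
  obtain ⟨φ, hφ, hφx, hφy⟩ := full_pair hfull hgen (one_mem (commutator G)) hwc
  rw [mul_one] at hφx
  have hφz : φ ⁅x, y⁆ = ⁅x, y⁆ * n := by
    rw [map_commutatorElement, hφx, hφy]
    calc ⁅x, y * w⁆ = (x * y * x⁻¹) * (x * w * x⁻¹) * w⁻¹ * y⁻¹ := by
          rw [commutatorElement_def]; group
      _ = (x * y * x⁻¹) * n * y⁻¹ := by rw [hxw]; group
      _ = (x * y * x⁻¹) * (n * y⁻¹) := by simp only [mul_assoc]
      _ = (x * y * x⁻¹) * (y⁻¹ * n) := by rw [hn]
      _ = _ := by rw [commutatorElement_def]; group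
  have hxyx : x * y * x⁻¹ = ⁅x, y⁆ * y := by rw [commutatorElement_def]; group
  generalize hz : ⁅x, y⁆ = z at *
  rcases hδ with hδ | hδ
  · rw [hδ, one_mul] at hyw
    obtain ⟨g, hg⟩ := isConj_iff.mp (hφ z)
    rw [hφz] at hg
    exact c_class (t := z) hgen hn hnn hn1 huu hww huw (by rw [hxz, hzu]) (by rw [hyz, hzw])
      hxu hxw hyu hyw g hg
  · -- `t = x ^ 2 z`
    rw [hδ] at hyw
    obtain ⟨a, ha, hac, haa⟩ : ∃ a : G, z * z = a ∧ (∀ g : G, a * g = g * a) ∧ a * a = 1 := by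
      refine ⟨z * z, rfl, ?_, ?_⟩
      · rw [← pow_two]
        rcases hz2 with h | h
        · rw [h]; intro g; rw [one_mul, mul_one]
        · rw [h]; exact hn
      · rw [← pow_two z]
        rcases hz2 with h | h
        · rw [h, one_mul]
        · rw [h]; exact hnn
    have hxu' : x * u = u * x := by
      calc x * u = (x * u * x⁻¹) * x := by group
        _ = _ := by rw [hxu]
    have hx2y : (x * x) * y = (u * a) * y * (x * x) := by
      calc (x * x) * y = (x * (x * y * x⁻¹) * x⁻¹) * (x * x) := by group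
        _ = (x * (z * y) * x⁻¹) * (x * x) := by rw [hxyx]
        _ = (x * z * x⁻¹) * (x * y * x⁻¹) * (x * x) := by group
        _ = (u * (z * z)) * y * (x * x) := by rw [hxz, hxyx]; simp only [mul_assoc]
        _ = _ := by rw [ha]
    have hua : (u * a) * (u * a) = 1 := by
      calc (u * a) * (u * a) = u * (a * u) * a := by simp only [mul_assoc]
        _ = (u * u) * (a * a) := by rw [hac]; simp only [mul_assoc]
        _ = 1 := by rw [huu, haa, one_mul]
    have hyx2 : y * (x * x) * y⁻¹ = (x * x) * (u * a) := by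
      have h1 : y * (x * x) = (u * a) * ((x * x) * y) := by
        rw [hx2y]
        calc y * (x * x) = 1 * (y * (x * x)) := by rw [one_mul]
          _ = (u * a) * (u * a) * (y * (x * x)) := by rw [hua]
          _ = _ := by simp only [mul_assoc]
      calc y * (x * x) * y⁻¹ = (u * a) * ((x * x) * y) * y⁻¹ := by rw [h1]
        _ = u * (a * (x * x)) := by group
        _ = (u * x) * x * a := by rw [hac]; simp only [mul_assoc]
        _ = x * u * x * a := by rw [hxu']
        _ = x * (u * x) * a := by simp only [mul_assoc]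
        _ = x * (x * u) * a := by rw [hxu']
        _ = _ := by simp only [mul_assoc]
    obtain ⟨g, hg⟩ := isConj_iff.mp (hφ (x * x * z))
    have hφt : φ (x * x * z) = x * x * z * n := by
      rw [map_mul, map_mul, hφx, hφz]; simp only [mul_assoc]
    rw [hφt] at hg
    refine c_class (t := x * x * z) (w := u * w * a) hgen hn hnn hn1 huu ?_ ?_ ?_ ?_ hxu ?_ hyu ?_
      g hg
    · calc u * w * a * (u * w * a) = u * w * (a * (u * w)) * a := by simp only [mul_assoc]
        _ = u * (w * u) * w * (a * a) := by rw [hac]; simp only [mul_assoc]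
        _ = (u * u) * (w * w) * (a * a) := by rw [← huw]; simp only [mul_assoc]
        _ = 1 := by rw [huu, hww, haa, one_mul, one_mul]
    · calc u * (u * w * a) = u * (u * (w * a)) := by simp only [mul_assoc]
        _ = u * (u * (a * w)) := by rw [hac]
        _ = u * ((u * a) * w) := by simp only [mul_assoc]
        _ = u * ((a * u) * w) := by rw [hac]
        _ = u * (a * (u * w)) := by simp only [mul_assoc]
        _ = u * (a * (w * u)) := by rw [huw]
        _ = u * ((a * w) * u) := by simp only [mul_assoc]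
        _ = u * ((w * a) * u) := by rw [hac]
        _ = _ := by simp only [mul_assoc]
    · calc x * (x * x * z) * x⁻¹ = x * x * (x * z * x⁻¹) := by group
        _ = _ := by rw [hxz, ← hzu]; simp only [mul_assoc]
    · calc y * (x * x * z) * y⁻¹ = (y * (x * x) * y⁻¹) * (y * z * y⁻¹) := by group
        _ = x * x * u * (a * w) * z := by rw [hyx2, hyz]; simp only [mul_assoc]
        _ = x * x * u * (w * a) * z := by rw [hac]
        _ = x * x * u * w * (a * z) := by simp only [mul_assoc]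
        _ = x * x * u * w * (z * a) := by rw [hac z]
        _ = x * x * (u * (w * z)) * a := by simp only [mul_assoc]
        _ = x * x * (u * (z * w)) * a := by rw [hzw]
        _ = x * x * (u * z) * w * a := by simp only [mul_assoc]
        _ = x * x * (z * u) * w * a := by rw [hzu]
        _ = _ := by simp only [mul_assoc]
    · calc x * (u * w * a) * x⁻¹ = (x * u * x⁻¹) * (x * w * x⁻¹) * (x * a) * x⁻¹ := by group
        _ = u * (n * w) * (a * x) * x⁻¹ := by rw [hxu, hxw, hac]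
        _ = (u * n) * (w * a) := by group
        _ = (n * u) * (w * a) := by rw [hn]
        _ = _ := by simp only [mul_assoc]
    · calc y * (u * w * a) * y⁻¹ = (y * u * y⁻¹) * (y * w * y⁻¹) * (y * a) * y⁻¹ := by group
        _ = (n * u) * (n * w) * (a * y) * y⁻¹ := by rw [hyu, hyw, hac]
        _ = n * (u * n) * (w * a) := by group
        _ = n * (n * u) * (w * a) := by rw [hn u]
        _ = (n * n) * (u * w * a) := by simp only [mul_assoc]
        _ = _ := by rw [hnn, one_mul]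

theorem comm_of_sq {H : Subgroup G} (h : ∀ c ∈ H, c ^ 2 = 1) {a b : G} (ha : a ∈ H)
    (hb : b ∈ H) : a * b = b * a := by
  have h1 := h _ (mul_mem ha hb)
  have h2 := h _ ha
  have h3 := h _ hb
  rw [pow_two] at h1 h2 h3
  have h4 : a * b = (a * b)⁻¹ := eq_inv_of_mul_eq_one_left h1
  rw [h4, mul_inv_rev, inv_eq_of_mul_eq_one_left h2, inv_eq_of_mul_eq_one_left h3]

theorem card_closure_le [Finite G] {d : ℕ} (f : Fin d → G)
    (hc : ∀ i j, f i * f j = f j * f i) (h2 : ∀ i, f i ^ 2 = 1) :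
    Nat.card (Subgroup.closure (Set.range f)) ≤ 2 ^ d := by
  letI : CommGroup (Subgroup.closure (Set.range f)) := Subgroup.closureCommGroupOfComm (by
    rintro _ ⟨i, rfl⟩ _ ⟨j, rfl⟩
    exact hc i j)
  refine card_le_of_gen (p := 2) ?_ (fun i => (⟨f i, Subgroup.subset_closure ⟨i, rfl⟩⟩ :
    Subgroup.closure (Set.range f))) ?_
  · rintro ⟨v, hv⟩
    apply Subtype.ext
    show v ^ 2 = 1
    induction hv using Subgroup.closure_induction with
    | mem s hs => obtain ⟨i, rfl⟩ := hs; exact h2 i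
    | one => exact one_pow 2
    | mul a b ha hb h3 h4 =>
      have h5 : a * b = b * a := by
        have h6 := mul_comm (⟨a, ha⟩ : Subgroup.closure (Set.range f)) ⟨b, hb⟩
        exact congrArg Subtype.val h6
      rw [(show Commute a b from h5).mul_pow, h3, h4, one_mul]
    | inv a _ h3 => rw [inv_pow, h3, inv_one]
  · have hmapinj : Function.Injective (Subgroup.map (Subgroup.closure (Set.range f)).subtype) :=
      Subgroup.map_injective (Subgroup.closure (Set.range f)).subtype_injective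
    apply hmapinj
    rw [MonoidHom.map_closure, ← Set.range_comp, ← MonoidHom.range_eq_map,
      Subgroup.range_subtype]
    rfl

theorem h3_of {h : ∀ c ∈ commutator G, ∀ g k : G, ⁅⁅c, g⁆, k⁆ = 1} :
    ∀ a b c d : G, ⁅⁅⁅a, b⁆, c⁆, d⁆ = 1 := fun a b c d => h _ (comm_mem a b) c d

/-- class at most three, exponent two, and `γ₂` generated by `z` and `e` -/
theorem c_card4 [Finite G] {x y e : G} (hgen : Subgroup.closure {x, y} = ⊤)
    (hexp : ∀ c ∈ commutator G, c ^ 2 = 1)
    (hcl : ∀ c ∈ commutator G, ∀ g k : G, ⁅⁅c, g⁆, k⁆ = 1) (he : e ∈ commutator G)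
    (h1 : ⁅⁅x, y⁆, x⁆ ∈ Subgroup.closure (Set.range ![⁅x, y⁆, e]))
    (h2 : ⁅⁅x, y⁆, y⁆ ∈ Subgroup.closure (Set.range ![⁅x, y⁆, e])) :
    Nat.card (commutator G) ≤ 4 := by
  have h3 := comm_le (fun a b c d => hcl _ (comm_mem a b) c d) x y hgen
    (Subgroup.closure (Set.range ![⁅x, y⁆, e])) (Subgroup.subset_closure ⟨0, rfl⟩) h1 h2
  have hmem : ∀ i, ![⁅x, y⁆, e] i ∈ commutator G := by
    intro i; fin_cases i
    · exact comm_mem x y
    · exact he
  have h4 := card_closure_le ![⁅x, y⁆, e] (fun i j => comm_of_sq hexp (hmem i) (hmem j))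
    (fun i => hexp _ (hmem i))
  exact (Subgroup.card_le_of_le h3).trans h4

theorem c_card8 [Finite G] {x y : G} (hgen : Subgroup.closure {x, y} = ⊤)
    (hexp : ∀ c ∈ commutator G, c ^ 2 = 1)
    (hcl : ∀ c ∈ commutator G, ∀ g k : G, ⁅⁅c, g⁆, k⁆ = 1) :
    Nat.card (commutator G) ≤ 8 := by
  have h3 := comm_le (fun a b c d => hcl _ (comm_mem a b) c d) x y hgen
    (Subgroup.closure (Set.range ![⁅x, y⁆, ⁅⁅x, y⁆, x⁆, ⁅⁅x, y⁆, y⁆]))
    (Subgroup.subset_closure ⟨0, rfl⟩) (Subgroup.subset_closure ⟨1, rfl⟩)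
    (Subgroup.subset_closure ⟨2, rfl⟩)
  have hmem : ∀ i, ![⁅x, y⁆, ⁅⁅x, y⁆, x⁆, ⁅⁅x, y⁆, y⁆] i ∈ commutator G := by
    intro i; fin_cases i
    · exact comm_mem x y
    · exact comm_mem _ _
    · exact comm_mem _ _
  have h4 := card_closure_le ![⁅x, y⁆, ⁅⁅x, y⁆, x⁆, ⁅⁅x, y⁆, y⁆]
    (fun i j => comm_of_sq hexp (hmem i) (hmem j)) (fun i => hexp _ (hmem i))
  exact (Subgroup.card_le_of_le h3).trans h4

/-- the facts about a generating pair -/
theorem c_facts {x y n : G} (hn : ∀ g : G, n * g = g * n) (hnn : n * n = 1)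
    (hsq : ∀ c ∈ commutator G, c ^ 2 = 1 ∨ c ^ 2 = n)
    (hcl : ∀ c ∈ commutator G, ∀ g k : G, ⁅⁅c, g⁆, k⁆ = 1 ∨ ⁅⁅c, g⁆, k⁆ = n) :
    ∃ u w α β δ : G, (α = 1 ∨ α = n) ∧ (β = 1 ∨ β = n) ∧ (δ = 1 ∨ δ = n) ∧
      x * ⁅x, y⁆ * x⁻¹ = u * ⁅x, y⁆ ∧ y * ⁅x, y⁆ * y⁻¹ = w * ⁅x, y⁆ ∧
      x * u * x⁻¹ = α * u ∧ y * u * y⁻¹ = β * u ∧ x * w * x⁻¹ = β * w ∧ y * w * y⁻¹ = δ * w ∧
      u * u = 1 ∧ w * w = 1 ∧ u * w = w * u ∧ ⁅x, y⁆ * u = u * ⁅x, y⁆ ∧
      ⁅x, y⁆ * w = w * ⁅x, y⁆ ∧ u ∈ commutator G ∧ w ∈ commutator G := by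
  have hzc : ⁅x, y⁆ ∈ commutator G := comm_mem x y
  have hxyyx : x * y = ⁅x, y⁆ * (y * x) := by rw [commutatorElement_def]; group
  generalize hz : ⁅x, y⁆ = z at *
  have hz2c : ∀ g : G, z ^ 2 * g = g * z ^ 2 := by
    intro g
    rcases hsq z hzc with h | h
    · rw [h, one_mul, mul_one]
    · rw [h]; exact hn g
  have main : ∀ a : G, ∃ u : G, a * z * a⁻¹ = u * z ∧ u ∈ commutator G ∧
      (∀ g : G, ∃ α : G, (α = 1 ∨ α = n) ∧ g * u * g⁻¹ = α * u) ∧
      (∀ c ∈ commutator G, c * u = u * c) ∧ u * u = 1 := by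
    intro a
    have huc : ⁅a, z⁆ ∈ commutator G := comm_mem a z
    have h1 : ∀ g : G, ∃ α : G, (α = 1 ∨ α = n) ∧ g * ⁅a, z⁆ * g⁻¹ = α * ⁅a, z⁆ := by
      intro g
      have h2 := hcl z hzc a g
      have h3 : ⁅z, a⁆ = ⁅a, z⁆⁻¹ := (commutatorElement_inv a z).symm
      rw [h3] at h2
      generalize ⁅a, z⁆ = u at *
      refine ⟨⁅u⁻¹, g⁆, h2, ?_⟩
      have h4 : ∀ q : G, ⁅u⁻¹, g⁆ * q = q * ⁅u⁻¹, g⁆ := by
        intro q
        rcases h2 with h2 | h2
        · rw [h2, one_mul, mul_one]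
        · rw [h2]; exact hn q
      rw [h4, commutatorElement_def]; group
    have h5 : ∀ c ∈ commutator G, c * ⁅a, z⁆ = ⁅a, z⁆ * c := comm_fix hn (by
      intro g
      obtain ⟨α, hα, h⟩ := h1 g
      rcases hα with rfl | rfl
      · exact ⟨0, by rw [h, zpow_zero]⟩
      · exact ⟨1, by rw [h, zpow_one]⟩)
    have h6 : a * z * a⁻¹ = ⁅a, z⁆ * z := by rw [commutatorElement_def]; group
    refine ⟨⁅a, z⁆, h6, huc, h1, h5, ?_⟩
    have h7 : a * z ^ 2 * a⁻¹ = ⁅a, z⁆ ^ 2 * z ^ 2 := by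
      rw [← conj_pow, h6, (show Commute ⁅a, z⁆ z from (h5 z hzc).symm).mul_pow]
    rw [← hz2c a, mul_inv_cancel_right] at h7
    rw [← pow_two]
    exact right_eq_mul.mp h7
  obtain ⟨u, hxz, huc, huα, hucom, huu⟩ := main x
  obtain ⟨w, hyz, hwc, hwα, hwcom, hww⟩ := main y
  obtain ⟨α, hα, hxu⟩ := huα x
  obtain ⟨β, hβ, hyu⟩ := huα y
  obtain ⟨β', hβ', hxw⟩ := hwα x
  obtain ⟨δ, hδ, hyw⟩ := hwα y
  have hβcen : ∀ b : G, (b = 1 ∨ b = n) → ∀ q : G, b * q = q * b := by
    rintro b (rfl | rfl) q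
    · rw [one_mul, mul_one]
    · exact hn q
  have huz := hucom z hzc
  have hwz := hwcom z hzc
  have hwu : w * u = u * w := hucom w hwc
  have hββ : β' = β := by
    have e1 : (x * y) * z * (x * y)⁻¹ = z * ((y * x) * z * (y * x)⁻¹) * z⁻¹ := by
      rw [hxyyx]; group
    have e2 : (y * x) * z * (y * x)⁻¹ = β * (u * (w * z)) := by
      calc (y * x) * z * (y * x)⁻¹ = y * (x * z * x⁻¹) * y⁻¹ := by group
        _ = (y * u * y⁻¹) * (y * z * y⁻¹) := by rw [hxz]; group
        _ = _ := by rw [hyu, hyz]; simp only [mul_assoc]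
    have e3 : (x * y) * z * (x * y)⁻¹ = β' * (w * (u * z)) := by
      calc (x * y) * z * (x * y)⁻¹ = x * (y * z * y⁻¹) * x⁻¹ := by group
        _ = (x * w * x⁻¹) * (x * z * x⁻¹) := by rw [hyz]; group
        _ = _ := by rw [hxw, hxz]; simp only [mul_assoc]
    have e4 : z * (β * (u * (w * z))) * z⁻¹ = β * (u * (w * z)) := by
      have h1 : Commute z (β * (u * (w * z))) := by
        refine Commute.mul_right (hβcen β hβ z).symm (Commute.mul_right huz (Commute.mul_right hwz
          (Commute.refl z)))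
      rw [h1.eq, mul_inv_cancel_right]
    rw [e2, e3, e4, ← mul_assoc w u z, hwu, mul_assoc u w z] at e1
    exact mul_right_cancel e1
  rw [hββ] at hxw
  exact ⟨u, w, α, β, δ, hα, hβ, hδ, hxz, hyz, hxu, hyu, hxw, hyw, huu, hww, hwu.symm, huz, hwz,
    huc, hwc⟩

/-- the degenerate case is impossible -/
theorem c_degen [Finite G] {x y n k : G}
    (hgen : Subgroup.closure {x, y} = ⊤) (hnn : n * n = 1)
    (hcard : Nat.card (commutator G) = 16)
    (hsq : ∀ c ∈ commutator G, c ^ 2 = 1 ∨ c ^ 2 = n)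
    (hcl : ∀ c ∈ commutator G, ∀ g k : G, ⁅⁅c, g⁆, k⁆ = 1 ∨ ⁅⁅c, g⁆, k⁆ = n)
    (hk : ∀ g : G, k * g = g * k) (hkk : k * k = 1) (hk1 : k ≠ 1) (hkn : k ≠ n)
    (hkc : k ∈ commutator G)
    (hind : ∀ (M : Subgroup G) [M.Normal], M ≤ commutator G → M ≠ ⊥ → LL (G ⧸ M)) : False := by
  haveI := normal_zpowers hk
  let M := Subgroup.zpowers k
  have hMle : M ≤ commutator G := by rw [Subgroup.zpowers_le]; exact hkc
  have hk2 : k ^ 2 = 1 := by rw [pow_two, hkk]
  have hMcard : Nat.card (commutator (G ⧸ M)) = 8 := by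
    have h4 := card_comm_quot M hMle
    rw [hcard, Nat.card_zpowers, orderOf_eq_prime hk2 hk1] at h4
    omega
  have hM : ∀ g : G, (g : G ⧸ M) = 1 → g = 1 ∨ g = k := fun g hg =>
    zpowers_two hk2 ((QuotientGroup.eq_one_iff _).mp hg)
  have hand : ∀ g : G, (g = 1 ∨ g = k) → (g = 1 ∨ g = n) → g = 1 := by
    rintro g (h | h) (h' | h')
    · exact h
    · exact h
    · exact h'
    · exact absurd (h.symm.trans h') hkn
  rcases hind M hMle (by rw [Ne, Subgroup.zpowers_eq_bot]; exact hk1) with h | h | h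
  · obtain ⟨g, hg⟩ := h.1.exists_generator
    have h4 : g ^ 4 = 1 := by
      obtain ⟨g, hgc⟩ := g
      obtain ⟨g, rfl⟩ := QuotientGroup.mk_surjective g
      apply Subtype.ext
      show ((g ^ 4 : G) : G ⧸ M) = 1
      have h5 := (mem_comm_quot M hMle g).mp hgc
      have h6 : g ^ 4 = 1 := by
        have e : g ^ 4 = g ^ 2 * g ^ 2 := by rw [← pow_add]
        rcases hsq g h5 with h7 | h7
        · rw [e, h7, one_mul]
        · rw [e, h7]; exact hnn
      rw [h6]; rfl
    have h5 : orderOf g = 8 := by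
      rw [← hMcard, ← Nat.card_zpowers]
      have h6 : Subgroup.zpowers g = ⊤ := by
        rw [eq_top_iff]
        intro q _
        exact hg q
      rw [h6]
      exact Subgroup.card_top
    have h6 := orderOf_dvd_of_pow_eq_one h4
    rw [h5] at h6
    omega
  · have := h.1
    omega
  · have hexp : ∀ c ∈ commutator G, c ^ 2 = 1 := by
      intro c hc
      have h5 := h.2.1 (c : G ⧸ M) ((mem_comm_quot M hMle c).mpr hc)
      have h6 : ((c ^ 2 : G) : G ⧸ M) = 1 := h5
      exact hand _ (hM _ h6) (hsq c hc)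
    have hcl' : ∀ c ∈ commutator G, ∀ g k : G, ⁅⁅c, g⁆, k⁆ = 1 := by
      intro c hc g q
      have h5 := h.2.2 (c : G ⧸ M) ((mem_comm_quot M hMle c).mpr hc) (g : G ⧸ M) (q : G ⧸ M)
      have h6 : ((⁅⁅c, g⁆, q⁆ : G) : G ⧸ M) = 1 := h5
      exact hand _ (hM _ h6) (hcl c hc g q)
    have := c_card8 hgen hexp hcl'
    omega

theorem case_c [Finite G] (hG : IsPGroup 2 G) (hfull : FullD G 2) {x y n : G}
    (hgen : Subgroup.closure {x, y} = ⊤) (hn : ∀ g : G, n * g = g * n) (hn2 : n ^ 2 = 1)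
    (hn1 : n ≠ 1) (hnc : n ∈ commutator G) (K : Subgroup G) [hK : K.Normal]
    (hKn : K = Subgroup.zpowers n) (h : L3 (G ⧸ K))
    (hind : ∀ (M : Subgroup G) [M.Normal], M ≤ commutator G → M ≠ ⊥ → LL (G ⧸ M)) : False := by
  have hKle : K ≤ commutator G := by rw [hKn, Subgroup.zpowers_le]; exact hnc
  have hnn : n * n = 1 := by rw [← pow_two, hn2]
  have hcard : Nat.card (commutator G) = 16 := by
    rw [card_comm_quot K hKle, h.1, hKn, Nat.card_zpowers, orderOf_eq_prime hn2 hn1]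
  have hmk1 : ∀ g : G, (g : G ⧸ K) = 1 → g = 1 ∨ g = n := by
    intro g hg
    have h1 := (QuotientGroup.eq_one_iff _).mp hg
    rw [hKn] at h1
    exact zpowers_two hn2 h1
  have hmk2 : ∀ g : G, (g = 1 ∨ g = n) → (g : G ⧸ K) = 1 := by
    intro g hg
    apply (QuotientGroup.eq_one_iff _).mpr
    rw [hKn]
    rcases hg with rfl | rfl
    · exact one_mem _
    · exact Subgroup.mem_zpowers _
  have hsq : ∀ c ∈ commutator G, c ^ 2 = 1 ∨ c ^ 2 = n := fun c hc =>
    hmk1 _ (h.2.1 (c : G ⧸ K) ((mem_comm_quot K hKle c).mpr hc))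
  have hcl : ∀ c ∈ commutator G, ∀ g k : G, ⁅⁅c, g⁆, k⁆ = 1 ∨ ⁅⁅c, g⁆, k⁆ = n := fun c hc g k =>
    hmk1 _ (h.2.2 (c : G ⧸ K) ((mem_comm_quot K hKle c).mpr hc) (g : G ⧸ K) (k : G ⧸ K))
  obtain ⟨u, w, α, β, δ, hα, hβ, hδ, hxz, hyz, hxu, hyu, hxw, hyw, huu, hww, huw, hzu, hzw,
    huc, hwc⟩ := c_facts (x := x) (y := y) hn hnn hsq hcl
  have hgenq := gen_quot2 K hgen
  -- `⁅z, x⁆` and `⁅z, y⁆` modulo `K`
  have hzx : ⁅⁅(x : G ⧸ K), (y : G ⧸ K)⁆, (x : G ⧸ K)⁆ = ((u : G) : G ⧸ K) := by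
    have h1 : ⁅⁅x, y⁆, x⁆ = u⁻¹ := by
      have h2 : ⁅⁅x, y⁆, x⁆ = ⁅x, y⁆ * (x * ⁅x, y⁆ * x⁻¹)⁻¹ := by
        generalize ⁅x, y⁆ = z
        rw [commutatorElement_def]; group
      rw [h2, hxz]; group
    have h2 : u⁻¹ = u := inv_eq_of_mul_eq_one_left huu
    have h3 : ((⁅⁅x, y⁆, x⁆ : G) : G ⧸ K) = ((u : G) : G ⧸ K) := by rw [h1, h2]
    exact h3
  have hzy : ⁅⁅(x : G ⧸ K), (y : G ⧸ K)⁆, (y : G ⧸ K)⁆ = ((w : G) : G ⧸ K) := by
    have h1 : ⁅⁅x, y⁆, y⁆ = w⁻¹ := by
      have h2 : ⁅⁅x, y⁆, y⁆ = ⁅x, y⁆ * (y * ⁅x, y⁆ * y⁻¹)⁻¹ := by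
        generalize ⁅x, y⁆ = z
        rw [commutatorElement_def]; group
      rw [h2, hyz]; group
    have h2 : w⁻¹ = w := inv_eq_of_mul_eq_one_left hww
    have h3 : ((⁅⁅x, y⁆, y⁆ : G) : G ⧸ K) = ((w : G) : G ⧸ K) := by rw [h1, h2]
    exact h3
  have huq : (u : G ⧸ K) ∈ commutator (G ⧸ K) := (mem_comm_quot K hKle u).mpr huc
  have hwq : (w : G ⧸ K) ∈ commutator (G ⧸ K) := (mem_comm_quot K hKle w).mpr hwc
  have hu1 : (u : G ⧸ K) ≠ 1 := by
    intro h1
    have h2 := c_card4 hgenq h.2.1 h.2.2 hwq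
      (by rw [hzx, h1]; exact one_mem _) (by rw [hzy]; exact Subgroup.subset_closure ⟨1, rfl⟩)
    have := h.1
    omega
  have hw1 : (w : G ⧸ K) ≠ 1 := by
    intro h1
    have h2 := c_card4 hgenq h.2.1 h.2.2 huq
      (by rw [hzx]; exact Subgroup.subset_closure ⟨1, rfl⟩) (by rw [hzy, h1]; exact one_mem _)
    have := h.1
    omega
  have huw1 : ((u * w : G) : G ⧸ K) ≠ 1 := by
    intro h1
    have h3 : (u : G ⧸ K) = (w : G ⧸ K) := by
      have h4 : (u : G ⧸ K) * (w : G ⧸ K) = 1 := h1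
      have h5 : (w : G ⧸ K) * (w : G ⧸ K) = 1 := by
        have : ((w * w : G) : G ⧸ K) = 1 := by rw [hww]; rfl
        exact this
      exact mul_right_cancel (h4.trans h5.symm)
    have h2 := c_card4 hgenq h.2.1 h.2.2 hwq
      (by rw [hzx, h3]; exact Subgroup.subset_closure ⟨1, rfl⟩)
      (by rw [hzy]; exact Subgroup.subset_closure ⟨1, rfl⟩)
    have := h.1
    omega
  have degen : ∀ k : G, k ∈ commutator G → k * k = 1 → (k : G ⧸ K) ≠ 1 →
      x * k * x⁻¹ = k → y * k * y⁻¹ = k → False := by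
    intro k hkc hkk hk1 hxk hyk
    have h1 : x * k = k * x := by
      calc x * k = (x * k * x⁻¹) * x := by group
        _ = _ := by rw [hxk]
    have h2 : y * k = k * y := by
      calc y * k = (y * k * y⁻¹) * y := by group
        _ = _ := by rw [hyk]
    exact c_degen hgen hnn hcard hsq hcl (central_of_gen hgen h1 h2) hkk
      (fun h3 => hk1 (hmk2 _ (Or.inl h3))) (fun h3 => hk1 (hmk2 _ (Or.inr h3))) hkc hind
  have hne1 : ∀ a b : G, a = b * a → b = 1 := fun a b hab => right_eq_mul.mp hab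
  rcases hβ with hβ | hβ
  · -- `β = 1`
    rw [hβ, one_mul] at hyu hxw
    rcases hδ with hδ | hδ
    · rw [hδ, one_mul] at hyw
      exact degen w hwc hww hw1 hxw hyw
    rcases hα with hα | hα
    · rw [hα, one_mul] at hxu
      exact degen u huc huu hu1 hxu hyu
    -- the form is the identity: use the pair `(y x, y)`
    rw [hα] at hxu
    rw [hδ] at hyw
    have hgen' : Subgroup.closure {y * x ^ (1 : ℤ), y} = ⊤ := by
      have h1 := gen_mul (gen_swap hgen) (1 : ℤ)
      -- `{y, x * y}`; pass to `{y, y * x}`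
      rw [eq_top_iff, ← hgen, Subgroup.closure_le]
      have hy : y ∈ Subgroup.closure ({y * x ^ (1 : ℤ), y} : Set G) :=
        Subgroup.subset_closure (Or.inr rfl)
      have hyx : y * x ^ (1 : ℤ) ∈ Subgroup.closure ({y * x ^ (1 : ℤ), y} : Set G) :=
        Subgroup.subset_closure (Or.inl rfl)
      intro q hq
      rcases hq with hq | hq
      · have h2 : q = y⁻¹ * (y * x ^ (1 : ℤ)) := by rw [hq]; group
        rw [SetLike.mem_coe, h2]
        exact mul_mem (inv_mem hy) hyx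
      · rw [SetLike.mem_coe, Set.mem_singleton_iff.mp hq]
        exact hy
    rw [zpow_one] at hgen'
    obtain ⟨u', w', α', β', δ', hα', hβ', hδ', hxz', hyz', hxu', hyu', hxw', hyw', huu', hww',
      huw', hzu', hzw', huc', hwc'⟩ := c_facts (x := y * x) (y := y) hn hnn hsq hcl
    have hz' : ⁅y * x, y⁆ = w * ⁅x, y⁆ := by
      rw [← hyz, commutatorElement_def, commutatorElement_def]; group
    have hsq' := hsq _ (comm_mem (y * x) y)
    have hyn : ∀ c : G, y * (n * c) * y⁻¹ = n * (y * c * y⁻¹) := by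
      intro c
      calc y * (n * c) * y⁻¹ = (y * n) * c * y⁻¹ := by simp only [mul_assoc]
        _ = _ := by rw [← hn]; simp only [mul_assoc]
    have hxn : ∀ c : G, x * (n * c) * x⁻¹ = n * (x * c * x⁻¹) := by
      intro c
      calc x * (n * c) * x⁻¹ = (x * n) * c * x⁻¹ := by simp only [mul_assoc]
        _ = _ := by rw [← hn]; simp only [mul_assoc]
    have hu'v : u' = n * (w * u) := by
      rw [hz'] at hxz'
      have e1 : (y * x) * (w * ⁅x, y⁆) * (y * x)⁻¹ = n * (w * u) * (w * ⁅x, y⁆) := by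
        generalize ⁅x, y⁆ = z at *
        calc (y * x) * (w * z) * (y * x)⁻¹ = y * ((x * w * x⁻¹) * (x * z * x⁻¹)) * y⁻¹ := by group
          _ = (y * w * y⁻¹) * (y * u * y⁻¹) * (y * z * y⁻¹) := by rw [hxw, hxz]; group
          _ = _ := by rw [hyw, hyu, hyz]; simp only [mul_assoc]
      rw [e1] at hxz'
      exact (mul_right_cancel hxz').symm
    have hxx : (y * x) * u' * (y * x)⁻¹ = u' := by
      rw [hu'v]
      calc (y * x) * (n * (w * u)) * (y * x)⁻¹ = y * (x * (n * (w * u)) * x⁻¹) * y⁻¹ := by group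
        _ = y * (n * (x * (w * u) * x⁻¹)) * y⁻¹ := by rw [hxn]
        _ = y * (n * ((x * w * x⁻¹) * (x * u * x⁻¹))) * y⁻¹ := by group
        _ = y * (n * (w * (n * u))) * y⁻¹ := by rw [hxw, hxu]
        _ = y * (n * ((w * n) * u)) * y⁻¹ := by simp only [mul_assoc]
        _ = y * (n * ((n * w) * u)) * y⁻¹ := by rw [hn w]
        _ = y * ((n * n) * (w * u)) * y⁻¹ := by simp only [mul_assoc]
        _ = (y * w * y⁻¹) * (y * u * y⁻¹) := by rw [hnn]; group
        _ = _ := by rw [hyw, hyu]; simp only [mul_assoc]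
    have hyy : y * u' * y⁻¹ = n * u' := by
      rw [hu'v, hyn]
      congr 1
      calc y * (w * u) * y⁻¹ = (y * w * y⁻¹) * (y * u * y⁻¹) := by group
        _ = _ := by rw [hyw, hyu]; simp only [mul_assoc]
    have hα1 : α' = 1 := hne1 u' α' (by rw [← hxu', hxx])
    have hβ1 : β' = n := by
      rw [hyy] at hyu'
      exact (mul_right_cancel hyu').symm
    rw [hα1, one_mul] at hxu'
    rw [hβ1] at hyu' hxw'
    exact c_nondeg hfull hgen' hn hnn hn1 huu' hww' huw' hzu' hzw' hwc' hsq' hxz' hyz' hxu' hxw'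
      hyu' hδ' hyw'
  · rw [hβ] at hyu hxw
    rcases hα with hα | hα
    · rw [hα, one_mul] at hxu
      exact c_nondeg hfull hgen hn hnn hn1 huu hww huw hzu hzw hwc (hsq _ (comm_mem x y)) hxz hyz
        hxu hxw hyu hδ hyw
    rcases hδ with hδ | hδ
    · -- swap
      rw [hδ, one_mul] at hyw
      obtain ⟨u', w', α', β', δ', hα', hβ', hδ', hxz', hyz', hxu', hyu', hxw', hyw', huu', hww',
        huw', hzu', hzw', huc', hwc'⟩ := c_facts (x := y) (y := x) hn hnn hsq hcl
      have hsq' := hsq _ (comm_mem y x)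
      have hz' : ⁅y, x⁆ = ⁅x, y⁆⁻¹ := (commutatorElement_inv x y).symm
      have hu'v : u' = w := by
        rw [hz'] at hxz'
        have e1 : y * ⁅x, y⁆⁻¹ * y⁻¹ = w * ⁅x, y⁆⁻¹ := by
          generalize ⁅x, y⁆ = z at *
          have e2 : y * z⁻¹ * y⁻¹ = (y * z * y⁻¹)⁻¹ := by group
          have e3 : w⁻¹ = w := inv_eq_of_mul_eq_one_left hww
          rw [e2, hyz, mul_inv_rev, e3]
          exact ((show Commute z w from hzw).inv_left).eq
        rw [e1] at hxz'
        exact (mul_right_cancel hxz').symm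
      rw [hu'v] at hxu' hyu' huu' huw' hzu' huc' hxz'
      have hα1 : α' = 1 := hne1 w α' (by rw [← hxu', hyw])
      have hβ1 : β' = n := by
        rw [hxw] at hyu'
        exact (mul_right_cancel hyu').symm
      rw [hα1, one_mul] at hxu'
      rw [hβ1] at hyu' hxw'
      exact c_nondeg hfull (gen_swap hgen) hn hnn hn1 huu' hww' huw' hzu' hzw' hwc' hsq' hxz' hyz'
        hxu' hxw' hyu' hδ' hyw'
    · -- `u w` is central
      rw [hα] at hxu
      rw [hδ] at hyw
      refine degen (u * w) (mul_mem huc hwc) ?_ huw1 ?_ ?_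
      · calc u * w * (u * w) = u * (w * u) * w := by simp only [mul_assoc]
          _ = (u * u) * (w * w) := by rw [← huw]; simp only [mul_assoc]
          _ = 1 := by rw [huu, hww, one_mul]
      · calc x * (u * w) * x⁻¹ = (x * u * x⁻¹) * (x * w * x⁻¹) := by group
          _ = n * (u * n) * w := by rw [hxu, hxw]; simp only [mul_assoc]
          _ = n * (n * u) * w := by rw [← hn u]
          _ = (n * n) * (u * w) := by simp only [mul_assoc]
          _ = u * w := by rw [hnn, one_mul]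
      · calc y * (u * w) * y⁻¹ = (y * u * y⁻¹) * (y * w * y⁻¹) := by group
          _ = n * (u * n) * w := by rw [hyu, hyw]; simp only [mul_assoc]
          _ = n * (n * u) * w := by rw [← hn u]
          _ = (n * n) * (u * w) := by simp only [mul_assoc]
          _ = u * w := by rw [hnn, one_mul]

/-- necessity for two-generator 2-groups -/
theorem two_aux : ∀ N : ℕ, ∀ (G : Type) [Group G] [Finite G], Nat.card G = N → IsPGroup 2 G →
    ∀ x y : G, Subgroup.closure {x, y} = ⊤ → FullD G 2 → LL G := by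
  intro N
  induction N using Nat.strong_induction_on with
  | _ N ih =>
  intro G _ _ hN hG x y hgen hfull
  by_cases hne : commutator G = ⊥
  · left
    refine ⟨?_, ?_⟩
    · rw [hne]; infer_instance
    · intro c hc g
      rw [hne, Subgroup.mem_bot] at hc
      refine ⟨1, one_mem _, ?_⟩
      rw [hc, commutatorElement_one_left, one_pow]
  have hind : ∀ (M : Subgroup G) [M.Normal], M ≤ commutator G → M ≠ ⊥ → LL (G ⧸ M) := by
    intro M _ hM hMne
    exact ih (Nat.card (G ⧸ M)) (hN ▸ card_quot_lt M hMne) (G ⧸ M) rfl (hG.to_quotient M)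
      (x : G ⧸ M) (y : G ⧸ M) (gen_quot2 M hgen)
      (fullD_quot hfull M (hM.trans (comm_le_frattini hG)))
  obtain ⟨n, hnc, hn1, hn2, hn⟩ := exists_central hG (commutator G) hne
  haveI := normal_zpowers hn
  have hKle : Subgroup.zpowers n ≤ commutator G := by rw [Subgroup.zpowers_le]; exact hnc
  rcases hind (Subgroup.zpowers n) hKle (by rw [Ne, Subgroup.zpowers_eq_bot]; exact hn1)
    with h | h | h
  · exact case_a hG hfull hgen hn hn2 hn1 hnc _ rfl h hind
  · exact case_b hG hfull hgen hn hn2 hn1 hnc _ rfl h hind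
  · exact (case_c hG hfull hgen hn hn2 hn1 hnc _ rfl h hind).elim

end C

end Pool.Agent.Y36.AC
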