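import Mathlib
import Pool.Agent.Y36.AC.TwoC
import Pool.Agent.Y36.AC.Basis

/-!
Class-preserving automorphisms of finite p-groups, two generators: the groups with cyclic derived
subgroup.
-/

set_option autoImplicit false

open scoped commutatorElement

namespace Pool.Agent.Y36.AC

open Pool.Agent.Helper832.AutC

section Arith

/-- lifting the exponent for geometric sums -/
theorem dvd_of_dvd_geom {p : ℕ} [hp : Fact p.Prime] {r : ℤ} (h1 : (p : ℤ) ∣ r - 1)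
    (h2 : p = 2 → (4 : ℤ) ∣ r - 1) (k m : ℕ)
    (h : (p : ℤ) ^ k ∣ ∑ j ∈ Finset.range m, r ^ j) : (p : ℤ) ^ k ∣ (m : ℤ) := by
  by_cases hr : r = 1
  · rw [hr] at h
    simpa using h
  have hpr : ¬ (p : ℤ) ∣ r := by
    intro hd
    have h3 := dvd_sub hd h1
    rw [sub_sub_cancel] at h3
    have h4 : p ∣ 1 := by exact_mod_cast h3
    exact hp.out.one_lt.ne' (Nat.dvd_one.mp h4)
  have hprime : Prime (p : ℤ) := Nat.prime_iff_prime_int.mp hp.out
  have key : emultiplicity (p : ℤ) (r ^ m - 1) = emultiplicity (p : ℤ) (r - 1)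
      + emultiplicity (p : ℤ) (m : ℤ) := by
    by_cases hp2 : p = 2
    · subst hp2
      have h3 := Int.two_pow_sub_pow' (x := r) (y := 1) m (h2 rfl) hpr
      rw [one_pow] at h3
      exact h3
    · have h3 := Int.emultiplicity_pow_sub_pow hp.out (hp.out.odd_of_ne_two hp2) (x := r) (y := 1)
        h1 hpr m
      rw [one_pow] at h3
      rw [h3, Int.natCast_emultiplicity]
  rw [← geom_sum_mul, emultiplicity_mul hprime, add_comm] at key
  have hfin : emultiplicity (p : ℤ) (r - 1) ≠ ⊤ := by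
    rw [Ne, emultiplicity_eq_top, not_not]
    apply Int.finiteMultiplicity_iff.mpr
    refine ⟨?_, sub_ne_zero.mpr hr⟩
    rw [Int.natAbs_natCast]
    exact hp.out.one_lt.ne'
  have h5 := ENat.add_right_injective_of_ne_top hfin key
  rw [pow_dvd_iff_le_emultiplicity] at h ⊢
  rw [← h5]
  exact h

/-- geometric sums take every value modulo a power of `p` -/
theorem geom_surj {p : ℕ} [hp : Fact p.Prime] {r : ℤ} (h1 : (p : ℤ) ∣ r - 1)
    (h2 : p = 2 → (4 : ℤ) ∣ r - 1) (k : ℕ) (T : ℤ) :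
    ∃ i : ℕ, (p : ℤ) ^ k ∣ (∑ j ∈ Finset.range i, r ^ j) - T := by
  classical
  haveI : NeZero (p ^ k) := ⟨(pow_pos hp.out.pos k).ne'⟩
  let f : Fin (p ^ k) → ZMod (p ^ k) := fun i => ((∑ j ∈ Finset.range i, r ^ j : ℤ) : ZMod (p ^ k))
  have hpr : IsCoprime ((p : ℤ) ^ k) r := by
    refine IsCoprime.pow_left ?_
    refine (Prime.coprime_iff_not_dvd (Nat.prime_iff_prime_int.mp hp.out)).mpr ?_
    intro hd
    have h3 := dvd_sub hd h1
    rw [sub_sub_cancel] at h3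
    have h4 : p ∣ 1 := by exact_mod_cast h3
    exact hp.out.one_lt.ne' (Nat.dvd_one.mp h4)
  have hkey : ∀ a b : ℕ, a ≤ b → b < p ^ k →
      ((∑ j ∈ Finset.range a, r ^ j : ℤ) : ZMod (p ^ k))
        = ((∑ j ∈ Finset.range b, r ^ j : ℤ) : ZMod (p ^ k)) → a = b := by
    intro a b hab hb h
    rw [ZMod.intCast_eq_intCast_iff_dvd_sub] at h
    have h3 : (∑ j ∈ Finset.range b, r ^ j) - ∑ j ∈ Finset.range a, r ^ j
        = r ^ a * ∑ j ∈ Finset.range (b - a), r ^ j := by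
      have h4 : b = a + (b - a) := by omega
      conv_lhs => rw [h4, Finset.sum_range_add]
      rw [add_sub_cancel_left, Finset.mul_sum]
      refine Finset.sum_congr rfl (fun j _ => ?_)
      rw [pow_add]
    rw [h3] at h
    push_cast at h
    have h5 := (hpr.pow_right (n := a)).dvd_of_dvd_mul_left h
    have h6 := dvd_of_dvd_geom h1 h2 k (b - a) h5
    have h7 : p ^ k ∣ b - a := by exact_mod_cast h6
    by_contra hne
    have h8 := Nat.le_of_dvd (by omega) h7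
    omega
  have hinj : Function.Injective f := by
    intro a b hab
    apply Fin.ext
    rcases le_total (a : ℕ) (b : ℕ) with h | h
    · exact hkey a b h b.2 hab
    · exact (hkey b a h a.2 hab.symm).symm
  have hsurj : Function.Surjective f := by
    have hc : Fintype.card (Fin (p ^ k)) = Fintype.card (ZMod (p ^ k)) := by
      rw [Fintype.card_fin, ZMod.card]
    exact ((Fintype.bijective_iff_injective_and_card f).mpr ⟨hinj, hc⟩).2
  obtain ⟨i, hi⟩ := hsurj ((T : ℤ) : ZMod (p ^ k))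
  refine ⟨i, ?_⟩
  have h3 : ((T : ℤ) : ZMod (p ^ k)) = ((∑ j ∈ Finset.range (i : ℕ), r ^ j : ℤ) : ZMod (p ^ k)) :=
    hi.symm
  rw [ZMod.intCast_eq_intCast_iff_dvd_sub] at h3
  push_cast at h3
  exact h3

/-- divisibility modulo a prime power is total -/
theorem dvd_total {p : ℕ} (hp : p.Prime) (k : ℕ) (a b : ℤ) :
    (∃ T : ℤ, (p : ℤ) ^ k ∣ b * T - a) ∨ (∃ T : ℤ, (p : ℤ) ^ k ∣ a * T - b) := by
  by_cases h0 : a = 0 ∧ b = 0
  · left; exact ⟨0, by rw [h0.1, h0.2]; simp⟩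
  · obtain ⟨s, c, hc, i, hi⟩ := exists_pow_factor hp (![a, b] : Fin 2 → ℤ) (by
      by_contra hcon
      push Not at hcon
      exact h0 ⟨hcon 0, hcon 1⟩)
    have ha : a = (p : ℤ) ^ s * c 0 := hc 0
    have hb : b = (p : ℤ) ^ s * c 1 := hc 1
    have hinv : ∀ q : ℤ, ¬ (p : ℤ) ∣ q → ∃ u v : ℤ, u * q + v * (p : ℤ) ^ k = 1 := by
      intro q hq
      have h1 : IsCoprime q ((p : ℤ) ^ k) := by
        refine IsCoprime.pow_right ?_
        rw [isCoprime_comm]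
        exact (Prime.coprime_iff_not_dvd (Nat.prime_iff_prime_int.mp hp)).mpr hq
      exact h1
    fin_cases i
    · right
      obtain ⟨u, v, huv⟩ := hinv (c 0) hi
      refine ⟨u * c 1, -((p : ℤ) ^ s * v * c 1), ?_⟩
      rw [ha, hb]
      linear_combination ((p : ℤ) ^ s * c 1) * huv
    · left
      obtain ⟨u, v, huv⟩ := hinv (c 1) hi
      refine ⟨u * c 0, -((p : ℤ) ^ s * v * c 0), ?_⟩
      rw [ha, hb]
      linear_combination ((p : ℤ) ^ s * c 0) * huv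

end Arith

section Grp

variable {G : Type} [Group G]

theorem decomp {x v : G} (hgen : Subgroup.closure {x, v} = ⊤)
    (hv : ∀ c ∈ commutator G, c * v = v * c) (g : G) :
    ∃ (i : ℤ) (k : G), g = x ^ i * k ∧ k * v = v * k := by
  let K : Subgroup G := Subgroup.centralizer {v}
  have hK : ∀ h : G, h ∈ K ↔ h * v = v * h := by
    intro h
    rw [Subgroup.mem_centralizer_iff]
    constructor
    · intro h1; exact (h1 v rfl).symm
    · rintro h1 _ rfl; exact h1.symm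
  have hcK : commutator G ≤ K := fun c hc => (hK c).mpr (hv c hc)
  have hKn : K.Normal := by
    refine ⟨fun k hk g => ?_⟩
    have h1 : g * k * g⁻¹ = ⁅g, k⁆ * k := by rw [commutatorElement_def]; group
    rw [h1]
    exact mul_mem (hcK (comm_mem g k)) hk
  have hsup : Subgroup.zpowers x ⊔ K = ⊤ := by
    rw [eq_top_iff, ← hgen, Subgroup.closure_le]
    rintro _ (rfl | rfl)
    · exact (le_sup_left : _ ≤ Subgroup.zpowers _ ⊔ K) (Subgroup.mem_zpowers _)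
    · exact (le_sup_right : _ ≤ Subgroup.zpowers _ ⊔ K) ((hK _).mpr rfl)
  have hg2 : g ∈ Subgroup.zpowers x ⊔ K := by rw [hsup]; exact Subgroup.mem_top g
  rw [Subgroup.mem_sup_of_normal_right] at hg2
  obtain ⟨_, ⟨i, rfl⟩, k, hk, hgk⟩ := hg2
  exact ⟨i, k, hgk.symm, (hK k).mp hk⟩

theorem isConj_of {x c g : G} (h : g * x * g⁻¹ = c * x) : IsConj x (c * x) :=
  isConj_iff.mpr ⟨g, h⟩

/-- if `y` centralises `γ₂` and the classes of `x` and `y` are full, the pair is full -/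
theorem suf_two {x y : G} (hgen : Subgroup.closure {x, y} = ⊤)
    (hv : ∀ c ∈ commutator G, c * y = y * c)
    (hx : ∀ c ∈ commutator G, ∃ g : G, g * x * g⁻¹ = c * x)
    (hy : ∀ c ∈ commutator G, ∃ g : G, g * y * g⁻¹ = c * y) : Full ![x, y] := by
  have hs : SurjP ![x, y] := by
    apply surjP_two
    intro g
    obtain ⟨i, k, hg, hk⟩ := decomp hgen hv g
    exact ⟨x ^ i, k, hg, (Commute.zpow_left (Commute.refl x) i).eq, hk⟩
  intro c hc
  have hconj : ∀ (a b : G), b ∈ commutator G →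
      (∀ c ∈ commutator G, ∃ g : G, g * a * g⁻¹ = c * a) → IsConj a (a * b) := by
    intro a b hb h
    obtain ⟨g, hg⟩ := h (a * b * a⁻¹) (conj_mem_comm a hb)
    have h1 := isConj_of hg
    have h2 : a * b * a⁻¹ * a = a * b := by group
    rwa [h2] at h1
  obtain ⟨α, hα, h⟩ := hs (fun i => ![x, y] i * c i) (by
    intro i
    fin_cases i
    · exact hconj x (c 0) (hc 0) hx
    · exact hconj y (c 1) (hc 1) hy)
  exact ⟨α, hα, h⟩

theorem zpow_eq_of_dvd {z : G} {q : ℕ} (hz : z ^ q = 1) {a b : ℤ} (h : (q : ℤ) ∣ a - b) :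
    z ^ a = z ^ b := by
  obtain ⟨t, ht⟩ := h
  have h1 : a = b + q * t := by linarith
  rw [h1, zpow_add, zpow_mul, zpow_natCast, hz, one_zpow, mul_one]

/-- the action of powers -/
theorem conj_pow_z {x z : G} {r : ℤ} (hx : x * z * x⁻¹ = z ^ r) (i : ℕ) (m : ℤ) :
    x ^ i * z ^ m * (x ^ i)⁻¹ = z ^ (m * r ^ i) := by
  induction i with
  | zero => simp
  | succ i ih =>
    have h1 : x ^ (i + 1) * z ^ m * (x ^ (i + 1))⁻¹ = x * (x ^ i * z ^ m * (x ^ i)⁻¹) * x⁻¹ := by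
      rw [pow_succ']; simp only [mul_inv_rev, mul_assoc]
    rw [h1, ih, ← conj_zpow, hx, ← zpow_mul]
    congr 1; ring

theorem conj_pow_y {x y : G} {r : ℤ} (hx : x * ⁅x, y⁆ * x⁻¹ = ⁅x, y⁆ ^ r) (i : ℕ) :
    x ^ i * y * (x ^ i)⁻¹ = ⁅x, y⁆ ^ (∑ j ∈ Finset.range i, r ^ j) * y := by
  have hxyx : x * y * x⁻¹ = ⁅x, y⁆ * y := by rw [commutatorElement_def]; group
  generalize ⁅x, y⁆ = z at *
  induction i with
  | zero => simp
  | succ i ih =>
    have h1 : x ^ (i + 1) * y * (x ^ (i + 1))⁻¹ = x * (x ^ i * y * (x ^ i)⁻¹) * x⁻¹ := by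
      rw [pow_succ']; simp only [mul_inv_rev, mul_assoc]
    rw [h1, ih]
    have h2 : ∑ j ∈ Finset.range (i + 1), r ^ j = r * (∑ j ∈ Finset.range i, r ^ j) + 1 := by
      rw [Finset.sum_range_succ', Finset.mul_sum]
      simp only [pow_zero]
      congr 1
      refine Finset.sum_congr rfl (fun j _ => ?_)
      rw [pow_succ']
    rw [h2]
    calc x * (z ^ (∑ j ∈ Finset.range i, r ^ j) * y) * x⁻¹
        = (x * z ^ (∑ j ∈ Finset.range i, r ^ j) * x⁻¹) * (x * y * x⁻¹) := by group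
      _ = z ^ (r * (∑ j ∈ Finset.range i, r ^ j)) * (z * y) := by
        rw [← conj_zpow, hx, ← zpow_mul, hxyx]
      _ = _ := by rw [zpow_add, zpow_one]; simp only [mul_assoc]

/-- the pair case of the cyclic classification -/
theorem cyc_full {p : ℕ} [hp : Fact p.Prime] [Finite G] (hG : IsPGroup p G) {x y : G}
    (hgen : Subgroup.closure {x, y} = ⊤) (hcz : commutator G = Subgroup.zpowers ⁅x, y⁆)
    (hy : y * ⁅x, y⁆ = ⁅x, y⁆ * y) {r : ℤ} (hx : x * ⁅x, y⁆ * x⁻¹ = ⁅x, y⁆ ^ r)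
    (h1 : (p : ℤ) ∣ r - 1) (h2 : p = 2 → (4 : ℤ) ∣ r - 1) : Full ![x, y] := by
  obtain ⟨k, hk⟩ := hG ⁅x, y⁆
  refine suf_two hgen ?_ ?_ ?_
  · intro c hc
    rw [hcz] at hc
    obtain ⟨i, rfl⟩ := hc
    exact (Commute.zpow_left hy.symm i).eq
  · intro c hc
    rw [hcz] at hc
    obtain ⟨T, rfl⟩ := hc
    refine ⟨y ^ (-T), ?_⟩
    show y ^ (-T) * x * (y ^ (-T))⁻¹ = ⁅x, y⁆ ^ T * x
    have h3 : x⁻¹ * ⁅x, y⁆ * x * (x⁻¹ * y * x) = y := by rw [commutatorElement_def]; group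
    have h4 : x * y * x⁻¹ = ⁅x, y⁆ * y := by rw [commutatorElement_def]; group
    generalize ⁅x, y⁆ = z at *
    have h5 : x * y ^ T * x⁻¹ = z ^ T * y ^ T := by
      rw [← conj_zpow, h4]
      exact (show Commute z y from hy.symm).mul_zpow T
    have hzy : z ^ T * y ^ T = y ^ T * z ^ T :=
      (Commute.zpow_zpow (show Commute z y from hy.symm) T T).eq
    calc y ^ (-T) * x * (y ^ (-T))⁻¹ = y ^ (-T) * (x * y ^ T * x⁻¹) * x := by
          rw [zpow_neg, inv_inv]; group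
      _ = y ^ (-T) * (y ^ T * z ^ T) * x := by rw [h5, hzy]
      _ = z ^ T * x := by group
  · intro c hc
    rw [hcz] at hc
    obtain ⟨T, rfl⟩ := hc
    obtain ⟨i, hi⟩ := geom_surj h1 h2 k T
    refine ⟨x ^ i, ?_⟩
    rw [conj_pow_y hx i]
    show ⁅x, y⁆ ^ (∑ j ∈ Finset.range i, r ^ j) * y = ⁅x, y⁆ ^ T * y
    rw [zpow_eq_of_dvd hk (by push_cast; exact hi)]

/-- one generator can be modified to centralise `γ₂` -/
theorem cyc_pair {p : ℕ} [hp : Fact p.Prime] [Finite G] (hG : IsPGroup p G) {x y : G}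
    (hgen : Subgroup.closure {x, y} = ⊤) (hcz : commutator G = Subgroup.zpowers ⁅x, y⁆)
    {r s : ℤ} (hx : x * ⁅x, y⁆ * x⁻¹ = ⁅x, y⁆ ^ r) (hy : y * ⁅x, y⁆ * y⁻¹ = ⁅x, y⁆ ^ s)
    (h1 : (p : ℤ) ∣ r - 1) (h2 : p = 2 → (4 : ℤ) ∣ r - 1) {k : ℕ} (hk : ⁅x, y⁆ ^ p ^ k = 1)
    {T : ℤ} (hT : (p : ℤ) ^ k ∣ (r - 1) * T - (s - 1)) : ∃ y' : G,
      Subgroup.closure {x, y'} = ⊤ ∧ Full ![x, y'] := by
  obtain ⟨i, hi⟩ := geom_surj h1 h2 k T
  have hrs : (p : ℤ) ^ k ∣ r ^ i - s := by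
    have h3 := geom_sum_mul r i
    obtain ⟨a, ha⟩ := hi
    obtain ⟨b, hb⟩ := hT
    refine ⟨a * (r - 1) + b, ?_⟩
    have h4 : r ^ i = (∑ j ∈ Finset.range i, r ^ j) * (r - 1) + 1 := by rw [h3]; ring
    rw [h4]
    linear_combination (r - 1) * ha + hb
  have hc : ⁅x, y * x ^ (-(i : ℤ))⁆ = ⁅x, y⁆ := comm_mul_right_zpow x y _
  have hgen' := gen_mul hgen (-(i : ℤ))
  refine ⟨y * x ^ (-(i : ℤ)), hgen', ?_⟩
  refine cyc_full hG hgen' (by rw [hc]; exact hcz) ?_ (r := r) (by rw [hc]; exact hx) h1 h2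
  rw [hc]
  have hzc : ⁅x, y⁆ ∈ commutator G := comm_mem x y
  -- `x ^ (-i) z x ^ i = z ^ m`
  have h3 : (x ^ i)⁻¹ * ⁅x, y⁆ * (x ^ i)⁻¹⁻¹ ∈ Subgroup.zpowers ⁅x, y⁆ := by
    rw [← hcz]
    exact conj_mem_comm _ hzc
  generalize ⁅x, y⁆ = z at *
  obtain ⟨m, hm⟩ := h3
  have hm' : z ^ m = (x ^ i)⁻¹ * z * x ^ i := by rw [inv_inv] at hm; exact hm
  have h4 : z ^ (m * r ^ i) = z := by
    rw [← conj_pow_z hx i m, hm']; group
  have h5 : y * z ^ m * y⁻¹ = z ^ (s * m) := by rw [← conj_zpow, hy, ← zpow_mul]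
  have h6 : z ^ (s * m) = z := by
    have h7 : z ^ (m * r ^ i) = z ^ (s * m) := by
      apply zpow_eq_of_dvd hk
      obtain ⟨a, ha⟩ := hrs
      refine ⟨a * m, ?_⟩
      push_cast
      linear_combination m * ha
    rw [← h7, h4]
  calc y * x ^ (-(i : ℤ)) * z = y * ((x ^ i)⁻¹ * z * x ^ i) * y⁻¹ * (y * x ^ (-(i : ℤ))) := by
        rw [zpow_neg, zpow_natCast]; group
    _ = z * (y * x ^ (-(i : ℤ))) := by rw [← hm', h5, h6]

theorem cyc_suf {p : ℕ} [hp : Fact p.Prime] [Finite G] (hG : IsPGroup p G) {x y : G}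
    (hgen : Subgroup.closure {x, y} = ⊤) (hcyc : IsCyclic (commutator G))
    (h4 : p = 2 → ∀ c ∈ commutator G, ∀ g : G, ∃ b ∈ commutator G, ⁅c, g⁆ = b ^ 4) :
    ∃ x' y' : G, Subgroup.closure {x', y'} = ⊤ ∧ Full ![x', y'] := by
  have hcz := comm_eq_zpowers hgen hcyc
  have hcz2 := comm_eq_zpowers (gen_swap hgen) hcyc
  -- exponents
  have hexp : ∀ z : G, commutator G = Subgroup.zpowers z → ∀ g : G, ∃ r : ℤ,
      g * z * g⁻¹ = z ^ r ∧ (p : ℤ) ∣ r - 1 ∧ (p = 2 → (4 : ℤ) ∣ r - 1) := by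
    intro z hz g
    have hzc : z ∈ commutator G := by rw [hz]; exact Subgroup.mem_zpowers z
    by_cases hp2 : p = 2
    · obtain ⟨b, hb, hb4⟩ := h4 hp2 z hzc g
      rw [hz] at hb
      obtain ⟨t, rfl⟩ := hb
      refine ⟨1 - 4 * t, ?_, ?_, fun _ => ⟨-t, by ring⟩⟩
      · have h5 : g * z * g⁻¹ = ⁅z, g⁆⁻¹ * z := by rw [commutatorElement_def]; group
        have h6 : (z ^ t) ^ 4 = z ^ (4 * t) := by
          rw [← zpow_natCast, ← zpow_mul]; congr 1; push_cast; ring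
        have hb4' : ⁅z, g⁆ = (z ^ t) ^ 4 := hb4
        rw [h5, hb4', h6, ← zpow_neg, ← zpow_add_one]
        congr 1; ring
      · rw [hp2]; exact ⟨-2 * t, by push_cast; ring⟩
    · have h5 : g * z * g⁻¹ ∈ Subgroup.zpowers z := by rw [← hz]; exact conj_mem_comm g hzc
      obtain ⟨r, hr⟩ := h5
      have hr' : z ^ r = g * z * g⁻¹ := hr
      by_cases hne : commutator G = ⊥
      · have h6 : z = 1 := by rw [hne, Subgroup.mem_bot] at hzc; exact hzc
        exact ⟨1, by rw [h6]; simp, by simp, fun _ => by simp⟩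
      · obtain ⟨n, hnc, hn1, hnp, hn⟩ := exists_central hG (commutator G) hne
        rw [hz] at hnc
        obtain ⟨m, rfl⟩ := hnc
        refine ⟨r, hr'.symm, ?_, fun h => absurd h hp2⟩
        have h6 : (z ^ m) ^ (r - 1) = 1 := by
          have h7 : g * z ^ m * g⁻¹ = (z ^ m) ^ r := by
            rw [← conj_zpow, ← hr', ← zpow_mul, ← zpow_mul, mul_comm]
          have h8 : g * z ^ m * g⁻¹ = z ^ m := by
            have h9 : z ^ m * g = g * z ^ m := hn g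
            rw [← h9]; group
          rw [zpow_sub_one, ← h7, h8, mul_inv_cancel]
        have h7 : orderOf (z ^ m) = p := orderOf_eq_prime hnp hn1
        have h8 := orderOf_dvd_iff_zpow_eq_one.mpr h6
        rwa [h7] at h8
  obtain ⟨r, hr, hr1, hr2⟩ := hexp _ hcz x
  obtain ⟨s, hs, hs1, hs2⟩ := hexp _ hcz y
  obtain ⟨k, hk⟩ := hG ⁅x, y⁆
  rcases dvd_total hp.out k (s - 1) (r - 1) with ⟨T, hT⟩ | ⟨T, hT⟩
  · obtain ⟨y', h5, h6⟩ := cyc_pair hG hgen hcz hr hs hr1 hr2 hk hT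
    exact ⟨x, y', h5, h6⟩
  · have hz' : ⁅y, x⁆ = ⁅x, y⁆⁻¹ := (commutatorElement_inv x y).symm
    have hinv : ∀ g : G, ∀ r : ℤ, g * ⁅x, y⁆ * g⁻¹ = ⁅x, y⁆ ^ r →
        g * ⁅y, x⁆ * g⁻¹ = ⁅y, x⁆ ^ r := by
      intro g r h
      rw [hz']
      generalize ⁅x, y⁆ = z at *
      have h1 : g * z⁻¹ * g⁻¹ = (g * z * g⁻¹)⁻¹ := by group
      rw [h1, h, inv_zpow]
    obtain ⟨x', h5, h6⟩ := cyc_pair hG (gen_swap hgen) hcz2 (hinv y s hs) (hinv x r hr) hs1 hs2
      (k := k) (by rw [hz', inv_pow, hk, inv_one]) hT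
    exact ⟨y, x', h5, h6⟩

end Grp

end Pool.Agent.Y36.AC
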