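import Mathlib
import Pool.Agent.Y36.AC.SufCyc

/-!
Class-preserving automorphisms of finite 2-groups, two generators: the groups whose derived
subgroup is elementary abelian of order four or eight.
-/

set_option autoImplicit false

open scoped commutatorElement

namespace Pool.Agent.Y36.AC

open Pool.Agent.Helper832.AutC

section V4

variable {G : Type} [Group G]

theorem v4_suf [Finite G] (hG : IsPGroup 2 G) {x₀ y₀ : G}
    (hgen₀ : Subgroup.closure {x₀, y₀} = ⊤) (h : L2 G) :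
    ∃ x y : G, Subgroup.closure {x, y} = ⊤ ∧ Full ![x, y] := by
  obtain ⟨x, y, u, hgen, hyz, hxz, huc, hu1, hu, hmem⟩ := v4_struct hG hgen₀ h
  refine ⟨x, y, hgen, ?_⟩
  have hzc : ⁅x, y⁆ ∈ commutator G := comm_mem x y
  have hxyx : x * y * x⁻¹ = ⁅x, y⁆ * y := by rw [commutatorElement_def]; group
  have hzz : ⁅x, y⁆ * ⁅x, y⁆ = 1 := by rw [← pow_two]; exact h.2 _ hzc
  have huu : u * u = 1 := by rw [← pow_two]; exact h.2 _ huc
  generalize ⁅x, y⁆ = z at *
  refine suf_two hgen ?_ ?_ ?_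
  · intro c hc
    rcases hmem c hc with rfl | rfl | rfl | rfl
    · rw [one_mul, mul_one]
    · exact hyz.symm
    · exact hu y
    · rw [mul_assoc, ← hyz, ← mul_assoc, hu y, mul_assoc]
  · -- the class of `x`
    have e1 : y * x * y⁻¹ = z * x := by
      have h1 : y * x⁻¹ = x⁻¹ * (z * y) := by rw [← hxyx]; group
      have h2 : y * x⁻¹ * y⁻¹ = x⁻¹ * z := by rw [h1]; group
      have h3 : y * x * y⁻¹ = (y * x⁻¹ * y⁻¹)⁻¹ := by group
      rw [h3, h2, mul_inv_rev, inv_inv, inv_eq_of_mul_eq_one_left hzz]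
    have e2 : z * x * z⁻¹ = u * x := by
      have h1 : x * z = u * z * x := by rw [← hxz]; group
      have h2 : z * x = u * x * z := by
        calc z * x = 1 * (z * x) := by rw [one_mul]
          _ = (u * u) * (z * x) := by rw [huu]
          _ = u * (u * z * x) := by simp only [mul_assoc]
          _ = u * (x * z) := by rw [h1]
          _ = _ := by simp only [mul_assoc]
      rw [h2]; group
    intro c hc
    rcases hmem c hc with rfl | rfl | rfl | rfl
    · exact ⟨1, by group⟩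
    · exact ⟨y, e1⟩
    · exact ⟨z, e2⟩
    · refine ⟨z * y, ?_⟩
      calc z * y * x * (z * y)⁻¹ = z * (y * x * y⁻¹) * z⁻¹ := by group
        _ = z * (z * x * z⁻¹) := by rw [e1]; group
        _ = (z * u) * x := by rw [e2]; simp only [mul_assoc]
        _ = _ := by rw [hu]
  · have e1 : x * (u * y) * x⁻¹ = u * (z * y) := by
      calc x * (u * y) * x⁻¹ = (x * u) * y * x⁻¹ := by simp only [mul_assoc]
        _ = (u * x) * y * x⁻¹ := by rw [hu]
        _ = _ := by rw [← hxyx]; simp only [mul_assoc]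
    have e2 : x * (z * y) * x⁻¹ = u * y := by
      calc x * (z * y) * x⁻¹ = (x * z * x⁻¹) * (x * y * x⁻¹) := by group
        _ = u * (z * z) * y := by rw [hxz, hxyx]; simp only [mul_assoc]
        _ = _ := by rw [hzz, mul_one]
    intro c hc
    rcases hmem c hc with rfl | rfl | rfl | rfl
    · exact ⟨1, by group⟩
    · exact ⟨x, hxyx⟩
    · refine ⟨x * x, ?_⟩
      calc x * x * y * (x * x)⁻¹ = x * (x * y * x⁻¹) * x⁻¹ := by group
        _ = _ := by rw [hxyx, e2]
    · refine ⟨x * (x * x), ?_⟩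
      calc x * (x * x) * y * (x * (x * x))⁻¹ = x * (x * (x * y * x⁻¹) * x⁻¹) * x⁻¹ := by
            simp only [mul_inv_rev, mul_assoc]
        _ = u * (z * y) := by rw [hxyx, e2, e1]
        _ = _ := by simp only [mul_assoc]

end V4

section E8

variable {G : Type} [Group G]

/-- normal form of the derived subgroup -/
theorem e8_form {x y : G} (hgen : Subgroup.closure {x, y} = ⊤)
    (hexp : ∀ c ∈ commutator G, c ^ 2 = 1)
    (hcl : ∀ c ∈ commutator G, ∀ g k : G, ⁅⁅c, g⁆, k⁆ = 1) :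
    ∀ c ∈ commutator G, ∃ a b e : G, c = a * b * e ∧ (a = 1 ∨ a = ⁅x, y⁆) ∧
      (b = 1 ∨ b = ⁅⁅x, y⁆, x⁆) ∧ (e = 1 ∨ e = ⁅⁅x, y⁆, y⁆) := by
  have hcen : ∀ c ∈ commutator G, ∀ g q : G, ⁅c, g⁆ * q = q * ⁅c, g⁆ := fun c hc g q =>
    commutatorElement_eq_one_iff_mul_comm.mp (hcl c hc g q)
  have h3 := comm_le (fun a b c d => hcl _ (comm_mem a b) c d) x y hgen
    (Subgroup.closure {⁅x, y⁆, ⁅⁅x, y⁆, x⁆, ⁅⁅x, y⁆, y⁆})
    (Subgroup.subset_closure (Or.inl rfl)) (Subgroup.subset_closure (Or.inr (Or.inl rfl)))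
    (Subgroup.subset_closure (Or.inr (Or.inr rfl)))
  have hzc : ⁅x, y⁆ ∈ commutator G := comm_mem x y
  have hu := fun q => hcen _ hzc x q
  have hw := fun q => hcen _ hzc y q
  have hu2 : ⁅⁅x, y⁆, x⁆ ^ 2 = 1 := hexp _ (comm_mem _ _)
  have hw2 : ⁅⁅x, y⁆, y⁆ ^ 2 = 1 := hexp _ (comm_mem _ _)
  have hz2 : ⁅x, y⁆ ^ 2 = 1 := hexp _ hzc
  generalize ⁅⁅x, y⁆, x⁆ = u at *
  generalize ⁅⁅x, y⁆, y⁆ = w at *
  generalize ⁅x, y⁆ = z at *
  have huk : ∀ (k : ℤ) (q : G), u ^ k * q = q * u ^ k := fun k q => Commute.zpow_left (hu q) k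
  have hwk : ∀ (k : ℤ) (q : G), w ^ k * q = q * w ^ k := fun k q => Commute.zpow_left (hw q) k
  intro c hc
  have h4 : ∃ i j k : ℤ, c = z ^ i * u ^ j * w ^ k := by
    have hc' := h3 hc
    clear hc
    induction hc' using Subgroup.closure_induction with
    | mem s hs =>
      rcases hs with rfl | rfl | rfl
      · exact ⟨1, 0, 0, by simp⟩
      · exact ⟨0, 1, 0, by simp⟩
      · exact ⟨0, 0, 1, by simp⟩
    | one => exact ⟨0, 0, 0, by simp⟩
    | mul a b _ _ ha hb =>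
      obtain ⟨i, j, k, rfl⟩ := ha
      obtain ⟨i', j', k', rfl⟩ := hb
      refine ⟨i + i', j + j', k + k', ?_⟩
      calc z ^ i * u ^ j * w ^ k * (z ^ i' * u ^ j' * w ^ k')
          = z ^ i * u ^ j * (w ^ k * (z ^ i' * u ^ j')) * w ^ k' := by simp only [mul_assoc]
        _ = z ^ i * (u ^ j * z ^ i') * u ^ j' * (w ^ k * w ^ k') := by
          rw [hwk]; simp only [mul_assoc]
        _ = (z ^ i * z ^ i') * (u ^ j * u ^ j') * (w ^ k * w ^ k') := by
          rw [huk j (z ^ i')]; simp only [mul_assoc]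
        _ = _ := by rw [← zpow_add, ← zpow_add, ← zpow_add]
    | inv a _ ha =>
      obtain ⟨i, j, k, rfl⟩ := ha
      refine ⟨-i, -j, -k, ?_⟩
      rw [mul_inv_rev, mul_inv_rev, ← zpow_neg, ← zpow_neg, ← zpow_neg, hwk, huk]
  obtain ⟨i, j, k, rfl⟩ := h4
  exact ⟨z ^ i, u ^ j, w ^ k, rfl, zpowers_two hz2 ⟨i, rfl⟩, zpowers_two hu2 ⟨j, rfl⟩,
    zpowers_two hw2 ⟨k, rfl⟩⟩

/-- the classes of members of generating pairs are full -/
theorem e8_class {x y : G} (hgen : Subgroup.closure {x, y} = ⊤)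
    (hexp : ∀ c ∈ commutator G, c ^ 2 = 1)
    (hcl : ∀ c ∈ commutator G, ∀ g k : G, ⁅⁅c, g⁆, k⁆ = 1) :
    ∀ c ∈ commutator G, ∃ g : G, g * x * g⁻¹ = c * x := by
  have hcen : ∀ c ∈ commutator G, ∀ g q : G, ⁅c, g⁆ * q = q * ⁅c, g⁆ := fun c hc g q =>
    commutatorElement_eq_one_iff_mul_comm.mp (hcl c hc g q)
  have hform := e8_form hgen hexp hcl
  have hzc : ⁅x, y⁆ ∈ commutator G := comm_mem x y
  have hu := fun q => hcen _ hzc x q
  have hw := fun q => hcen _ hzc y q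
  have hww : ⁅⁅x, y⁆, y⁆ * ⁅⁅x, y⁆, y⁆ = 1 := by rw [← pow_two]; exact hexp _ (comm_mem _ _)
  have hzz : ⁅x, y⁆ * ⁅x, y⁆ = 1 := by rw [← pow_two]; exact hexp _ hzc
  have hxyx : x * y * x⁻¹ = ⁅x, y⁆ * y := by rw [commutatorElement_def]; group
  have hzx : ⁅x, y⁆ * x * ⁅x, y⁆⁻¹ = ⁅⁅x, y⁆, x⁆ * x := by
    rw [commutatorElement_def ⁅x, y⁆ x]; generalize ⁅x, y⁆ = z; group
  have hzy : ⁅x, y⁆ * y = ⁅⁅x, y⁆, y⁆ * y * ⁅x, y⁆ := by
    rw [commutatorElement_def ⁅x, y⁆ y]; generalize ⁅x, y⁆ = z; group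
  generalize ⁅⁅x, y⁆, x⁆ = u at *
  generalize ⁅⁅x, y⁆, y⁆ = w at *
  generalize ⁅x, y⁆ = z at *
  have hyxy : y * x * y⁻¹ = z * x := by
    have h1 : y * x⁻¹ = x⁻¹ * (z * y) := by rw [← hxyx]; group
    have h2 : y * x⁻¹ * y⁻¹ = x⁻¹ * z := by rw [h1]; group
    have h3 : y * x * y⁻¹ = (y * x⁻¹ * y⁻¹)⁻¹ := by group
    rw [h3, h2, mul_inv_rev, inv_inv, inv_eq_of_mul_eq_one_left hzz]
  have hyz : y * z * y⁻¹ = w * z := by
    have h1 : y * z = w * (z * y) := by
      calc y * z = 1 * (y * z) := by rw [one_mul]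
        _ = (w * w) * (y * z) := by rw [hww]
        _ = w * (w * y * z) := by simp only [mul_assoc]
        _ = _ := by rw [← hzy]
    rw [h1]; group
  have hyy : (y * y) * x * (y * y)⁻¹ = w * x := by
    calc (y * y) * x * (y * y)⁻¹ = y * (y * x * y⁻¹) * y⁻¹ := by group
      _ = y * (z * x) * y⁻¹ := by rw [hyxy]
      _ = (y * z * y⁻¹) * (y * x * y⁻¹) := by group
      _ = w * (z * z) * x := by rw [hyz, hyxy]; simp only [mul_assoc]
      _ = _ := by rw [hzz, mul_one]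
  -- central factors
  have step : ∀ a g c : G, (∀ q : G, c * q = q * c) → g * x * g⁻¹ = c * x →
      ∀ b : G, a * x * a⁻¹ = b * x → (a * g) * x * (a * g)⁻¹ = b * c * x := by
    intro a g c hc hg b hb
    calc (a * g) * x * (a * g)⁻¹ = a * (g * x * g⁻¹) * a⁻¹ := by group
      _ = (a * c) * x * a⁻¹ := by rw [hg]; simp only [mul_assoc]
      _ = c * (a * x * a⁻¹) := by rw [← hc]; simp only [mul_assoc]
      _ = (c * b) * x := by rw [hb]; simp only [mul_assoc]
      _ = _ := by rw [hc]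
  intro c hc
  obtain ⟨a, b, e, rfl, ha, hb, he⟩ := hform c hc
  have h1 : ∃ g : G, g * x * g⁻¹ = e * x ∧ ∀ q : G, e * q = q * e := by
    rcases he with rfl | rfl
    · exact ⟨1, by group, fun q => by rw [one_mul, mul_one]⟩
    · exact ⟨y * y, hyy, hw⟩
  have h2 : ∃ g : G, g * x * g⁻¹ = b * x ∧ ∀ q : G, b * q = q * b := by
    rcases hb with rfl | rfl
    · exact ⟨1, by group, fun q => by rw [one_mul, mul_one]⟩
    · exact ⟨z, hzx, hu⟩
  have h3 : ∃ g : G, g * x * g⁻¹ = a * x := by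
    rcases ha with rfl | rfl
    · exact ⟨1, by group⟩
    · exact ⟨y, hyxy⟩
  obtain ⟨g1, hg1, hc1⟩ := h1
  obtain ⟨g2, hg2, hc2⟩ := h2
  obtain ⟨g3, hg3⟩ := h3
  exact ⟨(g3 * g2) * g1, step (g3 * g2) g1 e hc1 hg1 (a * b) (step g3 g2 b hc2 hg2 a hg3)⟩

/-- the central automorphism attached to a subgroup of index two -/
theorem exists_flip (M : Subgroup G) (hM : M.index = 2) {e : G} (he : ∀ q : G, e * q = q * e)
    (hee : e * e = 1) (heM : e ∈ M) (hconj : ∀ g : G, g ∉ M → IsConj g (g * e)) :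
    ∃ β ∈ AutC G, (∀ g ∈ M, β g = g) ∧ ∀ g, g ∉ M → β g = g * e := by
  classical
  let f : G → G := fun g => if g ∈ M then g else g * e
  have hf1 : ∀ g ∈ M, f g = g := fun g hg => if_pos hg
  have hf2 : ∀ g, g ∉ M → f g = g * e := fun g hg => if_neg hg
  have hmul : ∀ a b : G, f (a * b) = f a * f b := by
    intro a b
    have h := Subgroup.mul_mem_iff_of_index_two hM (a := a) (b := b)
    by_cases ha : a ∈ M <;> by_cases hb : b ∈ M
    · rw [hf1 a ha, hf1 b hb, hf1 _ (mul_mem ha hb)]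
    · have h1 : a * b ∉ M := by rw [h]; tauto
      rw [hf1 a ha, hf2 b hb, hf2 _ h1, mul_assoc]
    · have h1 : a * b ∉ M := by rw [h]; tauto
      rw [hf2 a ha, hf1 b hb, hf2 _ h1, mul_assoc, mul_assoc, he]
    · have h1 : a * b ∈ M := by rw [h]; tauto
      rw [hf2 a ha, hf2 b hb, hf1 _ h1]
      calc a * b = a * b * (e * e) := by rw [hee, mul_one]
        _ = a * (b * e) * e := by simp only [mul_assoc]
        _ = a * (e * b) * e := by rw [he]
        _ = _ := by simp only [mul_assoc]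
  have hff : ∀ g, f (f g) = g := by
    intro g
    by_cases hg : g ∈ M
    · rw [hf1 g hg, hf1 g hg]
    · have h1 : g * e ∉ M := by
        intro h2
        apply hg
        have h3 := mul_mem h2 (inv_mem heM)
        rwa [mul_inv_cancel_right] at h3
      rw [hf2 g hg, hf2 _ h1, mul_assoc, hee, mul_one]
  let β : MulAut G :=
    { toFun := f
      invFun := f
      left_inv := hff
      right_inv := hff
      map_mul' := hmul }
  refine ⟨β, ?_, hf1, hf2⟩
  intro g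
  show IsConj g (f g)
  by_cases hg : g ∈ M
  · rw [hf1 g hg]
  · rw [hf2 g hg]
    exact hconj g hg

/-- a maximal subgroup avoiding the first generator -/
theorem exists_index_two [Finite G] (hG : IsPGroup 2 G) {x y : G}
    (hgen : Subgroup.closure {x, y} = ⊤) (hne : commutator G ≠ ⊥) :
    ∃ M : Subgroup G, M.index = 2 ∧ x ∉ M ∧ y ∈ M ∧ frattini G ≤ M := by
  obtain ⟨hF1, hF2⟩ := frattini_facts hG
  let M := Subgroup.zpowers y ⊔ frattini G
  have hFM : frattini G ≤ M := le_sup_right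
  have hyM : y ∈ M := (le_sup_left : _ ≤ M) (Subgroup.mem_zpowers y)
  have hMn : M.Normal := by
    refine ⟨fun m hm g => ?_⟩
    have h1 : g * m * g⁻¹ = ⁅g, m⁆ * m := by rw [commutatorElement_def]; group
    rw [h1]
    exact mul_mem (hFM (hF1 g m)) hm
  have hxM : x ∉ M := by
    intro hx
    have h1 : M = ⊤ := by
      rw [eq_top_iff, ← hgen, Subgroup.closure_le]
      intro q hq
      rcases hq with hq | hq
      · rw [SetLike.mem_coe, hq]; exact hx
      · rw [SetLike.mem_coe, Set.mem_singleton_iff.mp hq]; exact hyM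
    have h2 : Subgroup.zpowers y = ⊤ := frattini_nongenerating h1
    apply hne
    rw [eq_bot_iff, commutator_def, Subgroup.commutator_le]
    intro a _ b _
    have ha : a ∈ Subgroup.zpowers y := by rw [h2]; exact Subgroup.mem_top a
    have hb : b ∈ Subgroup.zpowers y := by rw [h2]; exact Subgroup.mem_top b
    obtain ⟨i, rfl⟩ := ha
    obtain ⟨j, rfl⟩ := hb
    rw [Subgroup.mem_bot, commutatorElement_eq_one_iff_mul_comm]
    exact (Commute.zpow_zpow (Commute.refl y) i j).eq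
  refine ⟨M, ?_, hxM, hyM, hFM⟩
  haveI := hMn
  have hx1 : (x : G ⧸ M) ≠ 1 := fun h => hxM ((QuotientGroup.eq_one_iff x).mp h)
  have hx2 : (x : G ⧸ M) ^ 2 = 1 := by
    have h1 : ((x ^ 2 : G) : G ⧸ M) = 1 := (QuotientGroup.eq_one_iff _).mpr (hFM (hF2 x))
    exact h1
  have htop : Subgroup.zpowers (x : G ⧸ M) = ⊤ := by
    rw [eq_top_iff, ← gen_quot2 M hgen, Subgroup.closure_le]
    intro q hq
    rcases hq with hq | hq
    · rw [SetLike.mem_coe, hq]; exact Subgroup.mem_zpowers _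
    · rw [SetLike.mem_coe, Set.mem_singleton_iff.mp hq]
      have h1 : (y : G ⧸ M) = 1 := (QuotientGroup.eq_one_iff y).mpr hyM
      rw [h1]
      exact one_mem _
  have h3 : Nat.card (G ⧸ M) = 2 := by
    rw [← Subgroup.card_top, ← htop, Nat.card_zpowers, orderOf_eq_prime hx2 hx1]
  exact h3

theorem e8_suf [Finite G] (hG : IsPGroup 2 G) {x y : G}
    (hgen : Subgroup.closure {x, y} = ⊤) (h : L3 G) : Full ![x, y] := by
  classical
  obtain ⟨hcard, hexp, hcl⟩ := h
  have hne : commutator G ≠ ⊥ := by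
    intro h1
    rw [h1, Subgroup.card_bot] at hcard
    omega
  have hcen : ∀ c ∈ commutator G, ∀ g q : G, ⁅c, g⁆ * q = q * ⁅c, g⁆ := fun c hc g q =>
    commutatorElement_eq_one_iff_mul_comm.mp (hcl c hc g q)
  have hgens : ∀ g : G, g ∉ frattini G → ∀ c ∈ commutator G, ∃ k : G, k * g * k⁻¹ = c * g := by
    intro g hg
    obtain ⟨j, hj⟩ := exchange hG ![x, y] (by rw [range_pair]; exact hgen) g hg
    fin_cases j
    · have e1 : Function.update ![x, y] 0 g = ![g, y] := by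
        funext i; fin_cases i <;> simp
      have hj' : Subgroup.closure (Set.range (Function.update ![x, y] 0 g)) = ⊤ := hj
      rw [e1, range_pair] at hj'
      exact e8_class hj' hexp hcl
    · have e1 : Function.update ![x, y] 1 g = ![x, g] := by
        funext i; fin_cases i <;> simp
      have hj' : Subgroup.closure (Set.range (Function.update ![x, y] 1 g)) = ⊤ := hj
      rw [e1, range_pair] at hj'
      exact e8_class (gen_swap hj') hexp hcl
  -- central flips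
  have hflip : ∀ {a b : G}, Subgroup.closure {a, b} = ⊤ → ∀ e ∈ commutator G,
      (∀ q : G, e * q = q * e) → ∃ β ∈ AutC G, β a = a * e ∧ β b = b ∧
        ∀ c ∈ commutator G, β c = c := by
    intro a b hab e hec he
    obtain ⟨M, hM, haM, hbM, hFM⟩ := exists_index_two hG hab hne
    have hcM : commutator G ≤ M := (comm_le_frattini hG).trans hFM
    obtain ⟨β, hβ, h1, h2⟩ := exists_flip M hM he (by rw [← pow_two]; exact hexp e hec) (hcM hec)
      (by
        intro g hg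
        obtain ⟨k, hk⟩ := hgens g (fun h3 => hg (hFM h3)) e hec
        have h4 := isConj_of hk
        rwa [he] at h4)
    exact ⟨β, hβ, h2 a haM, h1 b hbM, fun c hc => h1 c (hcM hc)⟩
  -- inner automorphisms
  have hzc : ⁅x, y⁆ ∈ commutator G := comm_mem x y
  have hzx := hcen _ hzc x
  have hzy := hcen _ hzc y
  have hzxc : ⁅⁅x, y⁆, x⁆ ∈ commutator G := comm_mem _ _
  have hform := e8_form hgen hexp hcl
  have hxyx : x * y * x⁻¹ = ⁅x, y⁆ * y := by rw [commutatorElement_def]; group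
  have hzz : ⁅x, y⁆ * ⁅x, y⁆ = 1 := by rw [← pow_two]; exact hexp _ hzc
  -- every element of the derived subgroup is `1` or `z` times a central element of it
  have hsplit : ∀ c ∈ commutator G, ∃ a q : G, c = a * q ∧ (a = 1 ∨ a = ⁅x, y⁆) ∧
      q ∈ commutator G ∧ ∀ g : G, q * g = g * q := by
    intro c hc
    obtain ⟨a, b, e, rfl, ha, hb, he⟩ := hform c hc
    refine ⟨a, b * e, by rw [mul_assoc], ha, ?_, ?_⟩
    · refine mul_mem ?_ ?_
      · rcases hb with rfl | rfl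
        · exact one_mem _
        · exact comm_mem _ _
      · rcases he with rfl | rfl
        · exact one_mem _
        · exact comm_mem _ _
    · intro g
      have h1 : Commute b g := by
        rcases hb with rfl | rfl
        · exact Commute.one_left g
        · exact hzx g
      have h2 : Commute e g := by
        rcases he with rfl | rfl
        · exact Commute.one_left g
        · exact hzy g
      exact (h1.mul_left h2).eq
  -- realise the values modulo central elements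
  have hinner : ∀ a b : G, (a = 1 ∨ a = ⁅x, y⁆) → (b = 1 ∨ b = ⁅x, y⁆) →
      ∃ ι ∈ AutC G, ∃ q r : G, ι x = x * (a * q) ∧ ι y = y * (b * r) ∧ q ∈ commutator G ∧
        r ∈ commutator G ∧ (∀ g : G, q * g = g * q) ∧ (∀ g : G, r * g = g * r) := by
    have hyxy : y * x * y⁻¹ = ⁅x, y⁆ * x := by
      generalize ⁅x, y⁆ = z at *
      have h1 : y * x⁻¹ = x⁻¹ * (z * y) := by rw [← hxyx]; group
      have h2 : y * x⁻¹ * y⁻¹ = x⁻¹ * z := by rw [h1]; group
      have h3 : y * x * y⁻¹ = (y * x⁻¹ * y⁻¹)⁻¹ := by group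
      rw [h3, h2, mul_inv_rev, inv_inv, inv_eq_of_mul_eq_one_left hzz]
    have hzx' : ⁅x, y⁆ * x = x * (⁅x, y⁆ * ⁅⁅x, y⁆, x⁆) := by
      have h1 : ⁅x, y⁆ * x = ⁅⁅x, y⁆, x⁆ * (x * ⁅x, y⁆) := by
        rw [commutatorElement_def ⁅x, y⁆ x]; generalize ⁅x, y⁆ = z; group
      rw [h1, hzx]; simp only [mul_assoc]
    have hzy' : ⁅x, y⁆ * y = y * (⁅x, y⁆ * ⁅⁅x, y⁆, y⁆) := by
      have h1 : ⁅x, y⁆ * y = ⁅⁅x, y⁆, y⁆ * (y * ⁅x, y⁆) := by
        rw [commutatorElement_def ⁅x, y⁆ y]; generalize ⁅x, y⁆ = z; group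
      rw [h1, hzy]; simp only [mul_assoc]
    have hzyc : ⁅⁅x, y⁆, y⁆ ∈ commutator G := comm_mem _ _
    have hinn : ∀ g : G, MulAut.conj g ∈ AutC G := fun g q => isConj_iff.mpr ⟨g, rfl⟩
    have hxz : x * ⁅x, y⁆ * x⁻¹ = ⁅x, y⁆ * ⁅⁅x, y⁆, x⁆⁻¹ := by
      have h1 : x * ⁅x, y⁆ * x⁻¹ = ⁅⁅x, y⁆, x⁆⁻¹ * ⁅x, y⁆ := by
        rw [commutatorElement_def ⁅x, y⁆ x]; generalize ⁅x, y⁆ = z; group
      rw [h1]
      exact ((show Commute ⁅⁅x, y⁆, x⁆ ⁅x, y⁆ from hzx _).inv_left).eq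
    have one_cen : ∀ g : G, (1 : G) * g = g * 1 := fun g => by rw [one_mul, mul_one]
    intro a b ha hb
    rcases ha with rfl | rfl <;> rcases hb with rfl | rfl
    · exact ⟨1, one_mem _, 1, 1, by simp, by simp, one_mem _, one_mem _, one_cen, one_cen⟩
    · refine ⟨MulAut.conj x, hinn x, 1, ⁅⁅x, y⁆, y⁆, ?_, ?_, one_mem _, hzyc, one_cen, hzy⟩
      · show x * x * x⁻¹ = _
        group
      · show x * y * x⁻¹ = _
        rw [hxyx, hzy']
    · refine ⟨MulAut.conj y, hinn y, ⁅⁅x, y⁆, x⁆, 1, ?_, ?_, hzxc, one_mem _, hzx, one_cen⟩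
      · show y * x * y⁻¹ = _
        rw [hyxy, hzx']
      · show y * y * y⁻¹ = _
        group
    · -- conjugation by `x y`
      refine ⟨MulAut.conj (x * y), hinn _, ⁅⁅x, y⁆, x⁆ * ⁅⁅x, y⁆, x⁆⁻¹, ⁅⁅x, y⁆, y⁆, ?_, ?_,
        ?_, hzyc, ?_, hzy⟩
      · show (x * y) * x * (x * y)⁻¹ = _
        rw [mul_inv_cancel, mul_one]
        have h1 : (x * y) * x * (x * y)⁻¹ = x * (y * x * y⁻¹) * x⁻¹ := by group
        rw [h1, hyxy]
        have h2 : x * (⁅x, y⁆ * x) * x⁻¹ = x * ⁅x, y⁆ := by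
          generalize ⁅x, y⁆ = z; group
        exact h2
      · show (x * y) * y * (x * y)⁻¹ = _
        have h1 : (x * y) * y * (x * y)⁻¹ = x * y * x⁻¹ := by group
        rw [h1, hxyx, hzy']
      · rw [mul_inv_cancel]; exact one_mem _
      · rw [mul_inv_cancel]; exact one_cen
  intro c hc
  obtain ⟨a, q₀, hca, ha, hq0, hq0c⟩ := hsplit (c 0) (hc 0)
  obtain ⟨b, r₀, hcb, hb, hr0, hr0c⟩ := hsplit (c 1) (hc 1)
  obtain ⟨ι, hι, q, r, hιx, hιy, hqc, hrc, hq, hr⟩ := hinner a b ha hb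
  have haC : a ∈ commutator G := by
    rcases ha with rfl | rfl
    · exact one_mem _
    · exact hzc
  have hbC : b ∈ commutator G := by
    rcases hb with rfl | rfl
    · exact one_mem _
    · exact hzc
  have hcenmul : ∀ s t : G, (∀ g : G, s * g = g * s) → (∀ g : G, t * g = g * t) →
      ∀ g : G, (s * t) * g = g * (s * t) := fun s t hs ht g =>
    ((show Commute s g from hs g).mul_left (ht g)).eq
  have hceninv : ∀ s : G, (∀ g : G, s * g = g * s) → ∀ g : G, s⁻¹ * g = g * s⁻¹ :=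
    fun s hs g => ((show Commute s g from hs g).inv_left).eq
  obtain ⟨β₁, hβ₁, h1x, h1y, h1c⟩ := hflip hgen (q₀ * q⁻¹) (mul_mem hq0 (inv_mem hqc))
    (hcenmul _ _ hq0c (hceninv q hq))
  obtain ⟨β₂, hβ₂, h2y, h2x, h2c⟩ := hflip (gen_swap hgen) (r₀ * r⁻¹) (mul_mem hr0 (inv_mem hrc))
    (hcenmul _ _ hr0c (hceninv r hr))
  refine ⟨β₂ * β₁ * ι, mul_mem (mul_mem hβ₂ hβ₁) hι, ?_⟩
  have hx : (β₂ * β₁ * ι) x = x * c 0 := by
    show β₂ (β₁ (ι x)) = _
    rw [hιx, map_mul, h1x, h1c _ (mul_mem haC hqc), map_mul, map_mul, h2x,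
      h2c _ (mul_mem hq0 (inv_mem hqc)), h2c _ (mul_mem haC hqc), hca]
    calc x * (q₀ * q⁻¹) * (a * q) = x * ((q₀ * q⁻¹) * (a * q)) := by rw [mul_assoc]
      _ = x * ((a * q) * (q₀ * q⁻¹)) := by rw [hcenmul _ _ hq0c (hceninv q hq)]
      _ = x * (a * (q * (q₀ * q⁻¹))) := by simp only [mul_assoc]
      _ = x * (a * q₀) := by rw [hq]; group
  have hy : (β₂ * β₁ * ι) y = y * c 1 := by
    show β₂ (β₁ (ι y)) = _
    rw [hιy, map_mul, h1y, h1c _ (mul_mem hbC hrc), map_mul, h2y,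
      h2c _ (mul_mem hbC hrc), hcb]
    calc y * (r₀ * r⁻¹) * (b * r) = y * ((r₀ * r⁻¹) * (b * r)) := by rw [mul_assoc]
      _ = y * ((b * r) * (r₀ * r⁻¹)) := by rw [hcenmul _ _ hr0c (hceninv r hr)]
      _ = y * (b * (r * (r₀ * r⁻¹))) := by simp only [mul_assoc]
      _ = y * (b * r₀) := by rw [hr]; group
  intro i
  fin_cases i
  · exact hx
  · exact hy

end E8

end Pool.Agent.Y36.AC
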